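import Mathlib

/-! Piece D1: derivations extend along separable algebraic and purely transcendental extensions. -/

set_option autoImplicit false

namespace Pool.Agent.Campana

open scoped TensorProduct

/-- Derivations extend uniquely along formally etale extensions. -/
theorem extend_of_formallyEtale {k S T : Type} [CommRing k] [CommRing S] [CommRing T]
    [Algebra k S] [Algebra k T] [Algebra S T] [IsScalarTower k S T] [Algebra.FormallyEtale S T]
    (d : Derivation k S T) : ∃ D : Derivation k T T, ∀ s, D (algebraMap S T s) = d s := by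
  let e := KaehlerDifferential.tensorKaehlerEquivOfFormallyEtale k S T
  let l : Ω[T⁄k] →ₗ[T] T := (LinearMap.liftBaseChange T d.liftKaehlerDifferential) ∘ₗ
    e.symm.toLinearMap
  refine ⟨l.compDer (KaehlerDifferential.D k T), fun s => ?_⟩
  have h1 : e.symm (KaehlerDifferential.D k T (algebraMap S T s)) =
      1 ⊗ₜ KaehlerDifferential.D k S s :=
    KaehlerDifferential.tensorKaehlerEquivOfFormallyEtale_symm_D_algebraMap k S T s
  change (LinearMap.liftBaseChange T d.liftKaehlerDifferential)
    (e.symm (KaehlerDifferential.D k T (algebraMap S T s))) = d s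
  rw [h1, LinearMap.liftBaseChange_tmul, one_smul, Derivation.liftKaehlerDifferential_comp_D]

/-- A derivation on a polynomial ring embedded in a field. -/
theorem exists_derivation_adjoin {k K ι : Type} [Field k] [Field K] [Algebra k K]
    (x : ι → K) (hx : AlgebraicIndependent k x) (y : ι → K) :
    ∃ D : Derivation k (Algebra.adjoin k (Set.range x)) K,
      ∀ i, D ⟨x i, Algebra.subset_adjoin ⟨i, rfl⟩⟩ = y i := by
  let e := hx.aevalEquiv
  let _ : Module (MvPolynomial ι k) K := Module.compHom K
    ((algebraMap (Algebra.adjoin k (Set.range x)) K).comp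
      (e : MvPolynomial ι k →+* Algebra.adjoin k (Set.range x)))
  have hsmul : ∀ (p : MvPolynomial ι k) (z : K), p • z = (e p : K) * z := fun p z => rfl
  have : IsScalarTower k (MvPolynomial ι k) K := by
    constructor
    intro a p z
    rw [hsmul, hsmul, map_smul, Algebra.smul_def, Algebra.smul_def, Subalgebra.coe_mul, mul_assoc]
    rfl
  let d : Derivation k (MvPolynomial ι k) K := MvPolynomial.mkDerivation k y
  refine ⟨Derivation.mk' (d.toLinearMap ∘ₗ e.symm.toLinearMap) ?_, fun i => ?_⟩
  · intro a b
    simp only [LinearMap.comp_apply, AlgEquiv.toLinearMap_apply, map_mul]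
    change d (e.symm a * e.symm b) = (a : K) * d (e.symm b) + (b : K) * d (e.symm a)
    rw [Derivation.leibniz, hsmul, hsmul, AlgEquiv.apply_symm_apply, AlgEquiv.apply_symm_apply]
  · change d (e.symm ⟨x i, _⟩) = y i
    have h1 : e.symm ⟨x i, Algebra.subset_adjoin ⟨i, rfl⟩⟩ = MvPolynomial.X i := by
      rw [AlgEquiv.symm_apply_eq]
      apply Subtype.ext
      have h2 := hx.algebraMap_aevalEquiv (MvPolynomial.X i)
      rw [MvPolynomial.aeval_X] at h2
      exact h2.symm
    rw [h1]
    exact MvPolynomial.mkDerivation_X k y i

open scoped IntermediateField.algebraAdjoinAdjoin in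
theorem exists_derivation_of_basis {k K ι : Type} [Field k] [CharZero k] [Field K] [Algebra k K]
    (x : ι → K) (hx : IsTranscendenceBasis k x) (y : ι → K) :
    ∃ D : Derivation k K K, ∀ i, D (x i) = y i := by
  have : Algebra.IsAlgebraic (IntermediateField.adjoin k (Set.range x)) K := hx.isAlgebraic_field
  have : Algebra.IsSeparable (IntermediateField.adjoin k (Set.range x)) K := inferInstance
  have h1 : Algebra.FormallyEtale (IntermediateField.adjoin k (Set.range x)) K :=
    Algebra.FormallyEtale.of_isSeparable _ K
  have h2 : Algebra.FormallyEtale (Algebra.adjoin k (Set.range x))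
      (IntermediateField.adjoin k (Set.range x)) := .of_isLocalization (nonZeroDivisors _)
  have h3 : Algebra.FormallyEtale (Algebra.adjoin k (Set.range x)) K :=
    .comp _ (IntermediateField.adjoin k (Set.range x)) _
  obtain ⟨d, hd⟩ := exists_derivation_adjoin x hx.1 y
  obtain ⟨D, hD⟩ := extend_of_formallyEtale d
  refine ⟨D, fun i => ?_⟩
  rw [← hd i, ← hD]
  rfl

/-- PIECE D1 (Der.lean, only Mathlib). -/
theorem exists_derivation {k K ι : Type} [Field k] [CharZero k] [Field K] [Algebra k K]
    (x : ι → K) (hx : AlgebraicIndependent k x) (y : ι → K) :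
    ∃ D : Derivation k K K, ∀ i, D (x i) = y i := by
  obtain ⟨t, ht, hb⟩ := exists_isTranscendenceBasis_superset (R := k) (s := Set.range x)
    ((algebraicIndependent_subtype_range hx.injective).2 hx)
  have hinj := hx.injective
  classical
  let y' : t → K := fun a => if h : (a : K) ∈ Set.range x then y h.choose else 0
  obtain ⟨D, hD⟩ := exists_derivation_of_basis _ hb y'
  refine ⟨D, fun i => ?_⟩
  have h1 := hD ⟨x i, ht ⟨i, rfl⟩⟩
  have h2 : x i ∈ Set.range x := ⟨i, rfl⟩
  have h3 : h2.choose = i := hinj h2.choose_spec
  rw [h1]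
  simp only [y', dif_pos h2, h3]

theorem derivation_eq_zero {k K : Type} [Field k] [CharZero k] [Field K] [Algebra k K]
    (D : Derivation k K K) (F : IntermediateField k K) (hF : ∀ x ∈ F, D x = 0) (z : K)
    (hz : IsAlgebraic F z) : D z = 0 := by
  have hz' : IsIntegral F z := hz.isIntegral
  have h1 := Derivation.apply_aeval_eq D z (minpoly F z)
  rw [minpoly.aeval, map_zero] at h1
  have h2 : D.compAlgebraMap F = 0 := by
    ext a
    exact hF _ a.2
  have h3 : (D.compAlgebraMap F).mapCoeffs (minpoly F z) = 0 := by
    ext i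
    rw [Derivation.mapCoeffs_apply, h2]
    rfl
  rw [h3, map_zero, map_zero, zero_add, smul_eq_mul] at h1
  have h4 : Polynomial.aeval z (Polynomial.derivative (minpoly F z)) ≠ 0 :=
    (minpoly.irreducible hz').separable.aeval_derivative_ne_zero (minpoly.aeval F z)
  exact (mul_eq_zero.mp h1.symm).resolve_left h4

end Pool.Agent.Campana
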