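import Mathlib

/-! Definitions for Campana's conjecture: special function fields, Brody-special varieties. -/

set_option autoImplicit false

namespace Pool.Agent.Campana

/-- Exterior `p`-forms of the field `K` over `ℂ`, as alternating forms on derivations. For a finitely
generated field this is the space of rational `p`-forms `⋀ᵖ Ω_{K/ℂ}`. -/
abbrev Form (K : Type) [Field K] [Algebra ℂ K] (p : ℕ) : Type :=
  (Derivation ℂ K K) [⋀^Fin p]→ₗ[K] K

/-- `O` is a discrete valuation ring of `K` containing `ℂ` -/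
def IsPlace {K : Type} [Field K] [Algebra ℂ K] (O : ValuationSubring K) : Prop :=
  (∀ c : ℂ, algebraMap ℂ K c ∈ O) ∧ IsDiscreteValuationRing O

/-- The rational section `f ω^m` of the `m`-th power of the saturated rank one subsheaf of the sheaf
of `p`-forms generated by `ω` is regular at `O`: for some `u ≠ 0`, the form `u⁻¹ ω` is integral at `O`
(its values on derivations preserving `O` lie in `O`) and `f u ^ m` lies in `O`. -/
def RegularAt {K : Type} [Field K] [Algebra ℂ K] (O : ValuationSubring K) {p : ℕ} (ω : Form K p)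
    (m : ℕ) (f : K) : Prop :=
  ∃ u : K, u ≠ 0 ∧
    (∀ D : Fin p → Derivation ℂ K K, (∀ i, ∀ a ∈ O, D i a ∈ O) → u⁻¹ * ω D ∈ O) ∧ f * u ^ m ∈ O

/-- The function field `K` is special: for each `p ≥ 1` and each rank one subsheaf of the sheaf of
`p`-forms (generated by `ω`), the Kodaira dimension is at most `p - 1`: the ratios of `p + 1` regular
sections `f₀, f₁, …, f_p` of its `m`-th power are algebraically dependent. -/
def SpecialField (K : Type) [Field K] [Algebra ℂ K] : Prop :=
  ∀ p : ℕ, 1 ≤ p → ∀ ω : Form K p, ω ≠ 0 → ∀ m : ℕ, 1 ≤ m → ∀ f₀ : K, f₀ ≠ 0 → ∀ f : Fin p → K,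
    (∀ O : ValuationSubring K, IsPlace O → RegularAt O ω m f₀ ∧ ∀ i, RegularAt O ω m (f i)) →
    ¬ AlgebraicIndependent ℂ (fun i => f i / f₀)

/-- The homogeneous coordinate `x_i` in the fraction field of the homogeneous coordinate ring. -/
noncomputable def coord {n : ℕ} (P : Ideal (MvPolynomial (Fin (n + 1)) ℂ)) [P.IsPrime]
    (i : Fin (n + 1)) : FractionRing (MvPolynomial (Fin (n + 1)) ℂ ⧸ P) :=
  algebraMap (MvPolynomial (Fin (n + 1)) ℂ ⧸ P) _ (Ideal.Quotient.mk P (MvPolynomial.X i))

/-- The function field of the projective variety with homogeneous prime ideal `P`: the field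
generated by the quotients `x_i / x_j`. -/
noncomputable def FunField {n : ℕ} (P : Ideal (MvPolynomial (Fin (n + 1)) ℂ)) [P.IsPrime] :
    Type :=
  ↥(IntermediateField.adjoin ℂ
    (Set.range fun ij : Fin (n + 1) × Fin (n + 1) => coord P ij.1 / coord P ij.2))

noncomputable instance FunField.instField {n : ℕ} (P : Ideal (MvPolynomial (Fin (n + 1)) ℂ))
    [P.IsPrime] : Field (FunField P) :=
  inferInstanceAs (Field ↥(IntermediateField.adjoin ℂ
    (Set.range fun ij : Fin (n + 1) × Fin (n + 1) => coord P ij.1 / coord P ij.2)))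

noncomputable instance FunField.instAlgebra {n : ℕ} (P : Ideal (MvPolynomial (Fin (n + 1)) ℂ))
    [P.IsPrime] : Algebra ℂ (FunField P) :=
  inferInstanceAs (Algebra ℂ ↥(IntermediateField.adjoin ℂ
    (Set.range fun ij : Fin (n + 1) × Fin (n + 1) => coord P ij.1 / coord P ij.2)))

/-- the inclusion of the function field in the fraction field of the coordinate ring -/
noncomputable def FunField.val {n : ℕ} (P : Ideal (MvPolynomial (Fin (n + 1)) ℂ))
    [P.IsPrime] : FunField P →ₐ[ℂ] FractionRing (MvPolynomial (Fin (n + 1)) ℂ ⧸ P) :=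
  (IntermediateField.adjoin ℂ
    (Set.range fun ij : Fin (n + 1) × Fin (n + 1) => coord P ij.1 / coord P ij.2)).val

lemma FunField.val_injective {n : ℕ} (P : Ideal (MvPolynomial (Fin (n + 1)) ℂ))
    [P.IsPrime] : Function.Injective (FunField.val P) := Subtype.val_injective

lemma FunField.mem_range_val {n : ℕ} (P : Ideal (MvPolynomial (Fin (n + 1)) ℂ))
    [P.IsPrime] (x : FractionRing (MvPolynomial (Fin (n + 1)) ℂ ⧸ P)) :
    x ∈ Set.range (FunField.val P) ↔ x ∈ IntermediateField.adjoin ℂ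
      (Set.range fun ij : Fin (n + 1) × Fin (n + 1) => coord P ij.1 / coord P ij.2) := by
  constructor
  · rintro ⟨y, rfl⟩
    exact Subtype.property y
  · intro h
    exact ⟨⟨x, h⟩, rfl⟩

/-- `P` is a homogeneous prime ideal defining a non-empty projective variety. -/
def IsVariety {n : ℕ} (P : Ideal (MvPolynomial (Fin (n + 1)) ℂ)) : Prop :=
  P.IsPrime ∧ (∀ q ∈ P, ∀ D, MvPolynomial.homogeneousComponent D q ∈ P) ∧
    ∃ i, MvPolynomial.X i ∉ P

/-- The projective variety with homogeneous prime ideal `P` has a Zariski dense entire curve. -/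
def BrodySpecial {n : ℕ} (P : Ideal (MvPolynomial (Fin (n + 1)) ℂ)) : Prop :=
  ∃ f : ℂ → (Fin (n + 1) → ℂ), Differentiable ℂ f ∧ (∀ z, f z ≠ 0) ∧
    (∀ q ∈ P, ∀ z, MvPolynomial.eval (f z) q = 0) ∧
    ∀ (q : MvPolynomial (Fin (n + 1)) ℂ) (D : ℕ), q.IsHomogeneous D →
      (∀ z, MvPolynomial.eval (f z) q = 0) → q ∈ P

/-- `P` is an irreducible component of the Fermat cover of degree `d` of the variety of `Q`: the image
of the variety of `P` under `[x_i] ↦ [x_i ^ d]` is the variety of `Q`. -/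
def FermatOver {n : ℕ} (d : ℕ) (Q P : Ideal (MvPolynomial (Fin (n + 1)) ℂ)) : Prop :=
  ∀ q, q ∈ Q ↔ MvPolynomial.expand d q ∈ P

/-- the quotient `x_i / x_j` in the function field -/
noncomputable def ratio {n : ℕ} (P : Ideal (MvPolynomial (Fin (n + 1)) ℂ)) [P.IsPrime]
    (i j : Fin (n + 1)) : FunField P :=
  ⟨coord P i / coord P j, IntermediateField.subset_adjoin _ _ ⟨(i, j), rfl⟩⟩

lemma val_ratio {n : ℕ} (P : Ideal (MvPolynomial (Fin (n + 1)) ℂ)) [P.IsPrime]
    (i j : Fin (n + 1)) : FunField.val P (ratio P i j) = coord P i / coord P j := rfl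

/-! ### Auxiliary notions -/

/-- `v` is the order function of the discrete valuation ring `O` -/
def IsOrd {K : Type} [Field K] (O : ValuationSubring K) (v : K → ℤ) : Prop :=
  (∀ x y, x ≠ 0 → y ≠ 0 → v (x * y) = v x + v y) ∧ (∀ x, x ≠ 0 → (x ∈ O ↔ 0 ≤ v x)) ∧
    ∃ t, t ≠ 0 ∧ v t = 1

/-- multiplicative independence modulo constants -/
def MultIndep {K : Type} [Field K] [Algebra ℂ K] {r : ℕ} (a : Fin r → K) : Prop :=
  (∀ j, a j ≠ 0) ∧
    ∀ v : Fin r → ℤ, (∃ c : ℂ, ∏ j, a j ^ v j = algebraMap ℂ K c) → v = 0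

/-- the monomial `η ^ w` -/
noncomputable def mono {K ι : Type} [Field K] [Fintype ι] (η : ι → K) (w : ι → ℤ) : K :=
  ∏ i, η i ^ w i

/-- every multiplicatively independent family of monomials in `η` is algebraically independent -/
def ToricGen {K ι : Type} [Field K] [Algebra ℂ K] [Fintype ι] (η : ι → K) : Prop :=
  ∀ (r : ℕ) (w : Fin r → ι → ℤ), MultIndep (fun j => mono η (w j)) →
    AlgebraicIndependent ℂ (fun j => mono η (w j))

/-- an exponential curve is dense in the variety -/
def ExpDense {n : ℕ} (P : Ideal (MvPolynomial (Fin (n + 1)) ℂ)) : Prop :=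
  ∃ c α : Fin (n + 1) → ℂ, (∃ i, c i ≠ 0) ∧
    ∀ (q : MvPolynomial (Fin (n + 1)) ℂ) (D : ℕ), q.IsHomogeneous D →
      (q ∈ P ↔ ∀ z : ℂ, MvPolynomial.eval (fun i => c i * Complex.exp (α i * z)) q = 0)

/-- the dlog map of a family -/
noncomputable def dlogMap {K : Type} [Field K] [Algebra ℂ K] {p : ℕ} (a : Fin p → K) :
    Derivation ℂ K K →ₗ[K] (Fin p → K) where
  toFun D := fun j => D (a j) / a j
  map_add' D₁ D₂ := by ext j; simp [add_div]
  map_smul' c D := by ext j; simp [mul_div_assoc]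

/-- the form `dlog a_1 ∧ … ∧ dlog a_p` -/
noncomputable def dlogForm {K : Type} [Field K] [Algebra ℂ K] {p : ℕ} (a : Fin p → K) :
    Form K p :=
  (Matrix.detRowAlternating (n := Fin p) (R := K)).compLinearMap (dlogMap a)

lemma dlogForm_apply {K : Type} [Field K] [Algebra ℂ K] {p : ℕ} (a : Fin p → K)
    (D : Fin p → Derivation ℂ K K) :
    dlogForm a D = (Matrix.of fun i j => D i (a j) / a j).det := rfl

end Pool.Agent.Campana
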