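import Mathlib
import Pool.Agent.Lib_MP_1209e6_ag.Defs

/-! Piece E: function fields of projective varieties, embedding given by a Fermat cover. -/

set_option autoImplicit false

namespace Pool.Agent.Campana

open MvPolynomial

lemma coord_eq_zero_iff {n : ℕ} (P : Ideal (MvPolynomial (Fin (n + 1)) ℂ)) [P.IsPrime]
    (i : Fin (n + 1)) : coord P i = 0 ↔ MvPolynomial.X i ∈ P := by
  unfold coord
  rw [← Ideal.Quotient.eq_zero_iff_mem]
  exact (FaithfulSMul.algebraMap_eq_zero_iff (MvPolynomial (Fin (n + 1)) ℂ ⧸ P)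
    (FractionRing (MvPolynomial (Fin (n + 1)) ℂ ⧸ P)))

lemma aeval_coord {n : ℕ} (P : Ideal (MvPolynomial (Fin (n + 1)) ℂ)) [P.IsPrime]
    (q : MvPolynomial (Fin (n + 1)) ℂ) :
    MvPolynomial.aeval (coord P) q =
      algebraMap (MvPolynomial (Fin (n + 1)) ℂ ⧸ P) _ (Ideal.Quotient.mk P q) := by
  have h : (MvPolynomial.aeval (coord P) : MvPolynomial (Fin (n + 1)) ℂ →ₐ[ℂ] _) =
      (IsScalarTower.toAlgHom ℂ (MvPolynomial (Fin (n + 1)) ℂ ⧸ P)
        (FractionRing (MvPolynomial (Fin (n + 1)) ℂ ⧸ P))).comp (Ideal.Quotient.mkₐ ℂ P) := by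
    apply MvPolynomial.algHom_ext
    intro i
    rw [MvPolynomial.aeval_X]
    rfl
  exact congrArg (fun f => f q) h

lemma aeval_mul_hom {n : ℕ} {L : Type} [Field L] [Algebra ℂ L] (c : L) (f : Fin (n + 1) → L)
    (q : MvPolynomial (Fin (n + 1)) ℂ) (D : ℕ) (hq : q.IsHomogeneous D) :
    MvPolynomial.aeval (fun i => c * f i) q = c ^ D * MvPolynomial.aeval f q := by
  rw [MvPolynomial.aeval_def, MvPolynomial.aeval_def, MvPolynomial.eval₂_eq,
    MvPolynomial.eval₂_eq, Finset.mul_sum]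
  apply Finset.sum_congr rfl
  intro d hd
  have h1 : ∑ i ∈ d.support, d i = D := by
    have := hq (MvPolynomial.mem_support_iff.1 hd)
    rw [Finsupp.weight_apply, Finsupp.sum] at this
    simpa using this
  have h2 : ∏ i ∈ d.support, (c * f i) ^ d i = c ^ D * ∏ i ∈ d.support, f i ^ d i := by
    simp_rw [mul_pow]
    rw [Finset.prod_mul_distrib, Finset.prod_pow_eq_pow_sum, h1]
  rw [h2]
  ring

theorem eval_ratio {n : ℕ} (P : Ideal (MvPolynomial (Fin (n + 1)) ℂ)) [P.IsPrime]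
    (j₀ : Fin (n + 1)) (hj₀ : MvPolynomial.X j₀ ∉ P) (q : MvPolynomial (Fin (n + 1)) ℂ) (D : ℕ)
    (hq : q.IsHomogeneous D) :
    q ∈ P ↔ MvPolynomial.aeval (fun i => ratio P i j₀) q = 0 := by
  have hc : coord P j₀ ≠ 0 := fun h => hj₀ ((coord_eq_zero_iff P j₀).1 h)
  have h1 : FunField.val P (MvPolynomial.aeval (fun i => ratio P i j₀) q) =
      (coord P j₀)⁻¹ ^ D * MvPolynomial.aeval (coord P) q := by
    rw [← aeval_mul_hom _ _ _ _ hq]
    have h2 := MvPolynomial.comp_aeval_apply (R := ℂ) (f := fun i => ratio P i j₀)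
      (FunField.val P) q
    rw [h2]
    congr 1
    congr 1
    funext i
    rw [val_ratio]
    rw [div_eq_mul_inv, mul_comm]
  rw [← map_eq_zero_iff (FunField.val P) (FunField.val_injective P), h1, aeval_coord,
    mul_eq_zero, or_iff_right (pow_ne_zero _ (inv_ne_zero hc))]
  rw [← Ideal.Quotient.eq_zero_iff_mem]
  exact (FaithfulSMul.algebraMap_eq_zero_iff (MvPolynomial (Fin (n + 1)) ℂ ⧸ P)
    (FractionRing (MvPolynomial (Fin (n + 1)) ℂ ⧸ P))).symm

theorem adjoin_ratio {n : ℕ} (P : Ideal (MvPolynomial (Fin (n + 1)) ℂ)) [P.IsPrime]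
    (j₀ : Fin (n + 1)) (hj₀ : MvPolynomial.X j₀ ∉ P) :
    IntermediateField.adjoin ℂ (Set.range fun i : {i // MvPolynomial.X (R := ℂ) i ∉ P} =>
      ratio P i.1 j₀) = ⊤ := by
  have hc : coord P j₀ ≠ 0 := fun h => hj₀ ((coord_eq_zero_iff P j₀).1 h)
  set S := IntermediateField.adjoin ℂ (Set.range fun i : {i // MvPolynomial.X (R := ℂ) i ∉ P} =>
      ratio P i.1 j₀) with hS
  rw [eq_top_iff]
  intro x _
  have hx : FunField.val P x ∈ IntermediateField.adjoin ℂ
      (Set.range fun ij : Fin (n + 1) × Fin (n + 1) => coord P ij.1 / coord P ij.2) :=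
    (FunField.mem_range_val P _).1 ⟨x, rfl⟩
  have hle : IntermediateField.adjoin ℂ
      (Set.range fun ij : Fin (n + 1) × Fin (n + 1) => coord P ij.1 / coord P ij.2) ≤
      S.map (FunField.val P) := by
    rw [IntermediateField.adjoin_le_iff]
    rintro _ ⟨⟨i, j⟩, rfl⟩
    simp only
    by_cases hi : MvPolynomial.X i ∈ P
    · rw [(coord_eq_zero_iff P i).2 hi, zero_div]
      exact (S.map (FunField.val P)).zero_mem
    by_cases hj : MvPolynomial.X j ∈ P
    · rw [(coord_eq_zero_iff P j).2 hj, div_zero]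
      exact (S.map (FunField.val P)).zero_mem
    have h1 : ∀ i, MvPolynomial.X i ∉ P → coord P i / coord P j₀ ∈ S.map (FunField.val P) := by
      intro i hi
      refine ⟨ratio P i j₀, ?_, val_ratio P i j₀⟩
      exact IntermediateField.subset_adjoin _ _ ⟨⟨i, hi⟩, rfl⟩
    have hcj : coord P j ≠ 0 := fun h => hj ((coord_eq_zero_iff P j).1 h)
    have h2 : coord P i / coord P j = (coord P i / coord P j₀) / (coord P j / coord P j₀) := by
      field_simp
    rw [h2]
    exact (S.map (FunField.val P)).div_mem (h1 i hi) (h1 j hj)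
  obtain ⟨y, hy, hyx⟩ := hle hx
  have : y = x := FunField.val_injective P hyx
  rw [← this]
  exact hy

theorem exists_embedding {n : ℕ} {d : ℕ} (hd : 1 ≤ d)
    (Q P : Ideal (MvPolynomial (Fin (n + 1)) ℂ)) [Q.IsPrime] [P.IsPrime] (h : FermatOver d Q P) :
    ∃ ψ : FunField Q →ₐ[ℂ] FunField P, ∀ i j, ψ (ratio Q i j) = ratio P i j ^ d := by
  have hle : Q ≤ P.comap (MvPolynomial.expand d : MvPolynomial (Fin (n + 1)) ℂ →ₐ[ℂ] _) :=
    fun q hq => (h q).1 hq
  let φ : (MvPolynomial (Fin (n + 1)) ℂ ⧸ Q) →ₐ[ℂ] (MvPolynomial (Fin (n + 1)) ℂ ⧸ P) :=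
    Ideal.quotientMapₐ P (MvPolynomial.expand d) hle
  have hφ : Function.Injective φ :=
    Ideal.quotientMap_injective' (H := hle) (fun q hq => (h q).2 hq)
  let g : (MvPolynomial (Fin (n + 1)) ℂ ⧸ Q) →ₐ[ℂ]
      FractionRing (MvPolynomial (Fin (n + 1)) ℂ ⧸ P) :=
    (IsScalarTower.toAlgHom ℂ (MvPolynomial (Fin (n + 1)) ℂ ⧸ P)
        (FractionRing (MvPolynomial (Fin (n + 1)) ℂ ⧸ P))).comp φ
  have hg : Function.Injective g :=
    (IsFractionRing.injective (MvPolynomial (Fin (n + 1)) ℂ ⧸ P)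
      (FractionRing (MvPolynomial (Fin (n + 1)) ℂ ⧸ P))).comp hφ
  let Ψ : FractionRing (MvPolynomial (Fin (n + 1)) ℂ ⧸ Q) →ₐ[ℂ]
      FractionRing (MvPolynomial (Fin (n + 1)) ℂ ⧸ P) := IsFractionRing.liftAlgHom hg
  have hΨ : ∀ i, Ψ (coord Q i) = coord P i ^ d := by
    intro i
    have h1 : Ψ (coord Q i) = g (Ideal.Quotient.mk Q (MvPolynomial.X i)) :=
      IsFractionRing.lift_algebraMap hg _
    rw [h1]
    show algebraMap (MvPolynomial (Fin (n + 1)) ℂ ⧸ P) _
      (φ (Ideal.Quotient.mk Q (MvPolynomial.X i))) = _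
    have h2 : φ (Ideal.Quotient.mk Q (MvPolynomial.X i)) =
        Ideal.Quotient.mk P (MvPolynomial.X i) ^ d := by
      have h3 : φ (Ideal.Quotient.mk Q (MvPolynomial.X i)) =
        Ideal.Quotient.mk P (MvPolynomial.expand d (MvPolynomial.X i)) := rfl
      rw [h3, MvPolynomial.expand_X, map_pow]
    rw [h2, map_pow]
    rfl
  have hmem : ∀ x : FunField Q, (Ψ.comp (FunField.val Q)) x ∈ (FunField.val P).range := by
    intro x
    have hx : FunField.val Q x ∈ IntermediateField.adjoin ℂ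
      (Set.range fun ij : Fin (n + 1) × Fin (n + 1) => coord Q ij.1 / coord Q ij.2) :=
      (FunField.mem_range_val Q _).1 ⟨x, rfl⟩
    have hle' : IntermediateField.adjoin ℂ
      (Set.range fun ij : Fin (n + 1) × Fin (n + 1) => coord Q ij.1 / coord Q ij.2) ≤
      (IntermediateField.adjoin ℂ
      (Set.range fun ij : Fin (n + 1) × Fin (n + 1) => coord P ij.1 / coord P ij.2)).comap Ψ := by
      rw [IntermediateField.adjoin_le_iff]
      rintro _ ⟨⟨i, j⟩, rfl⟩
      show Ψ (coord Q i / coord Q j) ∈ IntermediateField.adjoin ℂ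
        (Set.range fun ij : Fin (n + 1) × Fin (n + 1) => coord P ij.1 / coord P ij.2)
      rw [map_div₀, hΨ, hΨ, ← div_pow]
      have hm : coord P i / coord P j ∈ IntermediateField.adjoin ℂ
        (Set.range fun ij : Fin (n + 1) × Fin (n + 1) => coord P ij.1 / coord P ij.2) :=
        IntermediateField.subset_adjoin _ _ ⟨(i, j), rfl⟩
      exact pow_mem hm d
    exact (FunField.mem_range_val P _).2 (hle' hx)
  let ψ : FunField Q →ₐ[ℂ] FunField P :=
    ((AlgEquiv.ofInjective (FunField.val P) (FunField.val_injective P)).symm :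
      (FunField.val P).range →ₐ[ℂ] FunField P).comp
      ((Ψ.comp (FunField.val Q)).codRestrict (FunField.val P).range hmem)
  have hψ : ∀ x, FunField.val P (ψ x) = Ψ (FunField.val Q x) := by
    intro x
    have h1 := (AlgEquiv.ofInjective (FunField.val P) (FunField.val_injective P)).apply_symm_apply
      ((Ψ.comp (FunField.val Q)).codRestrict (FunField.val P).range hmem x)
    exact congrArg Subtype.val h1
  refine ⟨ψ, fun i j => ?_⟩
  apply FunField.val_injective P
  rw [hψ, val_ratio, map_div₀, hΨ, hΨ, map_pow, val_ratio, div_pow]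

end Pool.Agent.Campana
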