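import Pool.Agent.Lib_MP_1209e6_ag.Defs
import Pool.Agent.Lib_MP_b9fedf_ag.Toric

/-! Brody-special Fermat covers are closures of exponential curves. -/

set_option autoImplicit false

namespace Pool.Agent.Campana

open MvPolynomial Pool.Agent.GGL

/-- entire functions have no zero divisors -/
lemma entire_eq_zero {a b : ℂ → ℂ} (ha : Differentiable ℂ a) (hb : Differentiable ℂ b)
    (hab : ∀ z, a z * b z = 0) (h0 : ∃ z, a z ≠ 0) (z : ℂ) : b z = 0 := by
  have h1 := (countable_zeros ha h0).dense_compl ℝ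
  have h2 : Set.EqOn b (fun _ => 0) (a ⁻¹' {0})ᶜ := by
    intro w hw
    have hw' : a w ≠ 0 := hw
    exact (mul_eq_zero.mp (hab w)).resolve_left hw'
  exact congrFun (Continuous.ext_on h1 hb.continuous continuous_const h2) z

/-- the exponential curve -/
noncomputable def ecurve {n : ℕ} (c α : Fin (n + 1) → ℂ) (z : ℂ) : Fin (n + 1) → ℂ :=
  fun i => c i * Complex.exp (α i * z)

lemma ecurve_diff {n : ℕ} (c α : Fin (n + 1) → ℂ) : Differentiable ℂ (ecurve c α) := by
  rw [differentiable_pi]
  intro i
  unfold ecurve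
  fun_prop

lemma ecurve_ne {n : ℕ} (c α : Fin (n + 1) → ℂ) (hc : ∃ i, c i ≠ 0) (z : ℂ) :
    ecurve c α z ≠ 0 := by
  obtain ⟨i, hi⟩ := hc
  intro h
  have := congrFun h i
  simp only [ecurve, Pi.zero_apply, mul_eq_zero] at this
  exact this.elim hi (Complex.exp_ne_zero _)

lemma eval_diff {n : ℕ} {g : ℂ → Fin (n + 1) → ℂ} (hg : Differentiable ℂ g)
    (q : MvPolynomial (Fin (n + 1)) ℂ) : Differentiable ℂ (fun z => eval (g z) q) := by
  simp_rw [MvPolynomial.eval_eq']
  exact Differentiable.fun_sum fun a _ => (mono_diff hg a).const_mul _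

/-- the homogeneous ideal of an exponential curve -/
noncomputable def curveIdeal {n : ℕ} (c α : Fin (n + 1) → ℂ) :
    Ideal (MvPolynomial (Fin (n + 1)) ℂ) where
  carrier := {q | ∀ l z : ℂ, eval (l • ecurve c α z) q = 0}
  zero_mem' := by intro l z; simp
  add_mem' := by
    intro a b ha hb l z
    rw [map_add, ha, hb, add_zero]
  smul_mem' := by
    intro a b hb l z
    rw [smul_eq_mul, map_mul, hb, mul_zero]

lemma mem_curveIdeal {n : ℕ} (c α : Fin (n + 1) → ℂ) (q : MvPolynomial (Fin (n + 1)) ℂ) :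
    q ∈ curveIdeal c α ↔ ∀ l z : ℂ, eval (l • ecurve c α z) q = 0 := Iff.rfl

lemma curveIdeal_prime {n : ℕ} (c α : Fin (n + 1) → ℂ) : (curveIdeal c α).IsPrime := by
  refine ⟨?_, ?_⟩
  · intro h
    have h1 : (1 : MvPolynomial (Fin (n + 1)) ℂ) ∈ curveIdeal c α := by
      rw [h]; trivial
    have := h1 0 0
    simp at this
  · intro a b hab
    by_contra hne
    push Not at hne
    obtain ⟨ha, hb⟩ := hne
    apply hb
    rw [mem_curveIdeal] at ha hab
    push Not at ha
    obtain ⟨l0, z0, h0⟩ := ha
    intro l z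
    -- differentiability in both variables
    have hz : ∀ (l : ℂ) (q : MvPolynomial (Fin (n + 1)) ℂ),
        Differentiable ℂ (fun z => eval (l • ecurve c α z) q) := fun l q =>
      eval_diff ((ecurve_diff c α).const_smul l) q
    have hl : ∀ (z : ℂ) (q : MvPolynomial (Fin (n + 1)) ℂ),
        Differentiable ℂ (fun l : ℂ => eval (l • ecurve c α z) q) := fun z q =>
      eval_diff (differentiable_id.smul_const _) q
    refine entire_eq_zero (hl z0 a) (hl z b) (fun l => ?_) ⟨l0, h0⟩ l
    by_cases h : eval (l • ecurve c α z0) a = 0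
    · rw [h, zero_mul]
    · rw [entire_eq_zero (hz l a) (hz l b) (fun w => by rw [← map_mul]; exact hab l w)
        ⟨z0, h⟩ z, mul_zero]

lemma eval_smul_homog {n : ℕ} {q : MvPolynomial (Fin (n + 1)) ℂ} {D : ℕ}
    (hq : q.IsHomogeneous D) (l : ℂ) (x : Fin (n + 1) → ℂ) :
    eval (l • x) q = l ^ D * eval x q := by
  rw [MvPolynomial.eval_eq', MvPolynomial.eval_eq', Finset.mul_sum]
  apply Finset.sum_congr rfl
  intro a ha
  have h1 : ∑ i, a i = D := by
    have := hq (MvPolynomial.mem_support_iff.mp ha)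
    rw [← this, Finsupp.weight_apply, Finsupp.sum_fintype]
    · simp
    · intro i; simp
  simp only [Pi.smul_apply, smul_eq_mul, mul_pow, Finset.prod_mul_distrib]
  rw [Finset.prod_pow_eq_pow_sum, h1]
  ring

lemma homog_mem_curveIdeal {n : ℕ} (c α : Fin (n + 1) → ℂ)
    {q : MvPolynomial (Fin (n + 1)) ℂ} {D : ℕ} (hq : q.IsHomogeneous D)
    (h : ∀ z, eval (ecurve c α z) q = 0) : q ∈ curveIdeal c α := by
  intro l z
  rw [eval_smul_homog hq, h, mul_zero]

lemma component_vanish {n : ℕ} (c α : Fin (n + 1) → ℂ)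
    {q : MvPolynomial (Fin (n + 1)) ℂ} (hq : q ∈ curveIdeal c α) (D : ℕ) (z : ℂ) :
    eval (ecurve c α z) (homogeneousComponent D q) = 0 := by
  set x := ecurve c α z with hx
  set p : Polynomial ℂ := ∑ i ∈ Finset.range (q.totalDegree + 1),
    Polynomial.C (eval x (homogeneousComponent i q)) * Polynomial.X ^ i with hp
  have h1 : p = 0 := by
    apply Polynomial.funext
    intro l
    have h2 : eval (l • x) q = 0 := hq l z
    rw [Polynomial.eval_zero, ← h2]
    conv_rhs => rw [← sum_homogeneousComponent q]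
    rw [hp, Polynomial.eval_finsetSum, map_sum]
    apply Finset.sum_congr rfl
    intro i _
    rw [eval_smul_homog (homogeneousComponent_isHomogeneous i q), Polynomial.eval_mul,
      Polynomial.eval_C, Polynomial.eval_pow, Polynomial.eval_X]
    ring
  by_cases hD : D ∈ Finset.range (q.totalDegree + 1)
  · have h3 : p.coeff D = eval x (homogeneousComponent D q) := by
      rw [hp, Polynomial.finsetSum_coeff]
      simp only [Polynomial.coeff_C_mul_X_pow]
      rw [Finset.sum_eq_single D]
      · simp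
      · intro b _ hb
        rw [if_neg (Ne.symm hb)]
      · intro h; exact absurd hD h
    rw [← h3, h1, Polynomial.coeff_zero]
  · rw [Finset.mem_range, not_lt] at hD
    rw [homogeneousComponent_eq_zero _ _ (by omega), map_zero]

theorem brody_of_expDense {n : ℕ} (P : Ideal (MvPolynomial (Fin (n + 1)) ℂ))
    (hP : IsVariety P) (h : ExpDense P) : BrodySpecial P := by
  obtain ⟨c, α, hc, h⟩ := h
  refine ⟨ecurve c α, ecurve_diff c α, ecurve_ne c α hc, ?_, ?_⟩
  · intro q hq z
    rw [← sum_homogeneousComponent q, map_sum]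
    apply Finset.sum_eq_zero
    intro i _
    exact (h _ i (homogeneousComponent_isHomogeneous i q)).mp (hP.2.1 q hq i) z
  · intro q D hq hz
    exact (h q D hq).mpr hz

/-- a homogeneous ideal is generated by finitely many homogeneous elements -/
lemma exists_homog_gens {n : ℕ} (Q : Ideal (MvPolynomial (Fin (n + 1)) ℂ))
    (hQ : ∀ q ∈ Q, ∀ D, homogeneousComponent D q ∈ Q) :
    ∃ T : Finset (MvPolynomial (Fin (n + 1)) ℂ), (∀ q ∈ T, q ∈ Q ∧ ∃ D, q.IsHomogeneous D) ∧
      Ideal.span (T : Set (MvPolynomial (Fin (n + 1)) ℂ)) = Q := by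
  classical
  obtain ⟨S, hS⟩ := (isNoetherianRing_iff_ideal_fg _).mp inferInstance Q
  refine ⟨S.biUnion fun q => (Finset.range (q.totalDegree + 1)).image
    fun D => homogeneousComponent D q, ?_, ?_⟩
  · intro q hq
    simp only [Finset.mem_biUnion, Finset.mem_image] at hq
    obtain ⟨p, hp, D, _, rfl⟩ := hq
    have hpQ : p ∈ Q := by rw [← hS]; exact Ideal.subset_span hp
    exact ⟨hQ p hpQ D, D, homogeneousComponent_isHomogeneous D p⟩
  · apply le_antisymm
    · rw [Ideal.span_le]
      intro q hq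
      simp only [Finset.coe_biUnion, Set.mem_iUnion, Finset.coe_image] at hq
      obtain ⟨p, hp, D, _, rfl⟩ := hq
      have hpQ : p ∈ Q := by rw [← hS]; exact Ideal.subset_span hp
      exact hQ p hpQ D
    · rw [← hS]
      rw [Ideal.span_le]
      intro q hq
      rw [SetLike.mem_coe, ← sum_homogeneousComponent q]
      apply Ideal.sum_mem
      intro i hi
      apply Ideal.subset_span
      simp only [Finset.coe_biUnion, Set.mem_iUnion, Finset.coe_image]
      exact ⟨q, hq, i, hi, rfl⟩

lemma expand_integral {n d : ℕ} (hd : 1 ≤ d) (x : MvPolynomial (Fin (n + 1)) ℂ) :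
    ((expand d : MvPolynomial (Fin (n + 1)) ℂ →ₐ[ℂ] _) : MvPolynomial (Fin (n + 1)) ℂ →+*
      MvPolynomial (Fin (n + 1)) ℂ).IsIntegralElem x := by
  induction x using MvPolynomial.induction_on with
  | C a =>
    have : (C a : MvPolynomial (Fin (n + 1)) ℂ) =
        ((expand d : MvPolynomial (Fin (n + 1)) ℂ →ₐ[ℂ] _) : MvPolynomial (Fin (n + 1)) ℂ →+*
      MvPolynomial (Fin (n + 1)) ℂ) (C a) := by simp
    rw [this]
    exact RingHom.isIntegralElem_map _
  | add p q hp hq => exact hp.add _ hq
  | mul_X p i hp =>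
    refine hp.mul _ ?_
    refine ⟨Polynomial.X ^ d - Polynomial.C (X i), Polynomial.monic_X_pow_sub_C _ (by omega), ?_⟩
    simp

theorem expDense_of_brody {n : ℕ} (Q : Ideal (MvPolynomial (Fin (n + 1)) ℂ))
    (hQ : IsVariety Q) : ∃ d₀ : ℕ, 1 ≤ d₀ ∧ ∀ d, d₀ ≤ d →
      ∀ P : Ideal (MvPolynomial (Fin (n + 1)) ℂ), IsVariety P → FermatOver d Q P →
        BrodySpecial P → ExpDense P := by
  classical
  obtain ⟨T, hT, hTQ⟩ := exists_homog_gens Q hQ.2.1
  set N := T.sup fun q => q.support.card with hN
  refine ⟨N * N + 1, by omega, fun d hd P hP hPQ hB => ?_⟩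
  have hd1 : 1 ≤ d := by omega
  obtain ⟨f, hf, hf0, hfP, hdense⟩ := hB
  set I : Finset (Fin (n + 1)) := Finset.univ.filter (fun i => ∃ z, f z i ≠ 0) with hIdef
  have hI : ∀ i, i ∈ I ↔ ∃ z, f z i ≠ 0 := by
    intro i; rw [hIdef, Finset.mem_filter]; simp
  have hI' : ∀ i ∈ I, ∃ z, f z i ≠ 0 := fun i hi => (hI i).mp hi
  obtain ⟨z0, hz0⟩ := (good_isConnected hf I hI').nonempty
  obtain ⟨α, hα⟩ := exists_functional (relLat f I) (relLat_saturated hf I hI')
  have htor : ∀ z : ℂ, (fun i => Complex.exp (α i * z)) ∈ torus (relLat f I) := by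
    intro z
    refine ⟨fun i => Complex.exp_ne_zero _, fun v hv => ?_⟩
    have h1 : ∏ i, Complex.exp (α i * z) ^ v i = Complex.exp ((∑ i, (v i : ℂ) * α i) * z) := by
      rw [Finset.sum_mul, Complex.exp_sum]
      apply Finset.prod_congr rfl
      intro i _
      rw [← Complex.exp_int_mul]
      congr 1
      ring
    rw [h1, (hα v).mpr hv, zero_mul, Complex.exp_zero]
  have hc : ∃ i, f z0 i ≠ 0 := by
    by_contra h
    push Not at h
    exact hf0 z0 (funext h)
  -- homogeneous polynomials vanishing on the exponential curve are in `P`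
  have key : ∀ (q : MvPolynomial (Fin (n + 1)) ℂ) (D : ℕ), q.IsHomogeneous D →
      (∀ z, eval (ecurve (f z0) α z) q = 0) → q ∈ P := by
    intro q D hq hz
    apply hdense q D hq
    have h1 : ∀ t ∈ torus (relLat f I), eval (fun i => t i * f z0 i) q = 0 := by
      intro t ht
      refine orbit_dense (relLat f I) α hα (f z0) q (fun z => ?_) t ht
      have : (fun i => Complex.exp (α i * z) * f z0 i) = ecurve (f z0) α z := by
        ext i; simp only [ecurve]; ring
      rw [this]
      exact hz z
    intro z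
    have h2 : Set.EqOn (fun z => eval (f z) q) (fun _ => 0) (good f I) := by
      intro w hw
      obtain ⟨t, ht, hft⟩ := exists_torus I hI hz0 hw
      change eval (f w) q = 0
      rw [hft]
      exact h1 t ht
    exact congrFun (Continuous.ext_on (good_dense hf I hI') (eval_diff hf q).continuous
      continuous_const h2) z
  have hle : curveIdeal (f z0) α ≤ P := by
    intro q hq
    rw [← sum_homogeneousComponent q]
    apply Ideal.sum_mem
    intro i _
    exact key _ i (homogeneousComponent_isHomogeneous i q) (component_vanish _ _ hq i)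
  set φ : MvPolynomial (Fin (n + 1)) ℂ →+* MvPolynomial (Fin (n + 1)) ℂ :=
    ((expand d : MvPolynomial (Fin (n + 1)) ℂ →ₐ[ℂ] _) : MvPolynomial (Fin (n + 1)) ℂ →+*
      MvPolynomial (Fin (n + 1)) ℂ) with hφ
  have hsupp : ∀ q : MvPolynomial (Fin (n + 1)) ℂ, ∀ a ∈ (expand d q).support, ∀ i, d ∣ a i := by
    intro q a ha i
    by_contra hdiv
    rw [MvPolynomial.mem_support_iff] at ha
    exact ha (MvPolynomial.coeff_expand_of_not_dvd q hdiv)
  have hQle : Q ≤ (curveIdeal (f z0) α).comap φ := by
    rw [← hTQ, Ideal.span_le]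
    intro q hq
    obtain ⟨hqQ, D, hqD⟩ := hT q hq
    rw [SetLike.mem_coe, Ideal.mem_comap]
    change expand d q ∈ curveIdeal (f z0) α
    have hcard : (expand d q).support.card ≤ N := by
      refine le_trans ?_ (Finset.le_sup (f := fun q => q.support.card) hq)
      exact (Finset.card_le_card (MvPolynomial.support_expand_subset q)).trans
        Finset.card_image_le
    have hvan : ∀ z, eval (ecurve (f z0) α z) (expand d q) = 0 := by
      intro z
      have h1 := torus_orbit hf I hI (expand d q) d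
        (lt_of_le_of_lt (Nat.mul_le_mul hcard ((Nat.sub_le _ _).trans hcard)) (by omega))
        (fun a ha b hb i => dvd_sub (by exact_mod_cast hsupp q a ha i)
          (by exact_mod_cast hsupp q b hb i))
        (fun z => hfP _ ((hPQ q).mp hqQ) z) _ (htor z) z0
      rw [← h1]
      congr 2
      ext i
      simp only [ecurve]
      ring
    intro l z
    rw [MvPolynomial.eval_expand]
    have h2 := hvan z
    rw [MvPolynomial.eval_expand] at h2
    have h3 : (l • ecurve (f z0) α z) ^ d = l ^ d • (ecurve (f z0) α z) ^ d := by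
      ext i
      simp [mul_pow]
    rw [h3, eval_smul_homog hqD, h2, mul_zero]
  have hcomapP : P.comap φ = Q := by
    ext q
    rw [Ideal.mem_comap]
    exact (hPQ q).symm
  have heq : curveIdeal (f z0) α = P := by
    by_contra hne
    obtain ⟨x, hxP, hx⟩ := SetLike.exists_of_lt (lt_of_le_of_ne hle hne)
    have hpr := curveIdeal_prime (f z0) α
    obtain ⟨p, hp, hpx⟩ := expand_integral hd1 x
    have hpr' : ((curveIdeal (f z0) α).comap φ).IsPrime := Ideal.IsPrime.comap φ
    have hlt := Ideal.comap_lt_comap_of_root_mem_sdiff (f := φ) hle (r := x) ⟨hxP, hx⟩ (p := p)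
      (Polynomial.map_monic_ne_zero hp) (by
        rw [hpx]; exact Ideal.zero_mem _)
    rw [hcomapP] at hlt
    exact absurd hQle (not_le_of_gt hlt)
  refine ⟨f z0, α, hc, fun q D hq => ?_⟩
  constructor
  · intro hqP z
    rw [← heq] at hqP
    have := hqP 1 z
    rwa [one_smul] at this
  · intro hz
    exact key q D hq hz

end Pool.Agent.Campana
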