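import Pool.Agent.Lib_MP_1209e6_ag.Defs

/-! Piece R1: an element algebraic over `ℂ(c)` is controlled by a polynomial in `c` at every
discrete valuation. -/

set_option autoImplicit false

namespace Pool.Agent.Campana

section Ord

variable {K : Type} [Field K] {O : ValuationSubring K} {v : K → ℤ}

theorem IsOrd.map_mul (h : IsOrd O v) {x y : K} (hx : x ≠ 0) (hy : y ≠ 0) :
    v (x * y) = v x + v y := h.1 x y hx hy

theorem IsOrd.mem_iff (h : IsOrd O v) {x : K} (hx : x ≠ 0) : x ∈ O ↔ 0 ≤ v x := h.2.1 x hx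

theorem IsOrd.map_one (h : IsOrd O v) : v 1 = 0 := by
  have h1 := h.map_mul (one_ne_zero (α := K)) (one_ne_zero (α := K))
  rw [mul_one] at h1
  linarith

theorem IsOrd.map_inv (h : IsOrd O v) {x : K} (hx : x ≠ 0) : v x⁻¹ = - v x := by
  have h1 := h.map_mul hx (inv_ne_zero hx)
  rw [mul_inv_cancel₀ hx, h.map_one] at h1
  linarith

theorem IsOrd.map_div (h : IsOrd O v) {x y : K} (hx : x ≠ 0) (hy : y ≠ 0) :
    v (x / y) = v x - v y := by
  rw [div_eq_mul_inv, h.map_mul hx (inv_ne_zero hy), h.map_inv hy, sub_eq_add_neg]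

theorem IsOrd.map_neg_one (h : IsOrd O v) : v (-1) = 0 := by
  have h1 := h.map_mul (neg_ne_zero.mpr (one_ne_zero (α := K)))
    (neg_ne_zero.mpr (one_ne_zero (α := K)))
  rw [neg_mul_neg, mul_one, h.map_one] at h1
  linarith

theorem IsOrd.map_neg (h : IsOrd O v) {x : K} (hx : x ≠ 0) : v (-x) = v x := by
  have h1 := h.map_mul (neg_ne_zero.mpr (one_ne_zero (α := K))) hx
  rw [neg_one_mul, h.map_neg_one] at h1
  linarith

theorem IsOrd.map_pow (h : IsOrd O v) {x : K} (hx : x ≠ 0) (n : ℕ) : v (x ^ n) = n * v x := by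
  induction n with
  | zero => simp [h.map_one]
  | succ n ih =>
    rw [pow_succ, h.map_mul (pow_ne_zero n hx) hx, ih]
    push_cast
    ring

theorem IsOrd.map_zpow (h : IsOrd O v) {x : K} (hx : x ≠ 0) (n : ℤ) :
    v (x ^ n) = n * v x := by
  cases n with
  | ofNat n => simpa using h.map_pow hx n
  | negSucc n =>
    rw [zpow_negSucc, h.map_inv (pow_ne_zero _ hx), h.map_pow hx, Int.negSucc_eq]
    push_cast
    ring

theorem IsOrd.map_prod (h : IsOrd O v) {ι : Type*} (s : Finset ι) (f : ι → K)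
    (hf : ∀ i ∈ s, f i ≠ 0) : v (∏ i ∈ s, f i) = ∑ i ∈ s, v (f i) := by
  classical
  induction s using Finset.induction_on with
  | empty => simp [h.map_one]
  | insert i s hi ih =>
    rw [Finset.prod_insert hi, Finset.sum_insert hi, h.map_mul (hf i (Finset.mem_insert_self _ _)),
      ih fun j hj => hf j (Finset.mem_insert_of_mem hj)]
    exact Finset.prod_ne_zero_iff.mpr fun j hj => hf j (Finset.mem_insert_of_mem hj)

/-- the ultrametric inequality -/
theorem IsOrd.le_add (h : IsOrd O v) {x y : K} {B : ℤ} (hx : x = 0 ∨ B ≤ v x)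
    (hy : y = 0 ∨ B ≤ v y) : x + y = 0 ∨ B ≤ v (x + y) := by
  have key : ∀ {x y : K}, x ≠ 0 → y ≠ 0 → x + y ≠ 0 → v x ≤ v y → v x ≤ v (x + y) := by
    intro x y hx hy hxy hle
    have h1 : y / x ∈ O := by
      rw [h.mem_iff (div_ne_zero hy hx), h.map_div hy hx]
      linarith
    have h2 : 1 + y / x ∈ O := O.add_mem _ _ O.one_mem h1
    have h3 : x + y = x * (1 + y / x) := by field_simp
    have h4 : 1 + y / x ≠ 0 := by
      intro h0
      rw [h0, mul_zero] at h3
      exact hxy h3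
    rw [h.mem_iff h4] at h2
    rw [h3, h.map_mul hx h4]
    linarith
  by_cases hx0 : x = 0
  · rw [hx0, zero_add]; exact hy
  by_cases hy0 : y = 0
  · rw [hy0, add_zero]; exact hx
  by_cases hxy : x + y = 0
  · exact Or.inl hxy
  right
  have hx' := hx.resolve_left hx0
  have hy' := hy.resolve_left hy0
  rcases le_total (v x) (v y) with hle | hle
  · exact hx'.trans (key hx0 hy0 hxy hle)
  · rw [add_comm] at hxy ⊢
    exact hy'.trans (key hy0 hx0 hxy hle)

theorem IsOrd.le_sum (h : IsOrd O v) {ι : Type*} (s : Finset ι) (f : ι → K) {B : ℤ}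
    (hf : ∀ i ∈ s, f i = 0 ∨ B ≤ v (f i)) : ∑ i ∈ s, f i = 0 ∨ B ≤ v (∑ i ∈ s, f i) := by
  classical
  induction s using Finset.induction_on with
  | empty => simp
  | insert i s hi ih =>
    rw [Finset.sum_insert hi]
    exact h.le_add (hf i (Finset.mem_insert_self _ _))
      (ih fun j hj => hf j (Finset.mem_insert_of_mem hj))

end Ord

/-- the element `x` is bounded by `D` times the bound of the family `c` at every place -/
def Ctrl {E : Type} [Field E] [Algebra ℂ E] {p : ℕ} (c : Fin p → E) (D : ℕ) (x : E) : Prop :=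
  ∀ (K : Type) [Field K] [Algebra ℂ K] (ψ : E →ₐ[ℂ] K) (O : ValuationSubring K) (v : K → ℤ),
    (∀ z : ℂ, algebraMap ℂ K z ∈ O) → IsOrd O v → ∀ μ : ℤ, μ ≤ 0 →
      (∀ j, c j ≠ 0 → μ ≤ v (ψ (c j))) → ψ x = 0 ∨ D * μ ≤ v (ψ x)

theorem Ctrl.mono {E : Type} [Field E] [Algebra ℂ E] {p : ℕ} {c : Fin p → E} {D D' : ℕ}
    (hD : D ≤ D') {x : E} (h : Ctrl c D x) : Ctrl c D' x := by
  intro K _ _ ψ O v hO hv μ hμ hc
  rcases h K ψ O v hO hv μ hμ hc with h1 | h1
  · exact Or.inl h1
  · refine Or.inr (le_trans ?_ h1)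
    have : (D : ℤ) ≤ D' := by exact_mod_cast hD
    nlinarith

theorem exists_ctrl {E : Type} [Field E] [Algebra ℂ E] {p : ℕ} (c : Fin p → E) (x : E)
    (hx : x ∈ Algebra.adjoin ℂ (Set.range c)) : ∃ D : ℕ, Ctrl c D x := by
  induction hx using Algebra.adjoin_induction with
  | mem x hx =>
    obtain ⟨j, rfl⟩ := hx
    refine ⟨1, ?_⟩
    intro K _ _ ψ O v hO hv μ hμ hc
    by_cases h0 : c j = 0
    · left; rw [h0, map_zero]
    · right; simpa using hc j h0
  | algebraMap z =>
    refine ⟨0, ?_⟩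
    intro K _ _ ψ O v hO hv μ hμ hc
    by_cases h0 : ψ (algebraMap ℂ E z) = 0
    · exact Or.inl h0
    · right
      rw [AlgHom.commutes] at h0 ⊢
      rw [Nat.cast_zero, zero_mul, ← hv.mem_iff h0]
      exact hO z
  | add x y _ _ hx hy =>
    obtain ⟨D₁, h₁⟩ := hx
    obtain ⟨D₂, h₂⟩ := hy
    refine ⟨max D₁ D₂, ?_⟩
    intro K _ _ ψ O v hO hv μ hμ hc
    rw [_root_.map_add]
    exact hv.le_add (h₁.mono (le_max_left _ _) K ψ O v hO hv μ hμ hc)
      (h₂.mono (le_max_right _ _) K ψ O v hO hv μ hμ hc)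
  | mul x y _ _ hx hy =>
    obtain ⟨D₁, h₁⟩ := hx
    obtain ⟨D₂, h₂⟩ := hy
    refine ⟨D₁ + D₂, ?_⟩
    intro K _ _ ψ O v hO hv μ hμ hc
    rw [_root_.map_mul]
    by_cases hx0 : ψ x = 0
    · left; rw [hx0, zero_mul]
    by_cases hy0 : ψ y = 0
    · left; rw [hy0, mul_zero]
    right
    rw [hv.map_mul hx0 hy0]
    have h3 := (h₁ K ψ O v hO hv μ hμ hc).resolve_left hx0
    have h4 := (h₂ K ψ O v hO hv μ hμ hc).resolve_left hy0
    push_cast
    linarith

/-- PIECE R1 (Control.lean, imports Defs).  An element algebraic over `ℂ(c)` is controlled by a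
polynomial in `c`. -/
theorem exists_control {E : Type} [Field E] [Algebra ℂ E] {p : ℕ} (c : Fin p → E)
    (a : E) (ha : a ≠ 0)
    (halg : IsAlgebraic (IntermediateField.adjoin ℂ (Set.range c)) a) :
    ∃ (m : ℕ) (φ : E), φ ≠ 0 ∧ ∀ (K : Type) [Field K] [Algebra ℂ K] (ψ : E →ₐ[ℂ] K)
      (O : ValuationSubring K) (v : K → ℤ), (∀ z : ℂ, algebraMap ℂ K z ∈ O) → IsOrd O v →
      ∀ μ : ℤ, μ ≤ 0 → (∀ j, c j ≠ 0 → μ ≤ v (ψ (c j))) →
        m * μ + |v (ψ a)| ≤ v (ψ φ) := by
  have h0 : IsAlgebraic (Algebra.adjoin ℂ (Set.range c)) a :=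
    IntermediateField.isAlgebraic_adjoin_iff.mp halg
  obtain ⟨P, hP0, hP⟩ := h0
  -- the coefficients
  set A : ℕ → E := fun k => (P.coeff k : E) with hA
  have hsum : ∑ k ∈ Finset.range (P.natDegree + 1), A k * a ^ k = 0 := by
    rw [Polynomial.aeval_eq_sum_range] at hP
    rw [← hP]
    rfl
  set N := P.natTrailingDegree with hN
  set M := P.natDegree with hM
  have hAN : A N ≠ 0 := by
    have h1 : P.trailingCoeff ≠ 0 := Polynomial.trailingCoeff_nonzero_iff_nonzero.mpr hP0
    intro h2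
    exact h1 (Subtype.ext h2)
  have hAM : A M ≠ 0 := by
    have h1 : P.leadingCoeff ≠ 0 := Polynomial.leadingCoeff_ne_zero.mpr hP0
    intro h2
    exact h1 (Subtype.ext h2)
  have hNM : N ≤ M := Polynomial.natTrailingDegree_le_natDegree P
  have hlt : ∀ k, k < N → A k = 0 := by
    intro k hk
    have := Polynomial.coeff_eq_zero_of_lt_natTrailingDegree hk
    simp [hA, this]
  choose D₀ hD₀ using fun k => exists_ctrl c (A k) (P.coeff k).2
  set D := (Finset.range (M + 1)).sup D₀ with hD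
  have hctrl : ∀ k ∈ Finset.range (M + 1), Ctrl c D (A k) := fun k hk =>
    (hD₀ k).mono (Finset.le_sup (f := D₀) hk)
  refine ⟨2 * D, A N * A M, mul_ne_zero hAN hAM, ?_⟩
  intro K _ _ ψ O v hO hv μ hμ hc
  have hinj : ∀ x : E, x ≠ 0 → ψ x ≠ 0 := fun x hx => by
    rwa [Ne, map_eq_zero]
  have hbound : ∀ k ∈ Finset.range (M + 1), ψ (A k) = 0 ∨ D * μ ≤ v (ψ (A k)) :=
    fun k hk => hctrl k hk K ψ O v hO hv μ hμ hc
  have hbN := (hbound N (Finset.mem_range.mpr (by omega))).resolve_left (hinj _ hAN)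
  have hbM := (hbound M (Finset.mem_range.mpr (by omega))).resolve_left (hinj _ hAM)
  have hsum' : ∑ k ∈ Finset.range (M + 1), ψ (A k) * ψ a ^ k = 0 := by
    have := congrArg ψ hsum
    simpa [map_sum] using this
  have ha' := hinj a ha
  rw [_root_.map_mul, hv.map_mul (hinj _ hAN) (hinj _ hAM)]
  rcases le_or_gt 0 (v (ψ a)) with he | he
  · -- isolate the lowest term
    rw [abs_of_nonneg he]
    have h1 : ψ (A N) * ψ a ^ N = - ∑ k ∈ (Finset.range (M + 1)).erase N, ψ (A k) * ψ a ^ k := by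
      rw [← Finset.add_sum_erase _ _ (Finset.mem_range.mpr (by omega : N < M + 1))] at hsum'
      exact eq_neg_of_add_eq_zero_left hsum'
    have h2 := hv.le_sum ((Finset.range (M + 1)).erase N) (fun k => ψ (A k) * ψ a ^ k)
      (B := D * μ + (N + 1) * v (ψ a)) (by
        intro k hk
        rw [Finset.mem_erase] at hk
        by_cases hk0 : ψ (A k) = 0
        · left; simp [hk0]
        right
        have hkN : N + 1 ≤ k := by
          by_contra hcon
          have hk1 : k < N := by omega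
          exact hk0 (by rw [hlt k hk1, _root_.map_zero])
        have h3 := (hbound k hk.2).resolve_left hk0
        rw [hv.map_mul hk0 (pow_ne_zero _ ha'), hv.map_pow ha']
        have h4 : ((N : ℤ) + 1) ≤ k := by exact_mod_cast hkN
        nlinarith)
    have h3 : ψ (A N) * ψ a ^ N ≠ 0 := mul_ne_zero (hinj _ hAN) (pow_ne_zero _ ha')
    have h4 : ∑ k ∈ (Finset.range (M + 1)).erase N, ψ (A k) * ψ a ^ k ≠ 0 := by
      intro h5
      rw [h5, neg_zero] at h1
      exact h3 h1
    have h5 := h2.resolve_left h4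
    have h6 : v (ψ (A N) * ψ a ^ N) =
        v (∑ k ∈ (Finset.range (M + 1)).erase N, ψ (A k) * ψ a ^ k) := by
      rw [h1, hv.map_neg h4]
    rw [hv.map_mul (hinj _ hAN) (pow_ne_zero _ ha'), hv.map_pow ha'] at h6
    push_cast
    linarith
  · rw [abs_of_neg he]
    have hNM' : 1 ≤ M := by
      by_contra hcon
      have hM0 : M = 0 := by omega
      rw [hM0] at hsum'
      simp only [zero_add, Finset.sum_range_one, pow_zero, mul_one] at hsum'
      rw [hM0] at hAM
      exact hinj _ hAM hsum'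
    have h1 : ψ (A M) * ψ a ^ M = - ∑ k ∈ (Finset.range (M + 1)).erase M, ψ (A k) * ψ a ^ k := by
      rw [← Finset.add_sum_erase _ _ (Finset.mem_range.mpr (by omega : M < M + 1))] at hsum'
      exact eq_neg_of_add_eq_zero_left hsum'
    have h2 := hv.le_sum ((Finset.range (M + 1)).erase M) (fun k => ψ (A k) * ψ a ^ k)
      (B := D * μ + (M - 1) * v (ψ a)) (by
        intro k hk
        rw [Finset.mem_erase] at hk
        by_cases hk0 : ψ (A k) = 0
        · left; simp [hk0]
        right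
        have hkN : k + 1 ≤ M := by
          have := Finset.mem_range.mp hk.2
          omega
        have h3 := (hbound k hk.2).resolve_left hk0
        rw [hv.map_mul hk0 (pow_ne_zero _ ha'), hv.map_pow ha']
        have h4 : ((k : ℤ) + 1) ≤ M := by exact_mod_cast hkN
        nlinarith)
    have h3 : ψ (A M) * ψ a ^ M ≠ 0 := mul_ne_zero (hinj _ hAM) (pow_ne_zero _ ha')
    have h4 : ∑ k ∈ (Finset.range (M + 1)).erase M, ψ (A k) * ψ a ^ k ≠ 0 := by
      intro h5
      rw [h5, neg_zero] at h1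
      exact h3 h1
    have h5 := h2.resolve_left h4
    have h6 : v (ψ (A M) * ψ a ^ M) =
        v (∑ k ∈ (Finset.range (M + 1)).erase M, ψ (A k) * ψ a ^ k) := by
      rw [h1, hv.map_neg h4]
    rw [hv.map_mul (hinj _ hAM) (pow_ne_zero _ ha'), hv.map_pow ha'] at h6
    push_cast
    linarith

end Pool.Agent.Campana
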