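import Mathlib

/-! Piece D3b: residues at `0` of logarithmic derivatives of rational functions. -/

set_option autoImplicit false

namespace Pool.Agent.Campana

namespace ResidueAux

open Polynomial

/-- `y` lies in the maximal ideal of the valuation ring of `k(x)` at `x = 0` -/
def Small {k M : Type} [Field k] [Field M] [Algebra k M] (x y : M) : Prop :=
  ∃ r h : k[X], h.coeff 0 ≠ 0 ∧ y * aeval x h = x * aeval x r

variable {k M : Type} [Field k] [Field M] [Algebra k M] {x : M}

theorem Small.zero : Small (k := k) x 0 := ⟨0, 1, by simp, by simp⟩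

theorem Small.add {y z : M} (hy : Small (k := k) x y) (hz : Small (k := k) x z) :
    Small (k := k) x (y + z) := by
  obtain ⟨r, h, h0, e⟩ := hy
  obtain ⟨r', h', h0', e'⟩ := hz
  refine ⟨r * h' + r' * h, h * h', by rw [mul_coeff_zero]; exact mul_ne_zero h0 h0', ?_⟩
  simp only [map_mul, map_add]
  linear_combination (aeval x h') * e + (aeval x h) * e'

theorem Small.const_mul {y : M} (hy : Small (k := k) x y) (c : k) :
    Small (k := k) x (algebraMap k M c * y) := by
  obtain ⟨r, h, h0, e⟩ := hy
  refine ⟨C c * r, h, h0, ?_⟩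
  simp only [map_mul, aeval_C]
  linear_combination (algebraMap k M c) * e

theorem Small.neg {y : M} (hy : Small (k := k) x y) : Small (k := k) x (-y) := by
  have := hy.const_mul (-1)
  simpa using this

theorem Small.sum {ι : Type} (s : Finset ι) (y : ι → M) (hy : ∀ i ∈ s, Small (k := k) x (y i)) :
    Small (k := k) x (∑ i ∈ s, y i) := by
  classical
  induction s using Finset.induction_on with
  | empty => simpa using Small.zero
  | insert a s ha ih =>
    rw [Finset.sum_insert ha]
    exact (hy a (Finset.mem_insert_self _ _)).add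
      (ih fun i hi => hy i (Finset.mem_insert_of_mem hi))

theorem Small.const_eq_zero (hx : Transcendental k x) {c : k}
    (hc : Small (k := k) x (algebraMap k M c)) : c = 0 := by
  obtain ⟨r, h, h0, e⟩ := hc
  have h1 : aeval x (C c * h - X * r) = 0 := by
    simp only [map_sub, map_mul, aeval_C, aeval_X]
    linear_combination e
  have h2 : C c * h - X * r = 0 := (transcendental_iff.1 hx) _ h1
  have h3 := congrArg (fun p : k[X] => p.coeff 0) h2
  simp only [coeff_sub, mul_coeff_zero, coeff_X_zero, zero_mul, sub_zero, coeff_C_zero,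
    coeff_zero] at h3
  exact (mul_eq_zero.1 h3).resolve_right h0

theorem aeval_ne_zero (hx : Transcendental k x) {P : k[X]} (hP : P ≠ 0) : aeval x P ≠ 0 :=
  fun h => hP ((transcendental_iff.1 hx) _ h)

theorem small_poly (hx : Transcendental k x) (D : Derivation k M M) (hD : D x = x) {P : k[X]}
    (hP : P ≠ 0) : ∃ n : ℤ, Small (k := k) x (D (aeval x P) / aeval x P - (n : M)) := by
  obtain ⟨q, hq, hd⟩ := exists_eq_pow_rootMultiplicity_mul_and_not_dvd P hP 0
  rw [C_0, sub_zero] at hq hd
  have hq0 : q.coeff 0 ≠ 0 := fun h => hd (X_dvd_iff.2 h)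
  have hqn : q ≠ 0 := by
    rintro rfl
    simp at hq0
  have hx0 : x ≠ 0 := by
    rintro rfl
    exact hx (isAlgebraic_zero)
  refine ⟨(P.rootMultiplicity 0 : ℕ), derivative q, q, hq0, ?_⟩
  generalize P.rootMultiplicity 0 = n at hq
  have hqx : aeval x q ≠ 0 := aeval_ne_zero hx hqn
  have hDq : D (aeval x q) = aeval x (derivative q) * x := by
    have := D.map_aeval q x
    rw [this, smul_eq_mul, hD]
  have hPx : aeval x P = x ^ n * aeval x q := by
    rw [hq]; simp
  have hxn : D (x ^ n) = n * x ^ n := by
    rw [D.leibniz_pow, hD]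
    rcases n with _ | n
    · simp
    · simp only [Nat.add_sub_cancel, smul_eq_mul, nsmul_eq_mul]
      rw [pow_succ]
  have hxn0 : x ^ n ≠ 0 := pow_ne_zero _ hx0
  rw [hPx, D.leibniz, hDq, hxn, smul_eq_mul, smul_eq_mul]
  field_simp
  push_cast
  ring

theorem small_all (hx : Transcendental k x) (hM : IntermediateField.adjoin k {x} = ⊤)
    (D : Derivation k M M) (hD : D x = x) {g : M} (hg : g ≠ 0) :
    ∃ n : ℤ, Small (k := k) x (D g / g - (n : M)) := by
  have hmem : g ∈ IntermediateField.adjoin k {x} := by rw [hM]; trivial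
  obtain ⟨P, Q, e⟩ := (IntermediateField.mem_adjoin_simple_iff k g).1 hmem
  have hP : P ≠ 0 := by
    rintro rfl
    apply hg
    rw [e]; simp
  have hQ : Q ≠ 0 := by
    rintro rfl
    apply hg
    rw [e]; simp
  obtain ⟨n, hn⟩ := small_poly hx D hD hP
  obtain ⟨m, hm⟩ := small_poly hx D hD hQ
  have hPx : aeval x P ≠ 0 := aeval_ne_zero hx hP
  have hQx : aeval x Q ≠ 0 := aeval_ne_zero hx hQ
  refine ⟨n - m, ?_⟩
  have h1 : D g / g - ((n - m : ℤ) : M) =
      (D (aeval x P) / aeval x P - (n : M)) + -(D (aeval x Q) / aeval x Q - (m : M)) := by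
    rw [e, D.leibniz_div]
    simp only [smul_eq_mul]
    field_simp
    push_cast
    ring
  rw [h1]
  exact hn.add hm.neg

end ResidueAux

open ResidueAux in
/-- PIECE D3b (Residue.lean, only Mathlib).  Residues of logarithmic derivatives of rational
functions. -/
theorem residue_combination {k M : Type} [Field k] [CharZero k] [Field M] [Algebra k M] (x : M)
    (hx : Transcendental k x) (hM : IntermediateField.adjoin k {x} = ⊤) (D : Derivation k M M)
    (hD : D x = x) {r : ℕ} (g : Fin r → M) (hg : ∀ s, g s ≠ 0) (κ : Fin r → k) (c : k)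
    (h : algebraMap k M c + ∑ s, algebraMap k M (κ s) * (D (g s) / g s) = 0) :
    ∃ n : Fin r → ℤ, c + ∑ s, κ s * (n s : k) = 0 := by
  have h1 : ∀ s, ∃ n : ℤ, Small (k := k) x (D (g s) / g s - (n : M)) := fun s =>
    small_all hx hM D hD (hg s)
  choose n hn using h1
  refine ⟨n, Small.const_eq_zero hx ?_⟩
  have h2 : algebraMap k M (c + ∑ s, κ s * (n s : k)) =
      -∑ s, algebraMap k M (κ s) * (D (g s) / g s - (n s : M)) := by
    simp only [map_add, map_sum, map_mul, map_intCast, mul_sub, Finset.sum_sub_distrib]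
    linear_combination h
  rw [h2]
  exact (Small.sum _ _ fun s _ => (hn s).const_mul (κ s)).neg

end Pool.Agent.Campana
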