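import Mathlib

/-! Piece D3a: the trace of a logarithmic derivative is the logarithmic derivative of the norm. -/

set_option autoImplicit false

namespace Pool.Agent.Campana

namespace TraceAux

theorem deriv_prod {k M ι : Type} [CommRing k] [CommRing M] [Algebra k M] [DecidableEq ι]
    (D : Derivation k M M) (s : Finset ι) (f : ι → M) :
    D (∏ i ∈ s, f i) = ∑ i ∈ s, (∏ j ∈ s.erase i, f j) * D (f i) := by
  induction s using Finset.induction_on with
  | empty => simp
  | insert a s ha ih =>
    rw [Finset.prod_insert ha, D.leibniz, Finset.sum_insert ha, Finset.erase_insert ha, ih,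
      smul_eq_mul, smul_eq_mul, Finset.mul_sum, add_comm]
    congr 1
    refine Finset.sum_congr rfl fun i hi => ?_
    have hia : i ≠ a := fun h => ha (h ▸ hi)
    rw [Finset.erase_insert_of_ne hia.symm, Finset.prod_insert (fun h => ha (Finset.mem_of_mem_erase h))]
    ring

/-- Jacobi formula -/
theorem deriv_det {k M ι : Type} [CommRing k] [CommRing M] [Algebra k M] [Fintype ι]
    [DecidableEq ι] (D : Derivation k M M) (A : Matrix ι ι M) :
    D A.det = (A.adjugate * A.map D).trace := by
  have h1 : D A.det = ∑ i, (A.updateCol i (fun r => D (A r i))).det := by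
    simp only [Matrix.det_apply]
    rw [map_sum, Finset.sum_comm]
    refine Finset.sum_congr rfl fun σ _ => ?_
    rw [Units.smul_def, map_zsmul, deriv_prod, Finset.smul_sum]
    refine Finset.sum_congr rfl fun i _ => ?_
    rw [Units.smul_def]
    congr 1
    rw [← Finset.mul_prod_erase Finset.univ _ (Finset.mem_univ i), mul_comm]
    congr 1
    · simp
    · refine Finset.prod_congr rfl fun j hj => ?_
      rw [Matrix.updateCol_ne (Finset.ne_of_mem_erase hj)]
  rw [h1, Matrix.trace]
  refine Finset.sum_congr rfl fun i _ => ?_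
  rw [← Matrix.cramer_apply, Matrix.cramer_eq_adjugate_mulVec]
  rfl

end TraceAux

open TraceAux in
/-- PIECE D3a (Trace.lean, only Mathlib).  Trace of the logarithmic derivative. -/
theorem trace_logDeriv {k M L : Type} [Field k] [CharZero k] [Field M] [Field L] [Algebra k M]
    [Algebra k L] [Algebra M L] [IsScalarTower k M L] [FiniteDimensional M L]
    (D₀ : Derivation k M M) (D : Derivation k L L)
    (hD : ∀ x : M, D (algebraMap M L x) = algebraMap M L (D₀ x)) (b : L) (hb : b ≠ 0) :
    Algebra.trace M L (D b / b) = D₀ (Algebra.norm M b) / Algebra.norm M b := by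
  classical
  let e := Module.finBasis M L
  obtain ⟨A, hAd⟩ : ∃ A : Matrix (Fin (Module.finrank M L)) (Fin (Module.finrank M L)) M,
      A = Algebra.leftMulMatrix e b := ⟨_, rfl⟩
  obtain ⟨B, hBd⟩ : ∃ B : Matrix (Fin (Module.finrank M L)) (Fin (Module.finrank M L)) M,
      B = Algebra.leftMulMatrix e (D b) := ⟨_, rfl⟩
  obtain ⟨Γ, hΓd⟩ : ∃ Γ : Matrix (Fin (Module.finrank M L)) (Fin (Module.finrank M L)) M,
      Γ = fun i j => e.repr (D (e j)) i := ⟨_, rfl⟩
  have hA : ∀ j, b * e j = ∑ i, A i j • e i := by
    intro j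
    rw [← e.sum_repr (b * e j)]
    refine Finset.sum_congr rfl fun i _ => ?_
    rw [hAd, Algebra.leftMulMatrix_eq_repr_mul]
  have hB : ∀ j, D b * e j = ∑ i, B i j • e i := by
    intro j
    rw [← e.sum_repr (D b * e j)]
    refine Finset.sum_congr rfl fun i _ => ?_
    rw [hBd, Algebra.leftMulMatrix_eq_repr_mul]
  have hΓ : ∀ j, D (e j) = ∑ i, Γ i j • e i := fun j => by
    rw [hΓd]; exact (e.sum_repr (D (e j))).symm
  have key : B = A.map D₀ + Γ * A - A * Γ := by
    have h1 : ∀ j, ∑ i, B i j • e i = ∑ i, (A.map D₀ + Γ * A - A * Γ) i j • e i := by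
      intro j
      have h2 : D (b * e j) = b * D (e j) + e j * D b := by
        rw [D.leibniz]; simp
      have h3 : D (b * e j) = ∑ i, (A.map D₀ + Γ * A) i j • e i := by
        rw [hA j, map_sum]
        have : ∀ i, D (A i j • e i) = (D₀ (A i j)) • e i + ∑ l, (Γ l i * A i j) • e l := by
          intro i
          rw [Algebra.smul_def, D.leibniz, hD, hΓ i, smul_eq_mul, smul_eq_mul, Algebra.smul_def,
            add_comm, Finset.mul_sum]
          congr 1
          · ring
          · refine Finset.sum_congr rfl fun l _ => ?_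
            rw [Algebra.smul_def, Algebra.smul_def, map_mul]
            ring
        rw [Finset.sum_congr rfl fun i _ => this i, Finset.sum_add_distrib, Finset.sum_comm,
          ← Finset.sum_add_distrib]
        refine Finset.sum_congr rfl fun i _ => ?_
        rw [Matrix.add_apply, add_smul, Matrix.mul_apply, Finset.sum_smul]
        rfl
      have h4 : b * D (e j) = ∑ i, (A * Γ) i j • e i := by
        rw [hΓ j, Finset.mul_sum]
        have : ∀ i, b * Γ i j • e i = ∑ l, (A l i * Γ i j) • e l := by
          intro i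
          rw [mul_smul_comm, hA i, Finset.smul_sum]
          refine Finset.sum_congr rfl fun l _ => ?_
          rw [smul_smul, mul_comm]
        rw [Finset.sum_congr rfl fun i _ => this i, Finset.sum_comm]
        refine Finset.sum_congr rfl fun i _ => ?_
        rw [Matrix.mul_apply, Finset.sum_smul]
      rw [← hB j]
      have h5 : D b * e j = D (b * e j) - b * D (e j) := by rw [h2]; ring
      rw [h5, h3, h4, ← Finset.sum_sub_distrib]
      refine Finset.sum_congr rfl fun i _ => ?_
      rw [← sub_smul]
      rfl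
    ext i j
    have h2 := h1 j
    have h3 : e.repr (∑ i, B i j • e i) i = e.repr (∑ i, (A.map D₀ + Γ * A - A * Γ) i j • e i) i := by
      rw [h2]
    rw [e.repr_sum_self (fun i => B i j),
      e.repr_sum_self (fun i => (A.map D₀ + Γ * A - A * Γ) i j)] at h3
    exact h3
  have hdet : A.det = Algebra.norm M b := by
    rw [hAd]; exact (Algebra.norm_eq_matrix_det e b).symm
  have hdet0 : A.det ≠ 0 := by
    rw [hdet]
    exact Algebra.norm_ne_zero_iff.2 hb
  have hinv : Algebra.leftMulMatrix e b⁻¹ = A⁻¹ := by
    symm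
    apply Matrix.inv_eq_right_inv
    rw [hAd, ← map_mul, mul_inv_cancel₀ hb, map_one]
  have hunit : IsUnit A.det := isUnit_iff_ne_zero.2 hdet0
  rw [Algebra.trace_eq_matrix_trace e, div_eq_mul_inv, map_mul, hinv, ← hBd, key, sub_mul, add_mul, Matrix.trace_sub, Matrix.trace_add, Matrix.mul_assoc Γ A,
    Matrix.mul_nonsing_inv A hunit, Matrix.mul_one, Matrix.trace_mul_comm (A * Γ),
    ← Matrix.mul_assoc, Matrix.nonsing_inv_mul A hunit, Matrix.one_mul, add_sub_cancel_right,
    ← hdet, deriv_det, Matrix.trace_mul_comm, Matrix.inv_def, Matrix.smul_mul, Matrix.trace_smul,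
    Ring.inverse_eq_inv', smul_eq_mul, div_eq_inv_mul]

end Pool.Agent.Campana
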