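import Pool.Agent.Lib_MP_1209e6_ag.Der
import Pool.Agent.Lib_MP_1209e6_ag.Trace
import Pool.Agent.Lib_MP_1209e6_ag.Residue

/-! Logarithmic differentials with linearly independent coefficients. -/

set_option autoImplicit false

namespace Pool.Agent.Campana

open Polynomial

namespace DI

/-- a derivation of a field which kills `F` kills everything algebraic over `F` -/
theorem der_zero_alg {k F A B : Type} [Field k] [Field F] [CharZero F] [Field A] [Field B]
    [Algebra k A] [Algebra k B] [Algebra A B] [Algebra F A]
    (D : Derivation k A B) (hF : ∀ y : F, D (algebraMap F A y) = 0) (z : A)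
    (hz : IsAlgebraic F z) : D z = 0 := by
  have hp : ∀ p : F[X], D (aeval z p) = aeval z (derivative p) • D z := by
    intro p
    induction p using Polynomial.induction_on with
    | C a =>
      rw [aeval_C, derivative_C, map_zero, zero_smul]
      exact hF _
    | add p q hp hq => rw [map_add, map_add, hp, hq, derivative_add, map_add, add_smul]
    | monomial n a _ =>
      have e1 : aeval z (C a * X ^ (n + 1)) = algebraMap F A a * z ^ (n + 1) := by simp
      have e2 : aeval z (derivative (C a * X ^ (n + 1))) =
          algebraMap F A a * ((n + 1 : ℕ) * z ^ n) := by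
        rw [derivative_C_mul_X_pow]
        simp
        ring
      rw [e1, e2, Derivation.leibniz, Derivation.leibniz_pow, hF, smul_zero, add_zero,
        ← Nat.cast_smul_eq_nsmul A, smul_smul, smul_smul]
      congr 1
      simp only [Nat.add_sub_cancel]
      ring
  have hz : IsIntegral F z := hz.isIntegral
  have h1 := hp (minpoly _ z)
  rw [minpoly.aeval, map_zero] at h1
  have hsep : (minpoly F z).Separable := (minpoly.irreducible hz).separable
  have h2 : aeval z (derivative (minpoly F z)) ≠ 0 :=
    hsep.aeval_derivative_ne_zero (minpoly.aeval _ z)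
  exact (smul_eq_zero.1 h1.symm).resolve_left h2

/-- a derivation of `k(x)` which kills `x` is zero -/
theorem der_zero_gen {k A B : Type} [Field k] [Field A] [Field B] [Algebra k A]
    [Algebra k B] [Algebra A B] (x : A)
    (hA : IntermediateField.adjoin k {x} = ⊤) (D : Derivation k A B)
    (h : D x = 0) (z : A) : D z = 0 := by
  have hz : z ∈ IntermediateField.adjoin k {x} := by rw [hA]; exact IntermediateField.mem_top
  induction hz using IntermediateField.adjoin_induction with
  | mem y hy => rw [Set.mem_singleton_iff.1 hy, h]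
  | algebraMap c => simp
  | add a b _ _ ha hb => rw [map_add, ha, hb, add_zero]
  | inv a _ ha => rw [Derivation.leibniz_inv, ha, smul_zero]
  | mul a b _ _ ha hb => rw [Derivation.leibniz, ha, hb]; simp

/-- compatible derivations -/
theorem der_compat_gen {k A B : Type} [Field k] [Field A] [Field B] [Algebra k A]
    [Algebra k B] [Algebra A B] [IsScalarTower k A B] (x : A)
    (hA : IntermediateField.adjoin k {x} = ⊤) (D₁ : Derivation k A A)
    (D₂ : Derivation k B B) (h : D₂ (algebraMap A B x) = algebraMap A B (D₁ x)) (z : A) :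
    D₂ (algebraMap A B z) = algebraMap A B (D₁ z) := by
  have := der_zero_gen x hA (D₂.compAlgebraMap A - (Algebra.linearMap A B).compDer D₁)
    (by
      rw [Derivation.sub_apply, sub_eq_zero]
      exact h) z
  rw [Derivation.sub_apply, sub_eq_zero] at this
  exact this

/-- compatible derivations over an algebraic extension of `k(x)` -/
theorem der_compat_alg {k M A B : Type} [Field k] [Field M] [CharZero M] [Field A] [Field B]
    [Algebra k M] [Algebra k A] [Algebra k B] [Algebra A B] [Algebra M A] [Algebra M B]
    [IsScalarTower k A B] [IsScalarTower k M A] [IsScalarTower M A B] [IsScalarTower k M B]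
    (x : M) (hM : IntermediateField.adjoin k {x} = ⊤) (hA : Algebra.IsAlgebraic M A)
    (D₁ : Derivation k A A) (D₂ : Derivation k B B)
    (h : D₂ (algebraMap M B x) = algebraMap A B (D₁ (algebraMap M A x))) (z : A) :
    D₂ (algebraMap A B z) = algebraMap A B (D₁ z) := by
  set D : Derivation k A B := D₂.compAlgebraMap A - (Algebra.linearMap A B).compDer D₁ with hD
  have hDz : ∀ z, D z = D₂ (algebraMap A B z) - algebraMap A B (D₁ z) := fun z => by
    rw [hD, Derivation.sub_apply]
    rfl
  have h1 : ∀ y : M, D (algebraMap M A y) = 0 := by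
    intro y
    have := der_zero_gen x hM (D.compAlgebraMap M) (by
      show D (algebraMap M A x) = 0
      rw [hDz, sub_eq_zero, ← IsScalarTower.algebraMap_apply]
      exact h) y
    exact this
  have := der_zero_alg D h1 z (hA.isAlgebraic z)
  rw [hDz, sub_eq_zero] at this
  exact this

theorem core {k₁ M L : Type} [Field k₁] [CharZero k₁] [Field M] [Field L] [Algebra k₁ M]
    [Algebra k₁ L] [Algebra M L] [IsScalarTower k₁ M L] [FiniteDimensional M L] (x : M)
    (hx : Transcendental k₁ x) (hM : IntermediateField.adjoin k₁ {x} = ⊤) {r : ℕ}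
    (b : Fin r → L) (hb : ∀ s, b s ≠ 0) (κ : Fin r → k₁) (D : Derivation k₁ L L)
    (hD : D (algebraMap M L x) = algebraMap M L x) (s₀ : Fin r)
    (hs₀ : b s₀ = algebraMap M L x)
    (h : ∑ s, algebraMap k₁ L (κ s) * (D (b s) / b s) = 0) :
    ∃ n : Fin r → ℤ, n s₀ ≠ 0 ∧ ∑ s, κ s * (n s : k₁) = 0 := by
  classical
  have hx0 : x ≠ 0 := by
    rintro rfl
    exact hx (isAlgebraic_zero)
  obtain ⟨D₀, hD₀⟩ := exists_derivation (k := k₁) (K := M) (fun _ : Unit => x)
    (by rw [algebraicIndependent_unique_type_iff]; exact hx) (fun _ => x)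
  have hD₀x : D₀ x = x := hD₀ ()
  have hcomp : ∀ y : M, D (algebraMap M L y) = algebraMap M L (D₀ y) :=
    der_compat_gen x hM D₀ D (by rw [hD, hD₀x])
  have htr : ∑ s, algebraMap k₁ M (κ s) *
      (D₀ (Algebra.norm M (b s)) / Algebra.norm M (b s)) = 0 := by
    have h1 := congrArg (Algebra.trace M L) h
    rw [map_sum, map_zero] at h1
    rw [← h1]
    refine Finset.sum_congr rfl fun s _ => ?_
    rw [← trace_logDeriv D₀ D hcomp (b s) (hb s), IsScalarTower.algebraMap_apply k₁ M L,
      ← Algebra.smul_def (algebraMap k₁ M (κ s)) (D (b s) / b s), map_smul, smul_eq_mul]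
  set n₀ : ℕ := Module.finrank M L with hn₀
  have hn₀pos : n₀ ≠ 0 := (Module.finrank_pos (R := M) (M := L)).ne'
  have hN₀ : D₀ (Algebra.norm M (b s₀)) / Algebra.norm M (b s₀) = (n₀ : M) := by
    rw [hs₀, Algebra.norm_algebraMap, Derivation.leibniz_pow, hD₀x]
    rw [← hn₀]
    have : x ^ n₀ ≠ 0 := pow_ne_zero _ hx0
    obtain ⟨n, hn⟩ := Nat.exists_eq_succ_of_ne_zero hn₀pos
    rw [hn, Nat.succ_sub_one, smul_eq_mul, nsmul_eq_mul]
    field_simp
    rw [pow_succ]
    ring
  have hres := residue_combination x hx hM D₀ hD₀x (fun s => Algebra.norm M (b s))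
    (fun s => by
      rw [Ne, Algebra.norm_eq_zero_iff]
      exact hb s)
    (fun s => if s = s₀ then 0 else κ s) (κ s₀ * n₀) (by
      rw [← Finset.add_sum_erase _ _ (Finset.mem_univ s₀)] at htr ⊢
      rw [hN₀] at htr
      simp only [if_true, map_zero, zero_mul, zero_add, map_mul, map_natCast]
      rw [← htr]
      congr 1
      refine Finset.sum_congr rfl fun s hs => ?_
      rw [if_neg (Finset.ne_of_mem_erase hs)])
  obtain ⟨n, hn⟩ := hres
  refine ⟨fun s => if s = s₀ then n₀ else n s, by simpa using hn₀pos, ?_⟩
  rw [← hn, ← Finset.add_sum_erase _ _ (Finset.mem_univ s₀)]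
  rw [← Finset.add_sum_erase Finset.univ (fun s => (if s = s₀ then 0 else κ s) * (n s : k₁))
    (Finset.mem_univ s₀)]
  simp only [if_true, zero_mul, zero_add]
  congr 1
  · push_cast; ring
  · refine Finset.sum_congr rfl fun s hs => ?_
    rw [if_neg (Finset.ne_of_mem_erase hs), if_neg (Finset.ne_of_mem_erase hs)]

end DI

open DI in
/-- PIECE D3c (DlogIndep.lean, uses D1, D3a, D3b). -/
theorem dlog_indep {k E : Type} [Field k] [CharZero k] [Field E] [Algebra k E]
    (hcl : ∀ x : E, IsAlgebraic k x → ∃ c : k, algebraMap k E c = x) {r : ℕ} (b : Fin r → E)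
    (hb : ∀ s, b s ≠ 0) (κ : Fin r → k) (hκ : LinearIndependent ℚ κ)
    (h : ∀ D : Derivation k E E, ∑ s, algebraMap k E (κ s) * (D (b s) / b s) = 0) (s : Fin r) :
    ∃ c : k, algebraMap k E c = b s := by
  classical
  by_contra hcon
  have hx : Transcendental k (b s) := fun halg => hcon (hcl _ halg)
  obtain ⟨t, hst, ht⟩ := exists_isTranscendenceBasis_superset (R := k) (s := {b s})
    (by
      have : AlgebraicIndependent k (fun i : ({b s} : Set E) => (i : E)) := by
        rw [algebraicIndependent_unique_type_iff]
        exact hx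
      exact this)
  have hbt : b s ∈ t := hst rfl
  set K₁ : IntermediateField k E := IntermediateField.adjoin k (t \ {b s}) with hK₁
  have hxK : Transcendental K₁ (b s) := by
    rw [hK₁, IntermediateField.transcendental_adjoin_iff]
    have := ht.1.transcendental_adjoin (s := {i | (i : E) ≠ b s}) (i := ⟨b s, hbt⟩) (by simp)
    have himg : (Subtype.val '' {i : t | (i : E) ≠ b s}) = t \ {b s} := by
      ext y
      simp [and_comm]
    rw [himg] at this
    exact this
  set M : IntermediateField K₁ E := IntermediateField.adjoin K₁ {b s} with hM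
  have hbM : b s ∈ M := IntermediateField.subset_adjoin _ _ rfl
  have hMalg : Algebra.IsAlgebraic M E := by
    have h1 := ht.isAlgebraic_field
    have hle : IntermediateField.adjoin k (Set.range (Subtype.val : t → E)) ≤
        M.restrictScalars k := by
      rw [IntermediateField.adjoin_le_iff]
      rintro _ ⟨⟨y, hy⟩, rfl⟩
      show y ∈ M
      by_cases hyb : y = b s
      · rw [hyb]; exact hbM
      · have hyK : y ∈ K₁ := IntermediateField.subset_adjoin _ _ ⟨hy, hyb⟩
        exact M.algebraMap_mem ⟨y, hyK⟩
    refine ⟨fun z => ?_⟩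
    have h2 := h1.isAlgebraic z
    let i : IntermediateField.adjoin k (Set.range (Subtype.val : t → E)) →+* M :=
      (IntermediateField.inclusion hle).toRingHom
    let _ : Algebra (IntermediateField.adjoin k (Set.range (Subtype.val : t → E))) M :=
      i.toAlgebra
    have : IsScalarTower (IntermediateField.adjoin k (Set.range (Subtype.val : t → E))) M E :=
      IsScalarTower.of_algebraMap_eq (fun _ => rfl)
    exact h2.extendScalars i.injective
  set L : IntermediateField M E := IntermediateField.adjoin M (Set.range b) with hL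
  have hfin : FiniteDimensional M L := by
    apply IntermediateField.finiteDimensional_adjoin
    intro z _
    exact (hMalg.isAlgebraic z).isIntegral
  have hbL : ∀ i, b i ∈ L := fun i => IntermediateField.subset_adjoin _ _ ⟨i, rfl⟩
  set xM : M := ⟨b s, hbM⟩ with hxM
  have hMtop : IntermediateField.adjoin K₁ {xM} = ⊤ := by
    apply IntermediateField.map_injective M.val
    rw [IntermediateField.adjoin_map, Set.image_singleton]
    have h1 : M.val xM = b s := rfl
    have h2 : IntermediateField.map M.val ⊤ = M := by
      ext y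
      simp
    rw [h1, h2]
  have : IsScalarTower K₁ L E := IsScalarTower.of_algebraMap_eq (fun _ => rfl)
  have hxM' : Transcendental K₁ xM := by
    intro halg
    exact hxK (halg.algebraMap)
  have hxL : Transcendental K₁ (⟨b s, hbL s⟩ : L) := by
    intro halg
    exact hxK (halg.algebraMap)
  obtain ⟨DE, hDE⟩ := exists_derivation (k := K₁) (K := E) (fun _ : Unit => b s)
    (by rw [algebraicIndependent_unique_type_iff]; exact hxK) (fun _ => b s)
  obtain ⟨DL, hDL⟩ := exists_derivation (k := K₁) (K := L) (fun _ : Unit => (⟨b s, hbL s⟩ : L))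
    (by rw [algebraicIndependent_unique_type_iff]; exact hxL) (fun _ => (⟨b s, hbL s⟩ : L))
  have hcomp : ∀ z : L, DE (algebraMap L E z) = algebraMap L E (DL z) := by
    refine der_compat_alg xM hMtop inferInstance DL DE ?_
    have e1 : algebraMap M L xM = ⟨b s, hbL s⟩ := rfl
    have e2 : algebraMap M E xM = b s := rfl
    rw [e1, e2, hDL (), hDE ()]
    rfl
  have hsum := h (DE.restrictScalars k)
  obtain ⟨n, hn0, hn⟩ := core (k₁ := K₁) (M := M) (L := L) xM hxM' hMtop
    (fun i => ⟨b i, hbL i⟩) (fun i hi => hb i (congrArg Subtype.val hi))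
    (fun i => algebraMap k K₁ (κ i)) DL (hDL ()) s rfl (by
      apply (algebraMap L E).injective
      rw [map_zero, map_sum, ← hsum]
      refine Finset.sum_congr rfl fun i _ => ?_
      rw [map_mul, map_div₀, ← hcomp]
      rfl)
  have hn' : ∑ i, (n i : ℚ) • κ i = 0 := by
    apply (algebraMap k K₁).injective
    rw [map_zero, map_sum, ← hn]
    refine Finset.sum_congr rfl fun i _ => ?_
    rw [Algebra.smul_def, map_mul, mul_comm]
    simp
  have := Fintype.linearIndependent_iff.1 hκ (fun i => (n i : ℚ)) hn' s
  exact hn0 (by exact_mod_cast this)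

end Pool.Agent.Campana
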