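import Pool.Agent.Lib_MP_1209e6_ag.Defs

/-! Every Fermat cover has a component, so that the main theorem is not vacuous. -/

set_option autoImplicit false

namespace Pool.Agent.Campana

open MvPolynomial

attribute [local instance] MvPolynomial.gradedAlgebra

theorem isHomogeneous_expand {σ : Type} (d : ℕ) (q : MvPolynomial σ ℂ) (D : ℕ)
    (hq : q.IsHomogeneous D) : (MvPolynomial.expand d q).IsHomogeneous (d * D) := by
  have h : MvPolynomial.expand d q = bind₁ (fun i : σ => (X i : MvPolynomial σ ℂ) ^ d) q := rfl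
  rw [h, bind₁, mul_comm]
  have := hq.aeval (fun i => (X i : MvPolynomial σ ℂ) ^ d) (n := d) (fun i => by
    simpa using (isHomogeneous_X ℂ i).pow d)
  rwa [mul_comm]

/-- Every Fermat cover of degree `d ≥ 1` has a component. -/
theorem exists_fermatOver {n : ℕ} (d : ℕ) (hd : 1 ≤ d) (Q : Ideal (MvPolynomial (Fin (n + 1)) ℂ))
    (hQ : IsVariety Q) : ∃ P : Ideal (MvPolynomial (Fin (n + 1)) ℂ), IsVariety P ∧
      FermatOver d Q P := by
  classical
  have hQp := hQ.1
  let e : MvPolynomial (Fin (n + 1)) ℂ →ₐ[ℂ] MvPolynomial (Fin (n + 1)) ℂ := MvPolynomial.expand d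
  have hint : e.toRingHom.IsIntegral := by
    intro x
    induction x using MvPolynomial.induction_on with
    | C a =>
      have : (C a : MvPolynomial (Fin (n + 1)) ℂ) = e.toRingHom (C a) := by
        simp [e]
      rw [this]
      exact e.toRingHom.isIntegralElem_map
    | add p q hp hq => exact hp.add _ hq
    | mul_X p i hp =>
      refine hp.mul _ ?_
      refine ⟨Polynomial.X ^ d - Polynomial.C (X i), Polynomial.monic_X_pow_sub_C _ (by omega), ?_⟩
      simp [e]
  have hinj : Function.Injective e := MvPolynomial.expand_injective (by omega)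
  obtain ⟨P', hP', hP'Q⟩ : ∃ P' : Ideal (MvPolynomial (Fin (n + 1)) ℂ), P'.IsPrime ∧
      P'.comap e.toRingHom = Q := by
    let := e.toRingHom.toAlgebra
    have : Algebra.IsIntegral (MvPolynomial (Fin (n + 1)) ℂ) (MvPolynomial (Fin (n + 1)) ℂ) :=
      ⟨hint⟩
    refine Ideal.exists_ideal_over_prime_of_isIntegral_of_isDomain Q ?_
    intro x hx
    have : e.toRingHom x = 0 := hx
    have h2 : e x = e 0 := by rw [map_zero]; exact this
    rw [hinj h2]
    exact Q.zero_mem
  have hcomap : ∀ q, MvPolynomial.expand d q ∈ P' ↔ q ∈ Q := by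
    intro q
    rw [← hP'Q]
    rfl
  let 𝒜 := MvPolynomial.homogeneousSubmodule (Fin (n + 1)) ℂ
  have hle := Ideal.toIdeal_homogeneousCore_le 𝒜 P'
  refine ⟨(P'.homogeneousCore 𝒜).toIdeal, ⟨hP'.homogeneousCore, ?_, ?_⟩, ?_⟩
  · intro q hq D
    have h1 := (P'.homogeneousCore 𝒜).isHomogeneous D hq
    have h2 : ((DirectSum.decompose 𝒜 q) D : MvPolynomial (Fin (n + 1)) ℂ) =
        homogeneousComponent D q := MvPolynomial.decomposition.decompose'_apply q D
    rwa [h2] at h1
  · obtain ⟨i, hi⟩ := hQ.2.2
    refine ⟨i, fun h => hi ?_⟩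
    rw [← hcomap, MvPolynomial.expand_X]
    exact Ideal.pow_mem_of_mem _ (hle h) d (by omega)
  · intro q
    constructor
    · intro hq
      rw [← MvPolynomial.sum_homogeneousComponent q, map_sum]
      refine Ideal.sum_mem _ fun D _ => ?_
      refine Ideal.mem_homogeneousCore_of_homogeneous_of_mem
        ⟨d * D, isHomogeneous_expand d _ D (homogeneousComponent_isHomogeneous D q)⟩ ?_
      rw [hcomap]
      exact hQ.2.1 q hq D
    · intro hq
      exact (hcomap q).mp (hle hq)

end Pool.Agent.Campana
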