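import Pool.Agent.Lib_MP_1209e6_ag.Defs
import Pool.Agent.Lib_MP_1209e6_ag.Embed
import Pool.Agent.Lib_MP_b9fedf_ag.Toric

/-! Dense exponential curves have toric function fields. -/

set_option autoImplicit false

namespace Pool.Agent.Campana

namespace ExpA

/-- bookkeeping: a Laurent polynomial times a monomial is a homogeneous polynomial -/
lemma laurent_common {κ ι K : Type} [Fintype ι] [Field K] (T : Finset κ) (u : κ → ι → ℤ)
    (M E : ℕ) (a : κ → ι → ℕ) (ha : ∀ k ∈ T, ∀ i, (a k i : ℤ) = u k i + M)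
    (hE : ∀ k ∈ T, ∑ i, a k i ≤ E) (A : κ → K) (g : ι → K) (hg : ∀ i, g i ≠ 0) (L : K) :
    ∑ k ∈ T, A k * (∏ i, (L * g i) ^ a k i) * L ^ (E - ∑ i, a k i) =
      (L ^ E * ∏ i, g i ^ M) * ∑ k ∈ T, A k * mono g (u k) := by
  rw [Finset.mul_sum]
  apply Finset.sum_congr rfl
  intro k hk
  have h1 : ∏ i, (L * g i) ^ a k i = L ^ (∑ i, a k i) * ∏ i, g i ^ a k i := by
    simp_rw [mul_pow]
    rw [Finset.prod_mul_distrib, Finset.prod_pow_eq_pow_sum]
  have h2 : ∏ i, g i ^ a k i = (∏ i, g i ^ M) * mono g (u k) := by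
    unfold mono
    rw [← Finset.prod_mul_distrib]
    apply Finset.prod_congr rfl
    intro i _
    rw [← zpow_natCast (g i) (a k i), ha k hk i, zpow_add₀ (hg i), zpow_natCast, mul_comm]
  have h3 : L ^ (∑ i, a k i) * L ^ (E - ∑ i, a k i) = L ^ E := by
    rw [← pow_add, Nat.add_sub_cancel' (hE k hk)]
  rw [h1, h2, ← h3]
  ring

lemma not_mem_iff_ne {n : ℕ} (P : Ideal (MvPolynomial (Fin (n + 1)) ℂ))
    (c α : Fin (n + 1) → ℂ)
    (hP : ∀ (q : MvPolynomial (Fin (n + 1)) ℂ) (D : ℕ), q.IsHomogeneous D →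
      (q ∈ P ↔ ∀ z : ℂ, MvPolynomial.eval (fun i => c i * Complex.exp (α i * z)) q = 0))
    (i : Fin (n + 1)) : MvPolynomial.X i ∉ P ↔ c i ≠ 0 := by
  rw [hP (MvPolynomial.X i) 1 (MvPolynomial.isHomogeneous_X _ _)]
  simp only [MvPolynomial.eval_X, mul_eq_zero, Complex.exp_ne_zero, or_false, forall_const]

open Classical in
/-- Vanishing of Laurent polynomials in the ratios is vanishing on the exponential curve. -/
lemma key_sum {n : ℕ} (P : Ideal (MvPolynomial (Fin (n + 1)) ℂ)) [P.IsPrime]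
    (j₀ : Fin (n + 1)) (hj₀ : MvPolynomial.X j₀ ∉ P) (c α : Fin (n + 1) → ℂ)
    (hP : ∀ (q : MvPolynomial (Fin (n + 1)) ℂ) (D : ℕ), q.IsHomogeneous D →
      (q ∈ P ↔ ∀ z : ℂ, MvPolynomial.eval (fun i => c i * Complex.exp (α i * z)) q = 0))
    (hη : ∀ i : {i // MvPolynomial.X (R := ℂ) i ∉ P}, ratio P i.1 j₀ ≠ 0)
    (h1 : ratio P j₀ j₀ = 1)
    {κ : Type} (T : Finset κ) (A : κ → ℂ)
    (u : κ → {i // MvPolynomial.X (R := ℂ) i ∉ P} → ℤ) :
    ∑ k ∈ T, algebraMap ℂ (FunField P) (A k) *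
        mono (fun i : {i // MvPolynomial.X (R := ℂ) i ∉ P} => ratio P i.1 j₀) (u k) = 0 ↔
      ∀ z : ℂ, ∑ k ∈ T, A k * mono (fun i : {i // MvPolynomial.X (R := ℂ) i ∉ P} =>
        c i.1 / c j₀ * Complex.exp ((α i.1 - α j₀) * z)) (u k) = 0 := by
  have hc : ∀ i, MvPolynomial.X i ∉ P ↔ c i ≠ 0 := not_mem_iff_ne P c α hP
  have hcj : c j₀ ≠ 0 := (hc j₀).mp hj₀
  -- the exponents
  set M : ℕ := ∑ k ∈ T, ∑ i, (u k i).natAbs with hM
  have hMk : ∀ k ∈ T, ∀ i, (u k i).natAbs ≤ M := by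
    intro k hk i
    refine (Finset.single_le_sum (f := fun i => (u k i).natAbs) (fun i _ => Nat.zero_le _)
      (Finset.mem_univ i)).trans ?_
    exact Finset.single_le_sum (f := fun k => ∑ i, (u k i).natAbs) (fun _ _ => Nat.zero_le _) hk
  set a : κ → {i // MvPolynomial.X (R := ℂ) i ∉ P} → ℕ := fun k i => (u k i + M).toNat with ha
  have ha' : ∀ k ∈ T, ∀ i, (a k i : ℤ) = u k i + M := by
    intro k hk i
    rw [ha]
    apply Int.toNat_of_nonneg
    have := hMk k hk i
    omega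
  set E : ℕ := ∑ k ∈ T, ∑ i, a k i with hE
  have hE' : ∀ k ∈ T, ∑ i, a k i ≤ E := by
    intro k hk
    exact Finset.single_le_sum (f := fun k => ∑ i, a k i) (fun _ _ => Nat.zero_le _) hk
  set q : MvPolynomial (Fin (n + 1)) ℂ := ∑ k ∈ T, MvPolynomial.C (A k) *
    (∏ i : {i // MvPolynomial.X (R := ℂ) i ∉ P}, MvPolynomial.X i.1 ^ a k i) *
      MvPolynomial.X j₀ ^ (E - ∑ i, a k i) with hq
  have hqh : q.IsHomogeneous E := by
    apply MvPolynomial.IsHomogeneous.sum
    intro k hk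
    have h2 : (MvPolynomial.C (A k) * (∏ i : {i // MvPolynomial.X (R := ℂ) i ∉ P},
        MvPolynomial.X i.1 ^ a k i) * MvPolynomial.X j₀ ^ (E - ∑ i, a k i) :
        MvPolynomial (Fin (n + 1)) ℂ).IsHomogeneous (0 + (∑ i, a k i) + (E - ∑ i, a k i)) := by
      apply MvPolynomial.IsHomogeneous.mul
      · apply MvPolynomial.IsHomogeneous.mul
        · exact MvPolynomial.isHomogeneous_C _ _
        · apply MvPolynomial.IsHomogeneous.prod
          intro i _
          simpa using (MvPolynomial.isHomogeneous_X ℂ i.1).pow (a k i)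
      · simpa using (MvPolynomial.isHomogeneous_X ℂ j₀).pow (E - ∑ i, a k i)
    rwa [zero_add, Nat.add_sub_cancel' (hE' k hk)] at h2
  have hA : MvPolynomial.aeval (fun i => ratio P i j₀) q = 
      (1 ^ E * ∏ i : {i // MvPolynomial.X (R := ℂ) i ∉ P}, ratio P i.1 j₀ ^ M) *
        ∑ k ∈ T, algebraMap ℂ (FunField P) (A k) *
        mono (fun i : {i // MvPolynomial.X (R := ℂ) i ∉ P} => ratio P i.1 j₀) (u k) := by
    rw [← laurent_common T u M E a ha' hE' (fun k => algebraMap ℂ (FunField P) (A k)) _ hη 1, hq]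
    simp only [map_sum, map_mul, map_prod, map_pow, MvPolynomial.aeval_X, MvPolynomial.aeval_C,
      h1, one_mul]
  have hB : ∀ z : ℂ, MvPolynomial.eval (fun i => c i * Complex.exp (α i * z)) q =
      ((c j₀ * Complex.exp (α j₀ * z)) ^ E * ∏ i : {i // MvPolynomial.X (R := ℂ) i ∉ P},
        (c i.1 / c j₀ * Complex.exp ((α i.1 - α j₀) * z)) ^ M) *
      ∑ k ∈ T, A k * mono (fun i : {i // MvPolynomial.X (R := ℂ) i ∉ P} =>
        c i.1 / c j₀ * Complex.exp ((α i.1 - α j₀) * z)) (u k) := by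
    intro z
    rw [← laurent_common T u M E a ha' hE' A _ (fun i => mul_ne_zero
      (div_ne_zero ((hc i.1).mp i.2) hcj) (Complex.exp_ne_zero _)), hq]
    simp only [map_sum, map_mul, map_prod, map_pow, MvPolynomial.eval_X, MvPolynomial.eval_C]
    apply Finset.sum_congr rfl
    intro k _
    congr 2
    apply Finset.prod_congr rfl
    intro i _
    congr 1
    rw [sub_mul, Complex.exp_sub]
    field_simp
  have hK := eval_ratio P j₀ hj₀ q E hqh
  rw [hP q E hqh, hA] at hK
  constructor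
  · intro h z
    have h2 := hK.mpr (by rw [h, mul_zero]) z
    rw [hB z] at h2
    refine (mul_eq_zero.mp h2).resolve_left (mul_ne_zero (pow_ne_zero _ (mul_ne_zero hcj
      (Complex.exp_ne_zero _))) ?_)
    exact Finset.prod_ne_zero_iff.mpr fun i _ => pow_ne_zero _ (mul_ne_zero
      (div_ne_zero ((hc i.1).mp i.2) hcj) (Complex.exp_ne_zero _))
  · intro h
    have h2 := hK.mp (fun z => by rw [hB z, h z, mul_zero])
    refine (mul_eq_zero.mp h2).resolve_left (mul_ne_zero (by simp) ?_)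
    exact Finset.prod_ne_zero_iff.mpr fun i _ => pow_ne_zero _ (hη i)

lemma coord_ne_zero {n : ℕ} (P : Ideal (MvPolynomial (Fin (n + 1)) ℂ)) [P.IsPrime]
    (i : Fin (n + 1)) (hi : MvPolynomial.X i ∉ P) : coord P i ≠ 0 := by
  intro h
  rw [coord, map_eq_zero_iff _ (IsFractionRing.injective _ _)] at h
  exact hi (Ideal.Quotient.eq_zero_iff_mem.mp h)

lemma ratio_self {n : ℕ} (P : Ideal (MvPolynomial (Fin (n + 1)) ℂ)) [P.IsPrime]
    (i : Fin (n + 1)) (hi : MvPolynomial.X i ∉ P) : ratio P i i = 1 := by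
  apply FunField.val_injective P
  rw [val_ratio, map_one, div_self (coord_ne_zero P i hi)]

lemma ratio_ne_zero' {n : ℕ} (P : Ideal (MvPolynomial (Fin (n + 1)) ℂ)) [P.IsPrime]
    (i j : Fin (n + 1)) (hi : MvPolynomial.X i ∉ P) (hj : MvPolynomial.X j ∉ P) :
    ratio P i j ≠ 0 := by
  intro h
  have h1 : coord P i / coord P j = 0 := by
    rw [← val_ratio, h, map_zero]
  exact (div_ne_zero (coord_ne_zero P i hi) (coord_ne_zero P j hj)) h1

lemma mono_zero_exp {K ι : Type} [Field K] [Fintype ι] (g : ι → K) :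
    mono g (0 : ι → ℤ) = 1 := by
  simp [mono]

lemma prod_zpow_eq_zpow_sum {K κ : Type} [Field K] (a : K) (ha : a ≠ 0) (s : Finset κ)
    (f : κ → ℤ) : ∏ k ∈ s, a ^ f k = a ^ ∑ k ∈ s, f k := by
  classical
  induction s using Finset.induction_on with
  | empty => simp
  | insert k s hk ih => rw [Finset.prod_insert hk, Finset.sum_insert hk, ih, zpow_add₀ ha]

/-- a product of powers of monomials is a monomial -/
lemma prod_mono_zpow {K ι : Type} [Field K] [Fintype ι] (g : ι → K) (hg : ∀ i, g i ≠ 0)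
    {r : ℕ} (w : Fin r → ι → ℤ) (v : Fin r → ℤ) :
    ∏ j, mono g (w j) ^ v j = mono g (fun i => ∑ j, v j * w j i) := by
  unfold mono
  simp_rw [← Finset.prod_zpow]
  rw [Finset.prod_comm]
  apply Finset.prod_congr rfl
  intro i _
  rw [← prod_zpow_eq_zpow_sum (g i) (hg i)]
  apply Finset.prod_congr rfl
  intro j _
  rw [← zpow_mul, mul_comm]

/-- a monomial in the coordinates of the exponential curve -/
lemma mono_exp {ι : Type} [Fintype ι] (b β : ι → ℂ) (u : ι → ℤ) (z : ℂ) :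
    mono (fun i => b i * Complex.exp (β i * z)) u =
      (∏ i, b i ^ u i) * Complex.exp ((∑ i, (u i : ℂ) * β i) * z) := by
  unfold mono
  rw [Finset.sum_mul, Complex.exp_sum, ← Finset.prod_mul_distrib]
  apply Finset.prod_congr rfl
  intro i _
  rw [mul_zpow, ← Complex.exp_int_mul]
  congr 2
  ring

end ExpA

open ExpA

open Classical in
/-- PIECE B2a. -/
theorem toric_of_expDense {n : ℕ} (P : Ideal (MvPolynomial (Fin (n + 1)) ℂ)) [P.IsPrime]
    (j₀ : Fin (n + 1)) (hj₀ : MvPolynomial.X j₀ ∉ P) (h : ExpDense P) :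
    ToricGen (fun i : {i // MvPolynomial.X (R := ℂ) i ∉ P} => ratio P i.1 j₀) := by
  obtain ⟨c, α, -, hP⟩ := h
  have hη : ∀ i : {i // MvPolynomial.X (R := ℂ) i ∉ P}, ratio P i.1 j₀ ≠ 0 :=
    fun i => ratio_ne_zero' P i.1 j₀ i.2 hj₀
  have hc : ∀ i, MvPolynomial.X i ∉ P ↔ c i ≠ 0 := not_mem_iff_ne P c α hP
  have hcj : c j₀ ≠ 0 := (hc j₀).mp hj₀
  set η : {i // MvPolynomial.X (R := ℂ) i ∉ P} → FunField P := fun i => ratio P i.1 j₀ with hηdef
  set b : {i // MvPolynomial.X (R := ℂ) i ∉ P} → ℂ := fun i => c i.1 / c j₀ with hb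
  set β : {i // MvPolynomial.X (R := ℂ) i ∉ P} → ℂ := fun i => α i.1 - α j₀ with hβ
  have hb0 : ∀ i, b i ≠ 0 := fun i => div_ne_zero ((hc i.1).mp i.2) hcj
  have key : ∀ {κ : Type} (T : Finset κ) (A : κ → ℂ)
      (u : κ → {i // MvPolynomial.X (R := ℂ) i ∉ P} → ℤ),
      ∑ k ∈ T, algebraMap ℂ (FunField P) (A k) * mono η (u k) = 0 ↔
      ∀ z : ℂ, ∑ k ∈ T, A k * ((∏ i, b i ^ u k i) *
        Complex.exp ((∑ i, (u k i : ℂ) * β i) * z)) = 0 := by
    intro κ T A u
    rw [key_sum P j₀ hj₀ c α hP hη (ratio_self P j₀ hj₀) T A u]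
    simp_rw [← mono_exp b β]
    exact Iff.rfl
  intro r w hw
  rw [algebraicIndependent_iff]
  intro F hF
  -- exponent vectors
  set u : (Fin r →₀ ℕ) → {i // MvPolynomial.X (R := ℂ) i ∉ P} → ℤ :=
    fun s i => ∑ j, (s j : ℤ) * w j i with hu
  set B : (Fin r →₀ ℕ) → ℂ := fun s => ∑ i, (u s i : ℂ) * β i with hB
  have h1 : ∑ s ∈ F.support, algebraMap ℂ (FunField P) (MvPolynomial.coeff s F) *
      mono η (u s) = 0 := by
    rw [← hF, MvPolynomial.aeval_def, MvPolynomial.eval₂_eq']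
    apply Finset.sum_congr rfl
    intro s _
    congr 1
    rw [hu, ← prod_mono_zpow η hη w (fun j => (s j : ℤ))]
    simp only [zpow_natCast]
  rw [key F.support (fun s => MvPolynomial.coeff s F) u] at h1
  -- distinct exponents
  have h2 : ∀ s t : Fin r →₀ ℕ, B s = B t → s = t := by
    intro s t hst
    have h3 : mono η (fun i => ∑ j, ((s j : ℤ) - t j) * w j i) =
        algebraMap ℂ (FunField P) (∏ i, b i ^ (∑ j, ((s j : ℤ) - t j) * w j i)) := by
      have h4 := (key (κ := Fin 2) Finset.univ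
        ![1, -(∏ i, b i ^ (∑ j, ((s j : ℤ) - t j) * w j i))]
        ![fun i => ∑ j, ((s j : ℤ) - t j) * w j i, 0]).mpr ?_
      · simp only [Fin.sum_univ_two, Matrix.cons_val_zero, Matrix.cons_val_one, map_one, one_mul,
          map_neg, mono_zero_exp, mul_one] at h4
        exact (add_neg_eq_zero.mp h4)
      · intro z
        simp only [Fin.sum_univ_two, Matrix.cons_val_zero, Matrix.cons_val_one, one_mul]
        have h5 : ∑ i, ((∑ j, ((s j : ℤ) - t j) * w j i : ℤ) : ℂ) * β i = 0 := by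
          have h6 : ∑ i, ((∑ j, ((s j : ℤ) - t j) * w j i : ℤ) : ℂ) * β i = B s - B t := by
            rw [hB]
            simp only [hu]
            rw [← Finset.sum_sub_distrib]
            apply Finset.sum_congr rfl
            intro i _
            rw [← sub_mul]
            congr 1
            rw [← Int.cast_sub, ← Finset.sum_sub_distrib]
            congr 1
            apply Finset.sum_congr rfl
            intro j _
            ring
          rw [h6, hst, sub_self]
        rw [h5]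
        simp
    have h7 := hw.2 (fun j => (s j : ℤ) - t j) ⟨_, by rw [prod_mono_zpow η hη w]; exact h3⟩
    ext j
    have := congrFun h7 j
    simp only [Pi.zero_apply] at this
    omega
  ext s
  rw [MvPolynomial.coeff_zero]
  by_cases hs : s ∈ F.support
  · have h8 := Pool.Agent.GGL.exp_coeff_zero F.support B
      (fun s => MvPolynomial.coeff s F * ∏ i, b i ^ u s i)
      (fun z => by rw [← h1 z]; apply Finset.sum_congr rfl; intro s _; ring) (B s)
    have h9 : F.support.filter (fun t => B t = B s) = {s} := by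
      ext t
      rw [Finset.mem_filter, Finset.mem_singleton]
      exact ⟨fun h => h2 t s h.2, fun h => by rw [h]; exact ⟨hs, rfl⟩⟩
    rw [h9, Finset.sum_singleton] at h8
    exact (mul_eq_zero.mp h8).resolve_right
      (Finset.prod_ne_zero_iff.mpr fun i _ => zpow_ne_zero _ (hb0 i))
  · exact MvPolynomial.notMem_support_iff.mp hs

end Pool.Agent.Campana
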