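import Pool.Agent.Lib_MP_1209e6_ag.Defs

/-! Piece T: fields generated by toric elements are purely transcendental. -/

set_option autoImplicit false

namespace Pool.Agent.Campana

section mono

variable {K ι : Type} [Field K] [Fintype ι]

lemma mono_zero (η : ι → K) : mono η 0 = 1 := by
  simp [mono]

lemma mono_add (η : ι → K) (hη : ∀ i, η i ≠ 0) (v w : ι → ℤ) :
    mono η (v + w) = mono η v * mono η w := by
  unfold mono
  rw [← Finset.prod_mul_distrib]
  exact Finset.prod_congr rfl fun i _ => by rw [Pi.add_apply, zpow_add₀ (hη i)]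

lemma mono_zsmul (η : ι → K) (n : ℤ) (v : ι → ℤ) :
    mono η (n • v) = mono η v ^ n := by
  unfold mono
  rw [← Finset.prod_zpow]
  exact Finset.prod_congr rfl fun i _ => by rw [Pi.smul_apply, smul_eq_mul, mul_comm, zpow_mul]

lemma mono_neg (η : ι → K) (v : ι → ℤ) :
    mono η (-v) = (mono η v)⁻¹ := by
  have := mono_zsmul η (-1) v
  rwa [neg_one_smul, zpow_neg_one] at this

lemma mono_ne_zero (η : ι → K) (hη : ∀ i, η i ≠ 0) (v : ι → ℤ) : mono η v ≠ 0 :=
  Finset.prod_ne_zero_iff.mpr fun i _ => zpow_ne_zero _ (hη i)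

lemma mono_sum (η : ι → K) (hη : ∀ i, η i ≠ 0) {k : ℕ} (w : Fin k → ι → ℤ) (n : Fin k → ℤ) :
    mono η (∑ j, n j • w j) = ∏ j, mono η (w j) ^ n j := by
  have h : ∀ s : Finset (Fin k), mono η (∑ j ∈ s, n j • w j) = ∏ j ∈ s, mono η (w j) ^ n j := by
    intro s
    induction s using Finset.induction_on with
    | empty => simp [mono_zero]
    | insert a s ha ih =>
      rw [Finset.sum_insert ha, Finset.prod_insert ha, mono_add η hη, mono_zsmul, ih]
  exact h _

lemma mono_single [DecidableEq ι] (η : ι → K) (i : ι) : mono η (Pi.single i 1) = η i := by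
  unfold mono
  rw [Finset.prod_eq_single i]
  · simp
  · intro j _ hj
    simp [Pi.single_eq_of_ne hj]
  · simp

lemma mono_pow (ξ : ι → K) (w : ι → ℤ) (d : ℕ) :
    mono (fun i => ξ i ^ d) w = mono ξ w ^ d := by
  unfold mono
  rw [← Finset.prod_pow]
  refine Finset.prod_congr rfl fun i _ => ?_
  change (ξ i ^ d) ^ w i = (ξ i ^ w i) ^ d
  rw [← zpow_natCast, ← zpow_natCast, ← zpow_mul, ← zpow_mul, mul_comm]

end mono

/-- an element a power of which is constant is constant -/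
lemma const_of_pow {K : Type} [Field K] [Algebra ℂ K] (x : K) (n : ℕ) (hn : n ≠ 0) (c : ℂ)
    (h : x ^ n = algebraMap ℂ K c) : ∃ c' : ℂ, x = algebraMap ℂ K c' := by
  have h1 : IsAlgebraic ℂ x := by
    refine ⟨Polynomial.X ^ n - Polynomial.C c, Polynomial.X_pow_sub_C_ne_zero
      (Nat.pos_of_ne_zero hn) c, ?_⟩
    simp [h]
  have h2 : IsIntegral ℂ x := h1.isIntegral
  have h3 := IsAlgClosed.algebraMap_bijective_of_isIntegral (k := ℂ) (K := (integralClosure ℂ K))
  obtain ⟨c', hc'⟩ := h3.2 ⟨x, h2⟩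
  exact ⟨c', by simpa using (congrArg Subtype.val hc').symm⟩

lemma const_of_zpow {K : Type} [Field K] [Algebra ℂ K] (x : K) (n : ℤ) (hn : n ≠ 0) (c : ℂ)
    (h : x ^ n = algebraMap ℂ K c) : ∃ c' : ℂ, x = algebraMap ℂ K c' := by
  obtain ⟨m, rfl | rfl⟩ := n.eq_nat_or_neg
  · exact const_of_pow x m (by simpa using hn) c (by simpa using h)
  · refine const_of_pow x m (by simpa using hn) c⁻¹ ?_
    rw [zpow_neg, zpow_natCast] at h
    rw [map_inv₀, ← h, inv_inv]

/-- the exponents of constant monomials -/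
noncomputable def constLat {K ι : Type} [Field K] [Algebra ℂ K] [Fintype ι] (η : ι → K)
    (hη : ∀ i, η i ≠ 0) : Submodule ℤ (ι → ℤ) where
  carrier := {v | ∃ c : ℂ, mono η v = algebraMap ℂ K c}
  add_mem' := by
    rintro v w ⟨c, hc⟩ ⟨c', hc'⟩
    exact ⟨c * c', by rw [mono_add η hη, hc, hc', map_mul]⟩
  zero_mem' := ⟨1, by rw [mono_zero, map_one]⟩
  smul_mem' := by
    rintro n v ⟨c, hc⟩
    exact ⟨c ^ n, by rw [mono_zsmul, hc, map_zpow₀]⟩

lemma mem_constLat {K ι : Type} [Field K] [Algebra ℂ K] [Fintype ι] (η : ι → K)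
    (hη : ∀ i, η i ≠ 0) (v : ι → ℤ) :
    v ∈ constLat η hη ↔ ∃ c : ℂ, mono η v = algebraMap ℂ K c := Iff.rfl

instance {K ι : Type} [Field K] [Algebra ℂ K] [Fintype ι] (η : ι → K)
    (hη : ∀ i, η i ≠ 0) : Module.IsTorsionFree ℤ ((ι → ℤ) ⧸ constLat η hη) := by
  rw [Module.isTorsionFree_iff_smul_eq_zero]
  intro n x h
  obtain ⟨v, rfl⟩ := Submodule.Quotient.mk_surjective _ x
  by_cases hn : n = 0
  · exact Or.inl hn
  · refine Or.inr ?_
    rw [← Submodule.Quotient.mk_smul, Submodule.Quotient.mk_eq_zero] at h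
    rw [Submodule.Quotient.mk_eq_zero]
    obtain ⟨c, hc⟩ := h
    rw [mono_zsmul] at hc
    exact const_of_zpow _ n hn c hc

/-- PIECE T (ToricField.lean, imports Defs), two statements. -/
theorem rational_of_toric {K ι : Type} [Field K] [Algebra ℂ K] [Fintype ι] (η : ι → K)
    (hη : ∀ i, η i ≠ 0) (hgen : IntermediateField.adjoin ℂ (Set.range η) = ⊤)
    (h : ToricGen η) :
    ∃ (k : ℕ) (s : Fin k → K), AlgebraicIndependent ℂ s ∧ (∀ j, s j ≠ 0) ∧
      IntermediateField.adjoin ℂ (Set.range s) = ⊤ ∧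
      ∀ i, ∃ (c : ℂ) (v : Fin k → ℤ), c ≠ 0 ∧ η i = algebraMap ℂ K c * ∏ j, s j ^ v j := by
  classical
  obtain ⟨k, b⟩ := Module.basisOfFiniteTypeTorsionFree' (R := ℤ) (M := (ι → ℤ) ⧸ constLat η hη)
  choose w hw using fun j => Submodule.Quotient.mk_surjective (constLat η hη) (b j)
  have hlin : ∀ n : Fin k → ℤ, Submodule.Quotient.mk (p := constLat η hη) (∑ j, n j • w j) =
      ∑ j, n j • b j := by
    intro n
    rw [← Submodule.mkQ_apply, map_sum]
    refine Finset.sum_congr rfl fun j _ => ?_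
    rw [map_smul, Submodule.mkQ_apply, hw]
  have hmi : MultIndep (fun j => mono η (w j)) := by
    refine ⟨fun j => mono_ne_zero η hη _, fun v hv => ?_⟩
    obtain ⟨c, hc⟩ := hv
    have h1 : ∑ j, v j • w j ∈ constLat η hη := ⟨c, by rw [mono_sum η hη, hc]⟩
    rw [← Submodule.Quotient.mk_eq_zero, hlin] at h1
    funext j
    exact Fintype.linearIndependent_iff.mp b.linearIndependent v h1 j
  have hrep : ∀ i, ∃ (c : ℂ) (v : Fin k → ℤ), c ≠ 0 ∧
      η i = algebraMap ℂ K c * ∏ j, mono η (w j) ^ v j := by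
    intro i
    let x : (ι → ℤ) ⧸ constLat η hη := Submodule.Quotient.mk (Pi.single i 1)
    have h1 : Submodule.Quotient.mk (p := constLat η hη)
        (Pi.single i 1 - ∑ j, (b.repr x j) • w j) = 0 := by
      rw [Submodule.Quotient.mk_sub, hlin, b.sum_repr, sub_self]
    rw [Submodule.Quotient.mk_eq_zero] at h1
    obtain ⟨c, hc⟩ := h1
    refine ⟨c, fun j => b.repr x j, ?_, ?_⟩
    · rintro rfl
      rw [map_zero] at hc
      exact mono_ne_zero η hη _ hc
    · rw [← hc, ← mono_sum η hη, ← mono_add η hη, sub_add_cancel, mono_single]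
  refine ⟨k, fun j => mono η (w j), h k w hmi, fun j => mono_ne_zero η hη _, ?_, hrep⟩
  rw [eq_top_iff, ← hgen, IntermediateField.adjoin_le_iff]
  rintro _ ⟨i, rfl⟩
  obtain ⟨c, v, _, hv⟩ := hrep i
  rw [hv]
  refine mul_mem (IntermediateField.algebraMap_mem _ c) (prod_mem fun j _ => ?_)
  exact zpow_mem (IntermediateField.subset_adjoin ℂ _ (Set.mem_range_self j)) _

/-- if the `d`-th powers are algebraically independent, so are the elements -/
lemma algInd_of_pow {K : Type} [Field K] [Algebra ℂ K] {r : ℕ} (t : Fin r → K) (d : ℕ)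
    (h : AlgebraicIndependent ℂ (fun j => t j ^ d)) : AlgebraicIndependent ℂ t := by
  let A := Algebra.adjoin ℂ (Set.range t)
  let t' : Fin r → A := fun j => ⟨t j, Algebra.subset_adjoin ⟨j, rfl⟩⟩
  have htop : Algebra.adjoin ℂ (Set.range t') = ⊤ := by
    have h1 := Algebra.adjoin_range_eq_range_aeval ℂ t'
    rw [eq_top_iff]
    rintro ⟨x, hx⟩ -
    rw [h1]
    have h2 := hx
    change x ∈ Algebra.adjoin ℂ (Set.range t) at h2
    rw [Algebra.adjoin_range_eq_range_aeval ℂ t] at h2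
    obtain ⟨p, hp⟩ := h2
    refine ⟨p, ?_⟩
    apply Subtype.ext
    have h3 : (A.val) (MvPolynomial.aeval t' p) = MvPolynomial.aeval (fun j => A.val (t' j)) p := by
      rw [← AlgHom.comp_apply, MvPolynomial.comp_aeval]
    change (A.val) (MvPolynomial.aeval t' p) = x
    rw [h3]
    exact hp
  have halg : Algebra.IsAlgebraic (Algebra.adjoin ℂ (Set.range t')) A := by
    rw [htop]
    constructor
    intro a
    exact isAlgebraic_algebraMap (⟨a, Algebra.mem_top⟩ : (⊤ : Subalgebra ℂ A))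
  have h' : AlgebraicIndependent ℂ (fun j => t' j ^ d) := by
    apply AlgebraicIndependent.of_comp A.val
    exact h
  have hcard := h'.cardinalMk_le_trdeg
  have hb := Algebra.IsAlgebraic.isTranscendenceBasis_of_le_trdeg_of_finite ℂ t' hcard
  exact hb.1.map' (f := A.val) Subtype.val_injective

theorem toric_lift {E K ι : Type} [Field E] [Algebra ℂ E] [Field K] [Algebra ℂ K] [Fintype ι]
    (ψ : E →ₐ[ℂ] K) (η : ι → E) (ξ : ι → K) (hξ : ∀ i, ξ i ≠ 0) (d : ℕ) (hd : 1 ≤ d)
    (h : ∀ i, ψ (η i) = ξ i ^ d) (hη : ToricGen η) : ToricGen ξ := by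
  intro r w hw
  have hη0 : ∀ i, η i ≠ 0 := by
    intro i hi
    have h1 := h i
    rw [hi, map_zero] at h1
    exact pow_ne_zero d (hξ i) h1.symm
  have hψ : ∀ v : ι → ℤ, ψ (mono η v) = mono ξ v ^ d := by
    intro v
    rw [← mono_pow]
    unfold mono
    rw [map_prod]
    exact Finset.prod_congr rfl fun i _ => by rw [map_zpow₀, h]
  have hmi : MultIndep (fun j => mono η (w j)) := by
    refine ⟨fun j => mono_ne_zero η hη0 _, fun v hv => ?_⟩
    obtain ⟨c, hc⟩ := hv
    apply hw.2 v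
    rw [← mono_sum η hη0] at hc
    have h1 := congrArg ψ hc
    rw [hψ, AlgHom.commutes] at h1
    obtain ⟨c', hc'⟩ := const_of_pow _ d (by omega) c h1
    exact ⟨c', by rw [← hc', mono_sum ξ hξ]⟩
  have h1 := (hη r w hmi).map' (f := ψ) ψ.toRingHom.injective
  apply algInd_of_pow _ d
  have h2 : (fun j => mono ξ (w j) ^ d) = ψ ∘ (fun j => mono η (w j)) := by
    funext j
    exact (hψ _).symm
  rw [h2]
  exact h1

end Pool.Agent.Campana
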