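import Pool.Agent.Lib_MP_1209e6_ag.Defs
import Pool.Agent.Lib_MP_b9fedf_ag.Toric
import Pool.Agent.Lib_MP_1209e6_ag.Embed
import Pool.Agent.Lib_MP_1209e6_ag.ToricField

/-! Toric ratios give a dense exponential curve. -/

set_option autoImplicit false

namespace Pool.Agent.Campana

/-- Laurent monomials in algebraically independent elements are linearly independent. -/
lemma laurent_coeff_zero {K ι : Type} [Field K] [Algebra ℂ K] {k : ℕ} (s : Fin k → K)
    (hs : AlgebraicIndependent ℂ s) (h0 : ∀ j, s j ≠ 0) (T : Finset ι) (A : ι → Fin k → ℤ)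
    (c : ι → ℂ) (h : ∑ i ∈ T, algebraMap ℂ K (c i) * ∏ j, s j ^ A i j = 0) (w : Fin k → ℤ) :
    ∑ i ∈ T with A i = w, c i = 0 := by
  classical
  by_cases hw : ∃ i₀ ∈ T, A i₀ = w
  swap
  · rw [Finset.sum_eq_zero]
    intro i hi
    rw [Finset.mem_filter] at hi
    exact absurd ⟨i, hi⟩ hw
  obtain ⟨i₀, hi₀, rfl⟩ := hw
  obtain ⟨N, hN⟩ : ∃ N : ℕ, ∀ i ∈ T, ∀ j, 0 ≤ A i j + N := by
    refine ⟨∑ i ∈ T, ∑ j, (A i j).natAbs, fun i hi j => ?_⟩
    have h1 : (A i j).natAbs ≤ ∑ j, (A i j).natAbs :=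
      Finset.single_le_sum (f := fun j => (A i j).natAbs) (fun _ _ => Nat.zero_le _)
        (Finset.mem_univ j)
    have h2 : ∑ j, (A i j).natAbs ≤ ∑ i ∈ T, ∑ j, (A i j).natAbs :=
      Finset.single_le_sum (f := fun i => ∑ j, (A i j).natAbs) (fun _ _ => Nat.zero_le _) hi
    omega
  let B : ι → Fin k →₀ ℕ := fun i =>
    Finsupp.equivFunOnFinite.symm fun j => (A i j + N).toNat
  have hB : ∀ i j, B i j = (A i j + N).toNat := fun i j => rfl
  let p : MvPolynomial (Fin k) ℂ := ∑ i ∈ T, MvPolynomial.monomial (B i) (c i)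
  have hp : MvPolynomial.aeval s p = 0 := by
    have h1 : MvPolynomial.aeval s p =
        (∏ j, s j ^ (N : ℤ)) * ∑ i ∈ T, algebraMap ℂ K (c i) * ∏ j, s j ^ A i j := by
      rw [map_sum, Finset.mul_sum]
      apply Finset.sum_congr rfl
      intro i hi
      rw [MvPolynomial.aeval_monomial, mul_left_comm, ← Finset.prod_mul_distrib,
        Finsupp.prod_fintype _ _ (fun j => pow_zero _)]
      congr 1
      apply Finset.prod_congr rfl
      intro j _
      rw [← zpow_add₀ (h0 j), hB, ← zpow_natCast, Int.toNat_of_nonneg (hN i hi j), add_comm]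
    rw [h1, h, mul_zero]
  have hp0 : p = 0 := by
    have h2 := hs
    rw [AlgebraicIndependent, injective_iff_map_eq_zero] at h2
    exact h2 p hp
  have h3 : MvPolynomial.coeff (B i₀) p = 0 := by rw [hp0, MvPolynomial.coeff_zero]
  rw [MvPolynomial.coeff_sum] at h3
  simp only [MvPolynomial.coeff_monomial] at h3
  rw [← Finset.sum_filter] at h3
  rw [← h3]
  apply Finset.sum_congr _ fun _ _ => rfl
  apply Finset.filter_congr
  intro i hi
  constructor
  · intro h4
    ext j
    rw [hB, hB, h4]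
  · intro h4
    ext j
    have h5 := DFunLike.congr_fun h4 j
    rw [hB, hB] at h5
    have h6 := hN i hi j
    have h7 := hN i₀ hi₀ j
    omega

open Classical in
theorem expDense_of_toric {n : ℕ} (P : Ideal (MvPolynomial (Fin (n + 1)) ℂ)) [P.IsPrime]
    (j₀ : Fin (n + 1)) (hj₀ : MvPolynomial.X j₀ ∉ P)
    (h : ToricGen (fun i : {i // MvPolynomial.X (R := ℂ) i ∉ P} => ratio P i.1 j₀)) :
    ExpDense P := by
  have hcoord : ∀ i, coord P i = 0 ↔ MvPolynomial.X i ∈ P := by
    intro i
    rw [coord, map_eq_zero_iff _ (IsFractionRing.injective _ _)]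
    exact Ideal.Quotient.eq_zero_iff_mem
  have hratio : ∀ i, ratio P i j₀ = 0 ↔ MvPolynomial.X i ∈ P := by
    intro i
    rw [← map_eq_zero_iff (FunField.val P) (FunField.val_injective P), val_ratio,
      div_eq_zero_iff, hcoord, hcoord]
    exact ⟨fun h2 => h2.resolve_right hj₀, Or.inl⟩
  obtain ⟨k, s, hs, hs0, _, hrep⟩ := rational_of_toric _
    (fun i h' => i.2 ((hratio i.1).mp h')) (adjoin_ratio P j₀ hj₀) h
  have hrep2 : ∀ i, ∃ (c : ℂ) (v : Fin k → ℤ), (MvPolynomial.X i ∉ P → c ≠ 0) ∧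
      ratio P i j₀ = algebraMap ℂ (FunField P) c * ∏ j, s j ^ v j := by
    intro i
    by_cases hi : MvPolynomial.X i ∈ P
    · refine ⟨0, 0, fun h' => absurd hi h', ?_⟩
      rw [(hratio i).mpr hi, map_zero, zero_mul]
    · obtain ⟨c, v, hc, hv⟩ := hrep ⟨i, hi⟩
      exact ⟨c, v, fun _ => hc, hv⟩
  choose c v hc hv using hrep2
  obtain ⟨γ, hγ⟩ := Pool.Agent.GGL.exists_functional (σ := Fin k) ⊥ (by
    intro m w hm hw
    rw [AddSubgroup.mem_bot] at hw ⊢
    exact (smul_eq_zero.mp hw).resolve_left hm)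
  simp only [AddSubgroup.mem_bot] at hγ
  let A : (Fin (n + 1) →₀ ℕ) → Fin k → ℤ := fun a j => ∑ i, (a i : ℤ) * v i j
  let α : Fin (n + 1) → ℂ := fun i => ∑ j, (v i j : ℂ) * γ j
  have hα : ∀ a : Fin (n + 1) →₀ ℕ, ∑ i, (a i : ℂ) * α i = ∑ j, (A a j : ℂ) * γ j := by
    intro a
    simp only [α, A, Finset.mul_sum, Int.cast_sum, Int.cast_mul, Int.cast_natCast, Finset.sum_mul]
    rw [Finset.sum_comm]
    simp only [mul_assoc]
  have hinj : ∀ a b : Fin (n + 1) →₀ ℕ, ∑ i, (a i : ℂ) * α i = ∑ i, (b i : ℂ) * α i ↔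
      A a = A b := by
    intro a b
    rw [hα, hα, ← sub_eq_zero, ← Finset.sum_sub_distrib, ← sub_eq_zero (a := A a), ← hγ]
    simp only [Pi.sub_apply, Int.cast_sub, sub_mul]
  refine ⟨c, α, ⟨j₀, hc j₀ hj₀⟩, fun q D hq => ?_⟩
  rw [eval_ratio P j₀ hj₀ q D hq]
  let C : (Fin (n + 1) →₀ ℕ) → ℂ := fun a => MvPolynomial.coeff a q * ∏ i, c i ^ a i
  have e1 : MvPolynomial.aeval (fun i => ratio P i j₀) q =
      ∑ a ∈ q.support, algebraMap ℂ (FunField P) (C a) * ∏ j, s j ^ A a j := by
    rw [MvPolynomial.aeval_def, MvPolynomial.eval₂_eq']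
    apply Finset.sum_congr rfl
    intro a _
    simp only [hv, mul_pow, Finset.prod_mul_distrib, C, map_mul, map_prod, map_pow, mul_assoc]
    congr 2
    simp only [← Finset.prod_pow]
    rw [Finset.prod_comm]
    apply Finset.prod_congr rfl
    intro j _
    simp only [A]
    have h9 : ∀ (T : Finset (Fin (n + 1))),
        ∏ x ∈ T, (s j ^ v x j) ^ a x = s j ^ ∑ i ∈ T, (a i : ℤ) * v i j := by
      intro T
      induction T using Finset.induction_on with
      | empty => simp
      | insert x T hx ih =>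
        rw [Finset.prod_insert hx, Finset.sum_insert hx, zpow_add₀ (hs0 j), ih, ← zpow_natCast,
          ← zpow_mul, mul_comm (v x j)]
    exact h9 _
  have e2 : ∀ z, MvPolynomial.eval (fun i => c i * Complex.exp (α i * z)) q =
      ∑ a ∈ q.support, C a * Complex.exp ((∑ i, (a i : ℂ) * α i) * z) := by
    intro z
    rw [MvPolynomial.eval_eq']
    apply Finset.sum_congr rfl
    intro a _
    simp only [mul_pow, Finset.prod_mul_distrib, C, mul_assoc]
    congr 2
    rw [Finset.sum_mul, Complex.exp_sum]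
    apply Finset.prod_congr rfl
    intro i _
    rw [← Complex.exp_nat_mul, mul_assoc]
  have key : (∀ w : Fin k → ℤ, ∑ a ∈ q.support with A a = w, C a = 0) ↔
      MvPolynomial.aeval (fun i => ratio P i j₀) q = 0 := by
    constructor
    · intro h1
      rw [e1]
      rw [← Finset.sum_fiberwise_of_maps_to (t := q.support.image A)
        (fun a ha => Finset.mem_image_of_mem A ha)]
      apply Finset.sum_eq_zero
      intro w _
      have h2 : ∀ a ∈ q.support.filter (fun a => A a = w),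
          algebraMap ℂ (FunField P) (C a) * ∏ j, s j ^ A a j =
            algebraMap ℂ (FunField P) (C a) * ∏ j, s j ^ w j := by
        intro a ha
        rw [(Finset.mem_filter.mp ha).2]
      rw [Finset.sum_congr rfl h2, ← Finset.sum_mul, ← map_sum, h1 w, map_zero, zero_mul]
    · intro h1 w
      rw [e1] at h1
      exact laurent_coeff_zero s hs hs0 q.support A C h1 w
  rw [← key]
  constructor
  · intro h1 z
    rw [e2]
    rw [← Finset.sum_fiberwise_of_maps_to (t := q.support.image A)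
      (fun a ha => Finset.mem_image_of_mem A ha)]
    apply Finset.sum_eq_zero
    intro w _
    have h2 : ∀ a ∈ q.support.filter (fun a => A a = w),
        C a * Complex.exp ((∑ i, (a i : ℂ) * α i) * z) =
          C a * Complex.exp ((∑ j, (w j : ℂ) * γ j) * z) := by
      intro a ha
      rw [hα, (Finset.mem_filter.mp ha).2]
    rw [Finset.sum_congr rfl h2, ← Finset.sum_mul, h1 w, zero_mul]
  · intro h1 w
    by_cases hw : ∃ a₀ ∈ q.support, A a₀ = w
    swap
    · rw [Finset.sum_eq_zero]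
      intro i hi
      rw [Finset.mem_filter] at hi
      exact absurd ⟨i, hi⟩ hw
    obtain ⟨a₀, _, rfl⟩ := hw
    have h2 := Pool.Agent.GGL.exp_coeff_zero q.support (fun a => ∑ i, (a i : ℂ) * α i) C
      (fun z => by rw [← e2 z]; exact h1 z) (∑ i, (a₀ i : ℂ) * α i)
    rw [← h2]
    apply Finset.sum_congr _ fun _ _ => rfl
    apply Finset.filter_congr
    intro a _
    exact (hinj a a₀).symm

end Pool.Agent.Campana
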