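import Mathlib

/-! PIECE D2: the total differential of an algebraic relation. -/

set_option autoImplicit false

namespace Pool.Agent.Campana

open Polynomial

/-- the differential of `x` is a combination of the differentials of the `a j` -/
def TotDiff {E : Type} [Field E] [Algebra ℂ E] {p : ℕ} (a : Fin p → E) (x : E) : Prop :=
  ∃ c : Fin p → E, ∀ (K : Type) [Field K] [Algebra ℂ K] (ψ : E →ₐ[ℂ] K) (D : Derivation ℂ K K),
    D (ψ x) = ∑ j, ψ (c j) * D (ψ (a j))

lemma TotDiff.self {E : Type} [Field E] [Algebra ℂ E] {p : ℕ} (a : Fin p → E) (i : Fin p) :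
    TotDiff a (a i) := by
  refine ⟨Pi.single i 1, fun K _ _ ψ D => ?_⟩
  rw [Finset.sum_eq_single i]
  · simp
  · intro j _ hj
    simp [Pi.single_eq_of_ne hj]
  · simp

lemma TotDiff.const {E : Type} [Field E] [Algebra ℂ E] {p : ℕ} (a : Fin p → E) (t : ℂ) :
    TotDiff a (algebraMap ℂ E t) := by
  refine ⟨fun _ => 0, fun K _ _ ψ D => ?_⟩
  simp

lemma TotDiff.add {E : Type} [Field E] [Algebra ℂ E] {p : ℕ} {a : Fin p → E} {x y : E}
    (hx : TotDiff a x) (hy : TotDiff a y) : TotDiff a (x + y) := by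
  obtain ⟨c, hc⟩ := hx
  obtain ⟨d, hd⟩ := hy
  refine ⟨fun j => c j + d j, fun K _ _ ψ D => ?_⟩
  simp only [map_add, add_mul, Finset.sum_add_distrib, hc K ψ D, hd K ψ D]

lemma TotDiff.mul {E : Type} [Field E] [Algebra ℂ E] {p : ℕ} {a : Fin p → E} {x y : E}
    (hx : TotDiff a x) (hy : TotDiff a y) : TotDiff a (x * y) := by
  obtain ⟨c, hc⟩ := hx
  obtain ⟨d, hd⟩ := hy
  refine ⟨fun j => x * d j + y * c j, fun K _ _ ψ D => ?_⟩
  simp only [map_mul, map_add, add_mul, Finset.sum_add_distrib, Derivation.leibniz, smul_eq_mul,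
    hc K ψ D, hd K ψ D, Finset.mul_sum, mul_assoc]

lemma TotDiff.inv {E : Type} [Field E] [Algebra ℂ E] {p : ℕ} {a : Fin p → E} {x : E}
    (hx : TotDiff a x) : TotDiff a x⁻¹ := by
  obtain ⟨c, hc⟩ := hx
  refine ⟨fun j => -(x⁻¹ ^ 2) * c j, fun K _ _ ψ D => ?_⟩
  simp only [map_inv₀, Derivation.leibniz_inv, smul_eq_mul, hc K ψ D, Finset.mul_sum, map_mul,
    map_neg, map_pow, mul_assoc]

lemma TotDiff.adjoin {E : Type} [Field E] [Algebra ℂ E] {p : ℕ} (a : Fin p → E) {x : E}
    (hx : x ∈ IntermediateField.adjoin ℂ (Set.range a)) : TotDiff a x := by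
  induction hx using IntermediateField.adjoin_induction with
  | mem x hx =>
    obtain ⟨i, rfl⟩ := hx
    exact TotDiff.self a i
  | algebraMap t => exact TotDiff.const a t
  | add x y _ _ hx hy => exact hx.add hy
  | inv x _ hx => exact hx.inv
  | mul x y _ _ hx hy => exact hx.mul hy

/-- the differential of a polynomial with coefficients in the field generated by the `a j` -/
lemma TotDiff.poly {E : Type} [Field E] [Algebra ℂ E] {p : ℕ} (a : Fin p → E) (z : E)
    (f : (IntermediateField.adjoin ℂ (Set.range a))[X]) :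
    ∃ c : Fin p → E, ∀ (K : Type) [Field K] [Algebra ℂ K] (ψ : E →ₐ[ℂ] K) (D : Derivation ℂ K K),
      D (ψ (aeval z f)) = ∑ j, ψ (c j) * D (ψ (a j)) + ψ (aeval z (derivative f)) * D (ψ z) := by
  induction f using Polynomial.induction_on with
  | C t =>
    obtain ⟨c, hc⟩ := TotDiff.adjoin a t.2
    refine ⟨c, fun K _ _ ψ D => ?_⟩
    rw [aeval_C, derivative_C, map_zero, map_zero, zero_mul, add_zero]
    exact hc K ψ D
  | add f g hf hg =>
    obtain ⟨c, hc⟩ := hf
    obtain ⟨d, hd⟩ := hg
    refine ⟨fun j => c j + d j, fun K _ _ ψ D => ?_⟩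
    simp only [map_add, add_mul, Finset.sum_add_distrib, hc K ψ D, hd K ψ D]
    ring
  | monomial n t h =>
    obtain ⟨c, hc⟩ := h
    refine ⟨fun j => z * c j, fun K _ _ ψ D => ?_⟩
    have h1 : (aeval z (C t * X ^ (n + 1)) : E) = z * aeval z (C t * X ^ n) := by
      simp only [map_mul, aeval_C, map_pow, aeval_X]
      ring
    have h2 : (aeval z (derivative (C t * X ^ (n + 1))) : E) =
        aeval z (C t * X ^ n) + z * aeval z (derivative (C t * X ^ n)) := by
      rw [show (C t * X ^ (n + 1) : (IntermediateField.adjoin ℂ (Set.range a))[X]) =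
        X * (C t * X ^ n) by ring, derivative_mul, derivative_X]
      simp only [map_mul, map_add, aeval_X, one_mul]
    rw [h1, h2, map_mul, Derivation.leibniz, hc K ψ D]
    simp only [smul_eq_mul, map_mul, map_add, Finset.mul_sum, mul_assoc, mul_add, add_mul]
    ring

/-- the differential of an element algebraic over the field generated by the `a j` -/
lemma TotDiff.algebraic {E : Type} [Field E] [Algebra ℂ E] {p : ℕ} (a : Fin p → E) {z : E}
    (hz : IsAlgebraic (IntermediateField.adjoin ℂ (Set.range a)) z) : TotDiff a z := by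
  have : CharZero E := charZero_of_injective_algebraMap (algebraMap ℂ E).injective
  set F := IntermediateField.adjoin ℂ (Set.range a) with hF
  have : CharZero F := charZero_of_injective_algebraMap (algebraMap ℂ F).injective
  have hint : IsIntegral F z := hz.isIntegral
  have hsep : (minpoly F z).Separable := (minpoly.irreducible hint).separable
  have hne : aeval z (derivative (minpoly F z)) ≠ 0 :=
    hsep.aeval_derivative_ne_zero (minpoly.aeval F z)
  obtain ⟨c, hc⟩ := TotDiff.poly a z (minpoly F z)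
  refine ⟨fun j => -(aeval z (derivative (minpoly F z)))⁻¹ * c j, fun K _ _ ψ D => ?_⟩
  have h := hc K ψ D
  rw [minpoly.aeval F z, map_zero, map_zero] at h
  have hne' : ψ (aeval z (derivative (minpoly F z))) ≠ 0 := by
    rw [Ne, map_eq_zero]
    exact hne
  simp only [map_mul, map_neg, map_inv₀, mul_assoc, ← Finset.mul_sum]
  rw [← mul_right_inj' hne']
  have h2 : ψ (aeval z (derivative (minpoly F z))) * D (ψ z) =
      -∑ j, ψ (c j) * D (ψ (a j)) := by
    linear_combination -h
  rw [h2]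
  field_simp

theorem dlog_relation {E : Type} [Field E] [Algebra ℂ E] {p : ℕ} (a : Fin (p + 1) → E)
    (ha : ∀ j, a j ≠ 0)
    (halg : IsAlgebraic (IntermediateField.adjoin ℂ (Set.range fun j : Fin p => a j.succ)) (a 0)) :
    ∃ c : Fin p → E, ∀ (K : Type) [Field K] [Algebra ℂ K] (ψ : E →ₐ[ℂ] K) (D : Derivation ℂ K K),
      D (ψ (a 0)) / ψ (a 0) = ∑ j, ψ (c j) * (D (ψ (a j.succ)) / ψ (a j.succ)) := by
  obtain ⟨c, hc⟩ := TotDiff.algebraic (fun j : Fin p => a j.succ) halg
  refine ⟨fun j => c j * a j.succ / a 0, fun K _ _ ψ D => ?_⟩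
  rw [hc K ψ D, Finset.sum_div]
  refine Finset.sum_congr rfl fun j _ => ?_
  have h0 : ψ (a 0) ≠ 0 := by
    rw [Ne, map_eq_zero]
    exact ha 0
  have hj : ψ (a j.succ) ≠ 0 := by
    rw [Ne, map_eq_zero]
    exact ha j.succ
  rw [map_div₀, map_mul]
  field_simp

end Pool.Agent.Campana
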