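import Pool.Agent.Lib_MP_1209e6_ag.Defs
import Pool.Agent.Lib_MP_1209e6_ag.Der
import Pool.Agent.Lib_MP_1209e6_ag.Rel
import Pool.Agent.Lib_MP_1209e6_ag.DlogIndep

/-! Piece G: a family which is not toric gives a logarithmic relation with algebraically independent
coefficients (minimal bad families, after Ax and Rosenlicht). -/

set_option autoImplicit false

namespace Pool.Agent.Campana



theorem gs_algInd_of_algebraic {E : Type} [Field E] [Algebra ℂ E] {p : ℕ} (x y : Fin p → E)
    (hx : AlgebraicIndependent ℂ x)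
    (h : ∀ j, IsAlgebraic (IntermediateField.adjoin ℂ (Set.range y)) (x j)) :
    AlgebraicIndependent ℂ y := by
  classical
  set M := AlgebraicIndependent.matroid ℂ E with hM
  have hI : M.Indep (Set.range x) :=
    AlgebraicIndependent.matroid_indep_iff.mpr hx.to_subtype_range
  have hsub : Set.range x ⊆ M.closure (Set.range y) := by
    rintro _ ⟨j, rfl⟩
    rw [hM, AlgebraicIndependent.matroid_closure_eq]
    exact IntermediateField.isAlgebraic_adjoin_iff.mp (h j)
  have h1 : (Set.range x).encard = p := by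
    rw [← Set.image_univ, hx.injective.encard_image]
    simp
  have h2 : (p : ℕ∞) ≤ M.eRk (Set.range y) := by
    rw [← M.eRk_closure_eq, ← h1, ← hI.eRk_eq_encard]
    exact M.eRk_mono hsub
  have h3 : (Set.range y).encard ≤ p := by
    rw [← Set.image_univ]
    refine (Set.encard_image_le _ _).trans ?_
    simp
  have h4 : M.eRk (Set.range y) = (Set.range y).encard :=
    le_antisymm (M.eRk_le_encard _) (h3.trans h2)
  have h5 : M.Indep (Set.range y) :=
    (Matroid.indep_iff_eRk_eq_encard_of_finite (Set.finite_range y)).mpr h4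
  have h6 : Function.Injective y := by
    have h7 : (Set.range y).encard = p := le_antisymm h3 (h4 ▸ h2)
    rw [← Set.image_univ] at h7
    have h8 : (y '' Set.univ).encard = (Set.univ : Set (Fin p)).encard := by
      rw [h7]; simp
    have := (Set.finite_univ (α := Fin p)).injOn_of_encard_image_eq h8
    exact Set.injOn_univ.mp this
  exact AlgebraicIndependent.of_subtype_range h6 (AlgebraicIndependent.matroid_indep_iff.mp h5)

theorem gs_mono_ne_zero {K ι : Type} [Field K] [Fintype ι] (η : ι → K) (hη : ∀ i, η i ≠ 0)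
    (w : ι → ℤ) : mono η w ≠ 0 :=
  Finset.prod_ne_zero_iff.mpr fun i _ => zpow_ne_zero _ (hη i)

theorem gs_mono_sum {K ι : Type} [Field K] [Fintype ι] (η : ι → K) (hη : ∀ i, η i ≠ 0) {r : ℕ}
    (w : Fin r → ι → ℤ) (v : Fin r → ℤ) :
    mono η (fun i => ∑ j, v j * w j i) = ∏ j, mono η (w j) ^ v j := by
  unfold mono
  simp_rw [← Finset.prod_zpow]
  rw [Finset.prod_comm]
  apply Finset.prod_congr rfl
  intro i _
  rw [← Finset.prod_congr rfl (fun j _ => zpow_mul (η i) (w j i) (v j))]
  have : ∀ (s : Finset (Fin r)), η i ^ (∑ j ∈ s, v j * w j i) = ∏ j ∈ s, η i ^ (w j i * v j) := by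
    intro s
    induction s using Finset.induction_on with
    | empty => simp
    | insert a s ha ih => rw [Finset.sum_insert ha, Finset.prod_insert ha, zpow_add₀ (hη i), ih,
        mul_comm (v a)]
  exact this _

theorem MultIndep.gs_comp {K : Type} [Field K] [Algebra ℂ K] {r s : ℕ} {a : Fin r → K}
    (ha : MultIndep a) (f : Fin s → Fin r) (hf : Function.Injective f) :
    MultIndep (fun j => a (f j)) := by
  classical
  refine ⟨fun j => ha.1 _, fun v ⟨c, hc⟩ => ?_⟩
  have h1 : ∏ j, a j ^ (Function.extend f v 0) j = algebraMap ℂ K c := by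
    rw [← hc, ← Finset.prod_subset (Finset.subset_univ (Finset.univ.image f)),
      Finset.prod_image (fun _ _ _ _ h => hf h)]
    · apply Finset.prod_congr rfl
      intro j _
      rw [hf.extend_apply]
    · intro j _ hj
      rw [Function.extend_apply', Pi.zero_apply, zpow_zero]
      rintro ⟨i, rfl⟩
      exact hj (Finset.mem_image_of_mem _ (Finset.mem_univ _))
  have h2 := ha.2 _ ⟨c, h1⟩
  ext j
  have := congrFun h2 (f j)
  rwa [hf.extend_apply] at this

/-- rational coordinates: a family in a `ℚ`-vector space is an integral combination of a linearly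
independent family, with linearly independent coefficient vectors. -/
theorem gs_exists_integral_coords {V : Type} [AddCommGroup V] [Module ℚ V] {n : ℕ} (ρ : Fin n → V) :
    ∃ (q : ℕ) (κ : Fin q → V) (v : Fin q → Fin n → ℤ), q ≤ n ∧ (q = n → LinearIndependent ℚ ρ) ∧
      LinearIndependent ℚ κ ∧ (∀ j, ρ j = ∑ s, (v s j : ℚ) • κ s) ∧
      ∀ m : Fin q → ℤ, (∀ j, ∑ s, m s * v s j = 0) → m = 0 := by
  classical
  set W := Submodule.span ℚ (Set.range ρ) with hW
  have : FiniteDimensional ℚ W := FiniteDimensional.span_of_finite ℚ (Set.finite_range ρ)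
  set q := Module.finrank ℚ W with hq
  let b := Module.finBasis ℚ W
  let ρ' : Fin n → W := fun j => ⟨ρ j, Submodule.subset_span ⟨j, rfl⟩⟩
  have hspan : Submodule.span ℚ (Set.range ρ') = ⊤ := by
    rw [eq_top_iff]
    rintro ⟨x, hx⟩ _
    have h1 : (Submodule.span ℚ (Set.range ρ')).map W.subtype = W := by
      rw [Submodule.map_span, ← Set.range_comp]
      rfl
    have h2 : x ∈ (Submodule.span ℚ (Set.range ρ')).map W.subtype := by rw [h1]; exact hx
    obtain ⟨y, hy, hyx⟩ := h2
    have : y = ⟨x, hx⟩ := Subtype.ext hyx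
    rwa [← this]
  -- common denominator
  let r : Fin q → Fin n → ℚ := fun s j => b.repr (ρ' j) s
  obtain ⟨N, hN, hNr⟩ : ∃ N : ℕ, N ≠ 0 ∧ ∀ s j, ∃ z : ℤ, (z : ℚ) = N * r s j := by
    refine ⟨∏ s, ∏ j, (r s j).den, ?_, ?_⟩
    · exact Finset.prod_ne_zero_iff.mpr fun s _ => Finset.prod_ne_zero_iff.mpr fun j _ =>
        (r s j).den_nz
    · intro s j
      have h1 : (r s j).den ∣ ∏ s, ∏ j, (r s j).den :=
        (Finset.dvd_prod_of_mem (fun j => (r s j).den) (Finset.mem_univ j)).trans
          (Finset.dvd_prod_of_mem (fun s => ∏ j, (r s j).den) (Finset.mem_univ s))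
      obtain ⟨k, hk⟩ := h1
      refine ⟨k * (r s j).num, ?_⟩
      rw [hk]
      push_cast
      have := Rat.mul_den_eq_num (r s j)
      rw [← this]
      ring
  choose v hv using hNr
  have hN' : (N : ℚ) ≠ 0 := Nat.cast_ne_zero.mpr hN
  refine ⟨q, fun s => ((N : ℚ)⁻¹) • (b s : V), v, ?_, ?_, ?_, ?_, ?_⟩
  · have := finrank_range_le_card (R := ℚ) ρ
    rw [Fintype.card_fin] at this
    exact this
  · intro hqn
    rw [linearIndependent_iff_card_eq_finrank_span, Fintype.card_fin]
    exact hqn.symm
  · have h1 : LinearIndependent ℚ (fun s => (b s : V)) :=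
      b.linearIndependent.map' W.subtype (Submodule.ker_subtype _)
    have h2 := h1.units_smul (fun _ => Units.mk0 ((N : ℚ)⁻¹) (inv_ne_zero hN'))
    exact h2
  · intro j
    have h1 := congrArg (Subtype.val) (b.sum_repr (ρ' j))
    have h2 : ((∑ s, b.repr (ρ' j) s • b s : W) : V) = ∑ s, b.repr (ρ' j) s • (b s : V) := by
      rw [AddSubmonoidClass.coe_finsetSum]
      rfl
    rw [h2] at h1
    show ρ j = _
    refine (Eq.symm h1).trans ?_
    apply Finset.sum_congr rfl
    intro s _
    rw [smul_smul, hv]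
    congr 1
    show r s j = _
    field_simp
  · intro m hm
    let ℓ : W →ₗ[ℚ] ℚ := b.constr ℚ (fun s => (m s : ℚ))
    have h1 : ∀ j, ℓ (ρ' j) = 0 := by
      intro j
      have h2 : ℓ (ρ' j) = ∑ s, r s j * m s := by
        conv_lhs => rw [← b.sum_repr (ρ' j)]
        rw [map_sum]
        apply Finset.sum_congr rfl
        intro s _
        rw [map_smul, Module.Basis.constr_basis, smul_eq_mul]
      have h3 : (N : ℚ) * ∑ s, r s j * m s = 0 := by
        have h4 : ((∑ s, m s * v s j : ℤ) : ℚ) = 0 := by rw [hm j]; simp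
        rw [← h4, Finset.mul_sum]
        push_cast
        apply Finset.sum_congr rfl
        intro s _
        rw [hv]
        ring
      rw [h2]
      exact (mul_eq_zero.mp h3).resolve_left hN'
    have h2 : ℓ = 0 := by
      apply LinearMap.ext_on_range hspan
      intro j
      rw [h1 j]
      rfl
    ext s
    have h3 : ℓ (b s) = m s := Module.Basis.constr_basis _ _ _ _
    rw [h2, LinearMap.zero_apply] at h3
    exact_mod_cast h3.symm

theorem gs_exists_const_of_isAlgebraic {E : Type} [Field E] [Algebra ℂ E] (x : E)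
    (hx : IsAlgebraic ℂ x) : ∃ c : ℂ, algebraMap ℂ E c = x := by
  have h1 : (minpoly ℂ x).degree = 1 := IsAlgClosed.degree_eq_one_of_irreducible ℂ
    (minpoly.irreducible (isAlgebraic_iff_isIntegral.mp hx))
  obtain ⟨c, hc⟩ := minpoly.mem_range_of_degree_eq_one ℂ x h1
  exact ⟨c, hc⟩

theorem gs_dlog_mono {K ι R : Type} [CommRing R] [Field K] [Algebra R K] [Fintype ι] (η : ι → K)
    (hη : ∀ i, η i ≠ 0) (w : ι → ℤ) (D : Derivation R K K) :
    D (mono η w) / mono η w = ∑ i, (w i : K) * (D (η i) / η i) := by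
  classical
  unfold mono
  have h1 : ∀ s : Finset ι, D (∏ i ∈ s, η i ^ w i) / ∏ i ∈ s, η i ^ w i =
      ∑ i ∈ s, (w i : K) * (D (η i) / η i) := by
    intro s
    induction s using Finset.induction_on with
    | empty => simp
    | insert a s ha ih =>
      rw [Finset.prod_insert ha, Finset.sum_insert ha, ← ih, D.leibniz, D.leibniz_zpow]
      have h2 : η a ^ w a ≠ 0 := zpow_ne_zero _ (hη a)
      have h3 : ∏ i ∈ s, η i ^ w i ≠ 0 :=
        Finset.prod_ne_zero_iff.mpr fun i _ => zpow_ne_zero _ (hη i)
      have h4 : η a ^ (w a - 1) = η a ^ w a / η a := by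
        rw [zpow_sub_one₀ (hη a), div_eq_mul_inv]
      have h5 := hη a
      simp only [smul_eq_mul, zsmul_eq_mul]
      rw [h4]
      field_simp
      ring
  exact h1 _

theorem gauss {E ι : Type} [Field E] [Algebra ℂ E] [Fintype ι] (η : ι → E) (hη : ∀ i, η i ≠ 0)
    (h : ¬ ToricGen η) :
    ∃ (p : ℕ) (w : Fin (p + 1) → ι → ℤ) (c : Fin p → E), 1 ≤ p ∧
      AlgebraicIndependent ℂ (fun j : Fin p => mono η (w j.succ)) ∧
      (∀ (K : Type) [Field K] [Algebra ℂ K] (ψ : E →ₐ[ℂ] K) (D : Derivation ℂ K K),
        D (ψ (mono η (w 0))) / ψ (mono η (w 0)) =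
          ∑ j, ψ (c j) * (D (ψ (mono η (w j.succ))) / ψ (mono η (w j.succ)))) ∧
      AlgebraicIndependent ℂ c ∧
      ∀ j, IsAlgebraic (IntermediateField.adjoin ℂ (Set.range c)) (mono η (w j)) := by
  classical
  obtain ⟨r, ⟨w, hw1, hw2⟩, hmin⟩ : ∃ r : ℕ, (∃ w : Fin r → ι → ℤ,
      MultIndep (fun j => mono η (w j)) ∧ ¬ AlgebraicIndependent ℂ (fun j => mono η (w j))) ∧
      ∀ q < r, ∀ u : Fin q → ι → ℤ, MultIndep (fun j => mono η (u j)) →
        AlgebraicIndependent ℂ (fun j => mono η (u j)) := by
    have hex : ∃ r : ℕ, ∃ w : Fin r → ι → ℤ, MultIndep (fun j => mono η (w j)) ∧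
        ¬ AlgebraicIndependent ℂ (fun j => mono η (w j)) := by
      unfold ToricGen at h
      push Not at h
      exact h
    refine ⟨Nat.find hex, Nat.find_spec hex, fun q hq u hu => ?_⟩
    by_contra hcon
    exact Nat.find_min hex hq ⟨u, hu, hcon⟩
  -- `r ≥ 2`
  obtain ⟨p, rfl⟩ : ∃ p, r = p + 1 := by
    rcases r with _ | p
    · exfalso
      apply hw2
      rw [algebraicIndependent_empty_type_iff]
      exact (algebraMap ℂ E).injective
    · exact ⟨p, rfl⟩
  have hp : 1 ≤ p := by
    rcases p with _ | p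
    · exfalso
      apply hw2
      have : Subsingleton (Fin (0 + 1)) := inferInstanceAs (Subsingleton (Fin 1))
      rw [algebraicIndependent_singleton_iff (0 : Fin (0 + 1))]
      intro halg
      obtain ⟨c, hc⟩ := gs_exists_const_of_isAlgebraic _ halg
      have h1 := hw1.2 (fun _ => 1) ⟨c, by simpa using hc.symm⟩
      exact one_ne_zero (congrFun h1 0)
    · omega
  set a : Fin (p + 1) → E := fun j => mono η (w j) with ha
  have ha0 : ∀ j, a j ≠ 0 := fun j => gs_mono_ne_zero η hη _
  have hind : AlgebraicIndependent ℂ (fun j : Fin p => a j.succ) :=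
    hmin p (Nat.lt_succ_self p) (fun j => w j.succ) (hw1.gs_comp Fin.succ (Fin.succ_injective p))
  have halg : IsAlgebraic (IntermediateField.adjoin ℂ (Set.range fun j : Fin p => a j.succ))
      (a 0) := by
    by_contra hcon
    apply hw2
    have h1 : Transcendental (Algebra.adjoin ℂ (Set.range fun j : Fin p => a j.succ)) (a 0) :=
      fun h => hcon (IntermediateField.isAlgebraic_adjoin_iff.mpr h)
    have h2 := (hind.option_iff_transcendental (a 0)).mpr h1
    have h3 := (algebraicIndependent_equiv (finSuccEquiv p)).mpr h2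
    have h4 : ((fun o : Option (Fin p) => o.elim (a 0) fun j => a j.succ) ∘ finSuccEquiv p) =
        fun j => mono η (w j) := by
      ext j
      refine Fin.cases ?_ (fun j => ?_) j <;> simp [ha]
    rw [h4] at h3
    exact h3
  obtain ⟨c, hc⟩ := dlog_relation a ha0 halg
  refine ⟨p, w, c, hp, hind, hc, ?_⟩
  -- the algebraic closure of `ℂ(c)`
  set F := IntermediateField.adjoin ℂ (Set.range c) with hF
  set k := algebraicClosure F E with hk
  have hcF : ∀ j, c j ∈ F := fun j => IntermediateField.subset_adjoin _ _ ⟨j, rfl⟩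
  have hcl : ∀ x : E, IsAlgebraic k x → ∃ c : k, algebraMap k E c = x := by
    intro x hx
    have h1 : IsAlgebraic F x := hx.restrictScalars F
    exact ⟨⟨x, mem_algebraicClosure_iff.mpr h1⟩, rfl⟩
  -- the coefficient vector
  let ρ : Fin (p + 1) → k := Fin.cons (-1) (fun j => algebraMap F k ⟨c j, hcF j⟩)
  have hρ0 : ρ 0 = -1 := rfl
  have hρs : ∀ j : Fin p, algebraMap k E (ρ j.succ) = c j := fun j => rfl
  have hrel : ∀ D : Derivation ℂ E E, ∑ j, algebraMap k E (ρ j) * (D (a j) / a j) = 0 := by
    intro D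
    have h1 := hc E (AlgHom.id ℂ E) D
    simp only [AlgHom.id_apply] at h1
    rw [Fin.sum_univ_succ, hρ0, map_neg, map_one, h1]
    simp only [hρs]
    ring
  have hρind : LinearIndependent ℚ ρ := by
    obtain ⟨q, κ, v, hqn, hq, hκ, hρκ, hv⟩ := gs_exists_integral_coords ρ
    by_contra hcon
    have hqlt : q < p + 1 := lt_of_le_of_ne hqn fun h => hcon (hq h)
    set u : Fin q → ι → ℤ := fun s i => ∑ j, v s j * w j i with hu
    have hb : ∀ s, mono η (u s) = ∏ j, a j ^ v s j := fun s => gs_mono_sum η hη w (v s)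
    have hb0 : ∀ s, mono η (u s) ≠ 0 := fun s => gs_mono_ne_zero η hη _
    have hMI : MultIndep (fun s => mono η (u s)) := by
      refine ⟨hb0, fun m ⟨z, hz⟩ => ?_⟩
      apply hv
      have h1 : mono a (fun j => ∑ s, m s * v s j) = algebraMap ℂ E z := by
        rw [gs_mono_sum a ha0, ← hz]
        apply Finset.prod_congr rfl
        intro s _
        show mono a (v s) ^ m s = mono η (u s) ^ m s
        rw [hb]
        rfl
      exact congrFun (hw1.2 _ ⟨z, h1⟩)
    have hAI := hmin q hqlt u hMI
    have hq0 : 0 < q := by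
      rcases Nat.eq_zero_or_pos q with h | h
      · subst h
        have := hρκ 0
        rw [Finset.univ_eq_empty, Finset.sum_empty, hρ0] at this
        exact absurd this (by simp)
      · exact h
    obtain ⟨D, hD⟩ := exists_derivation _ hAI
      (fun s => if s = (⟨0, hq0⟩ : Fin q) then mono η (u s) else 0)
    have h1 := hrel D
    have h2 : ∀ s, D (mono η (u s)) / mono η (u s) = ∑ j, (v s j : E) * (D (a j) / a j) := by
      intro s
      rw [hb s]
      exact gs_dlog_mono a ha0 (v s) D
    have h3 : ∑ s, algebraMap k E (κ s) * (D (mono η (u s)) / mono η (u s)) = 0 := by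
      rw [← h1]
      simp_rw [h2, Finset.mul_sum]
      rw [Finset.sum_comm]
      apply Finset.sum_congr rfl
      intro j _
      rw [hρκ j, map_sum, Finset.sum_mul]
      apply Finset.sum_congr rfl
      intro s _
      rw [← mul_assoc]
      congr 1
      rw [Algebra.smul_def, map_mul, mul_comm]
      simp
    rw [Finset.sum_eq_single (⟨0, hq0⟩ : Fin q)] at h3
    · rw [hD, if_pos rfl, div_self (hb0 _), mul_one] at h3
      exact hκ.ne_zero _ ((map_eq_zero _).mp h3)
    · intro s _ hs
      rw [hD, if_neg hs, zero_div, mul_zero]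
    · intro h; exact absurd (Finset.mem_univ _) h
  have hrelk : ∀ D : Derivation k E E, ∑ j, algebraMap k E (ρ j) * (D (a j) / a j) = 0 := by
    intro D
    have hDz : ∀ z : ℂ, D (algebraMap ℂ E z) = 0 := fun z =>
      D.map_algebraMap (algebraMap F k (algebraMap ℂ F z))
    let D' : Derivation ℂ E E :=
      { toFun := D
        map_add' := D.map_add
        map_smul' := by
          intro z x
          rw [Algebra.smul_def, D.leibniz, hDz, smul_zero, add_zero, smul_eq_mul,
            RingHom.id_apply, Algebra.smul_def]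
        map_one_eq_zero' := D.map_one_eq_zero
        leibniz' := D.leibniz }
    exact hrel D'
  have hak : ∀ j, ∃ z : k, algebraMap k E z = a j := fun j =>
    dlog_indep hcl a ha0 ρ hρind hrelk j
  have hak' : ∀ j, IsAlgebraic F (a j) := by
    intro j
    obtain ⟨z, hz⟩ := hak j
    rw [← hz]
    exact mem_algebraicClosure_iff.mp z.2
  exact ⟨gs_algInd_of_algebraic (fun j : Fin p => a j.succ) c hind (fun j => hak' j.succ), hak'⟩

end Pool.Agent.Campana
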