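import Pool.Agent.Lib_MP_1209e6_ag.Defs

/-! Piece F: order functions of places, and poles of logarithmic forms. -/

set_option autoImplicit false

namespace Pool.Agent.Campana

lemma F_ord_one {K : Type} [Field K] {O : ValuationSubring K} {v : K → ℤ} (hv : IsOrd O v) :
    v 1 = 0 := by
  have h := hv.1 1 1 one_ne_zero one_ne_zero
  rw [mul_one] at h
  omega

lemma F_ord_inv {K : Type} [Field K] {O : ValuationSubring K} {v : K → ℤ} (hv : IsOrd O v)
    (x : K) (hx : x ≠ 0) : v x⁻¹ = - v x := by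
  have h := hv.1 x x⁻¹ hx (inv_ne_zero hx)
  rw [mul_inv_cancel₀ hx, F_ord_one hv] at h
  omega

lemma F_ord_pow {K : Type} [Field K] {O : ValuationSubring K} {v : K → ℤ} (hv : IsOrd O v)
    (x : K) (hx : x ≠ 0) (n : ℕ) : v (x ^ n) = n * v x := by
  induction n with
  | zero => simp [F_ord_one hv]
  | succ n ih =>
    rw [pow_succ, hv.1 _ _ (pow_ne_zero n hx) hx, ih]
    push_cast
    ring

lemma F_ord_zpow {K : Type} [Field K] {O : ValuationSubring K} {v : K → ℤ} (hv : IsOrd O v)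
    (x : K) (hx : x ≠ 0) (n : ℤ) : v (x ^ n) = n * v x := by
  rcases n with n | n
  · rw [Int.ofNat_eq_natCast, zpow_natCast, F_ord_pow hv x hx]
  · rw [zpow_negSucc, F_ord_inv hv _ (pow_ne_zero _ hx), F_ord_pow hv x hx]
    rw [Int.negSucc_eq]
    push_cast
    ring

theorem place_order {K : Type} [Field K] [Algebra ℂ K] (O : ValuationSubring K)
    (hO : IsPlace O) : ∃ v : K → ℤ, IsOrd O v := by
  classical
  have := hO.2
  obtain ⟨ϖ, hϖ⟩ := IsDiscreteValuationRing.exists_irreducible O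
  have hϖ0 : (ϖ : K) ≠ 0 := by
    intro h
    exact hϖ.ne_zero (Subtype.ext h)
  have hϖm : (ϖ : K)⁻¹ ∉ O := by
    intro h
    apply hϖ.not_isUnit
    rw [isUnit_iff_exists_inv]
    refine ⟨⟨_, h⟩, Subtype.ext ?_⟩
    exact mul_inv_cancel₀ hϖ0
  -- decomposition
  have hdec : ∀ x : K, x ≠ 0 → ∃ n : ℤ, ∃ u : K, u ∈ O ∧ u⁻¹ ∈ O ∧ u ≠ 0 ∧
      x = u * (ϖ : K) ^ n := by
    intro x hx
    obtain ⟨n, u, hu⟩ := IsDiscreteValuationRing.exists_units_eq_smul_zpow_of_irreducible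
      (R := O) (K := K) hϖ hx
    have hinv : ((u : O) : K)⁻¹ = ((u⁻¹ : Oˣ) : O) := by
      have h : ((u : O) : K) * ((u⁻¹ : Oˣ) : O) = 1 := congrArg Subtype.val u.mul_inv
      exact (eq_inv_of_mul_eq_one_right h).symm
    refine ⟨n, ((u : O) : K), (u : O).2, ?_, ?_, ?_⟩
    · rw [hinv]
      exact ((u⁻¹ : Oˣ) : O).2
    · intro h
      exact u.ne_zero (Subtype.ext h)
    · rw [hu, Units.smul_def, Algebra.smul_def]
      rfl
  -- powers of the uniformizer in O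
  have hpow : ∀ n : ℤ, (ϖ : K) ^ n ∈ O → 0 ≤ n := by
    intro n hn
    by_contra hlt
    push Not at hlt
    apply hϖm
    have h : (ϖ : K)⁻¹ = (ϖ : K) ^ n * (ϖ : K) ^ (-n - 1) := by
      rw [← zpow_add₀ hϖ0, ← zpow_neg_one]
      congr 1
      ring
    rw [h]
    refine O.mul_mem _ _ hn ?_
    obtain ⟨k, hk⟩ := Int.eq_ofNat_of_zero_le (show 0 ≤ -n - 1 by omega)
    rw [hk, zpow_natCast]
    exact pow_mem ϖ.2 k
  have hpow' : ∀ n : ℤ, 0 ≤ n → (ϖ : K) ^ n ∈ O := by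
    intro n hn
    obtain ⟨k, hk⟩ := Int.eq_ofNat_of_zero_le hn
    rw [hk, zpow_natCast]
    exact pow_mem ϖ.2 k
  have huniq : ∀ (n m : ℤ) (u w : K), u ∈ O → u⁻¹ ∈ O → u ≠ 0 → w ∈ O → w⁻¹ ∈ O → w ≠ 0 →
      u * (ϖ : K) ^ n = w * (ϖ : K) ^ m → n = m := by
    intro n m u w hu hu' hu0 hw hw' hw0 h
    have h1 : (ϖ : K) ^ (n - m) = u⁻¹ * w := by
      rw [zpow_sub₀ hϖ0, div_eq_iff (zpow_ne_zero _ hϖ0), mul_assoc, ← h, ← mul_assoc,
        inv_mul_cancel₀ hu0, one_mul]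
    have h2 : (ϖ : K) ^ (m - n) = w⁻¹ * u := by
      rw [zpow_sub₀ hϖ0, div_eq_iff (zpow_ne_zero _ hϖ0), mul_assoc, h, ← mul_assoc,
        inv_mul_cancel₀ hw0, one_mul]
    have h3 := hpow (n - m) (h1 ▸ O.mul_mem _ _ hu' hw)
    have h4 := hpow (m - n) (h2 ▸ O.mul_mem _ _ hw' hu)
    omega
  choose! N U hU hU' hU0 hNU using hdec
  refine ⟨N, ?_, ?_, ?_⟩
  · intro x y hx hy
    have hxy := mul_ne_zero hx hy
    refine huniq _ _ (U (x * y)) (U x * U y) (hU _ hxy) (hU' _ hxy) (hU0 _ hxy)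
      (O.mul_mem _ _ (hU x hx) (hU y hy)) ?_ (mul_ne_zero (hU0 x hx) (hU0 y hy)) ?_
    · rw [mul_inv]
      exact O.mul_mem _ _ (hU' x hx) (hU' y hy)
    · rw [← hNU _ hxy, zpow_add₀ hϖ0]
      calc x * y = (U x * (ϖ : K) ^ N x) * (U y * (ϖ : K) ^ N y) := by
            rw [← hNU x hx, ← hNU y hy]
        _ = _ := by ring
  · intro x hx
    constructor
    · intro h
      apply hpow
      have h1 : (ϖ : K) ^ N x = (U x)⁻¹ * x := by
        have h2 : (U x)⁻¹ * x = (U x)⁻¹ * (U x * (ϖ : K) ^ N x) :=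
          congrArg (fun y => (U x)⁻¹ * y) (hNU x hx)
        rw [h2, ← mul_assoc, inv_mul_cancel₀ (hU0 x hx), one_mul]
      rw [h1]
      exact O.mul_mem _ _ (hU' x hx) h
    · intro h
      rw [hNU x hx]
      exact O.mul_mem _ _ (hU x hx) (hpow' _ h)
  · refine ⟨ϖ, hϖ0, ?_⟩
    refine huniq _ _ (U ϖ) 1 (hU _ hϖ0) (hU' _ hϖ0) (hU0 _ hϖ0) O.one_mem
      (by rw [inv_one]; exact O.one_mem) one_ne_zero ?_
    rw [← hNU _ hϖ0, zpow_one, one_mul]

/-- a determinant with entries in `O` lies in `O` -/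
lemma F_det_mem {K : Type} [Field K] (O : ValuationSubring K) {p : ℕ}
    (M : Matrix (Fin p) (Fin p) K) (hM : ∀ i j, M i j ∈ O) : M.det ∈ O := by
  rw [Matrix.det_apply]
  refine sum_mem fun σ _ => ?_
  have h : (∏ i, M (σ i) i) ∈ O := prod_mem fun i _ => hM _ _
  rcases Int.units_eq_one_or (Equiv.Perm.sign σ) with h1 | h1
  · rw [h1, one_smul]
    exact h
  · rw [h1, Units.neg_smul, one_smul]
    exact neg_mem h

theorem dlogForm_unit {K : Type} [Field K] [Algebra ℂ K] (O : ValuationSubring K) {p : ℕ}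
    (a : Fin p → K) (ha : ∀ j, a j ∈ O ∧ (a j)⁻¹ ∈ O) (D : Fin p → Derivation ℂ K K)
    (hD : ∀ i, ∀ x ∈ O, D i x ∈ O) : dlogForm a D ∈ O := by
  rw [dlogForm_apply]
  apply F_det_mem
  intro i j
  rw [Matrix.of_apply, div_eq_mul_inv]
  exact O.mul_mem _ _ (hD i _ (ha j).1) (ha j).2

/-- logarithmic derivative of a power -/
lemma F_dlog_zpow {K : Type} [Field K] [Algebra ℂ K] (D : Derivation ℂ K K) (x : K) (hx : x ≠ 0)
    (n : ℤ) : D (x ^ n) / x ^ n = n * (D x / x) := by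
  rw [Derivation.leibniz_zpow, zpow_sub_one₀ hx, zsmul_eq_mul, smul_eq_mul]
  have h := zpow_ne_zero n hx
  field_simp

lemma F_dlog_mul {K : Type} [Field K] [Algebra ℂ K] (D : Derivation ℂ K K) (x y : K) (hx : x ≠ 0)
    (hy : y ≠ 0) : D (x * y) / (x * y) = D x / x + D y / y := by
  rw [Derivation.leibniz, smul_eq_mul, smul_eq_mul]
  field_simp
  ring

lemma F_int_mem {K : Type} [Field K] [Algebra ℂ K] (O : ValuationSubring K)
    (hO : ∀ c : ℂ, algebraMap ℂ K c ∈ O) (n : ℤ) : (n : K) ∈ O ∧ (n : K)⁻¹ ∈ O := by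
  constructor
  · have h := hO n
    rwa [map_intCast] at h
  · have h := hO (n : ℂ)⁻¹
    rwa [map_inv₀, map_intCast] at h

theorem dlogForm_pole {K : Type} [Field K] [Algebra ℂ K] (O : ValuationSubring K)
    (hO : ∀ c : ℂ, algebraMap ℂ K c ∈ O) (v : K → ℤ) (hv : IsOrd O v) (t : K) (ht : t ≠ 0)
    (hvt : v t = 1) {p : ℕ} (a : Fin p → K) (ha : ∀ j, a j ≠ 0) (D : Fin p → Derivation ℂ K K)
    (hD : ∀ i, ∀ x ∈ O, D i x ∈ O) : t * dlogForm a D ∈ O := by
  have htO : t ∈ O := by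
    rw [hv.2.1 t ht, hvt]
    norm_num
  have hunit : ∀ x : K, x ≠ 0 → v x = 0 → x ∈ O ∧ x⁻¹ ∈ O := by
    intro x hx h
    constructor
    · rw [hv.2.1 x hx, h]
    · rw [hv.2.1 _ (inv_ne_zero hx), F_ord_inv hv x hx, h]
      norm_num
  have hdl : ∀ i, ∀ x : K, x ≠ 0 → v x = 0 → D i x / x ∈ O := by
    intro i x hx h
    rw [div_eq_mul_inv]
    exact O.mul_mem _ _ (hD i x (hunit x hx h).1) (hunit x hx h).2
  by_cases hall : ∀ j, v (a j) = 0
  · refine O.mul_mem _ _ htO (dlogForm_unit O a (fun j => hunit _ (ha j) (hall j)) D hD)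
  push Not at hall
  obtain ⟨j₀, hj₀⟩ := hall
  have hchar : CharZero K := charZero_of_injective_algebraMap (algebraMap ℂ K).injective
  have hk0 : ((v (a j₀) : ℤ) : K) ≠ 0 := by exact_mod_cast hj₀
  -- the column of j₀
  have hcol : ∀ i, t * (D i (a j₀) / a j₀) ∈ O := by
    intro i
    have h1 : D i (a j₀) / a j₀ = D i (a j₀ * t ^ (-v (a j₀))) / (a j₀ * t ^ (-v (a j₀))) +
        (v (a j₀)) * (D i t / t) := by
      rw [F_dlog_mul _ _ _ (ha j₀) (zpow_ne_zero _ ht), F_dlog_zpow _ _ ht]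
      push_cast
      ring
    have h2 : t * ((v (a j₀) : K) * (D i t / t)) = v (a j₀) * D i t := by
      field_simp
    rw [h1, mul_add, h2]
    refine O.add_mem _ _ (O.mul_mem _ _ htO (hdl i _ (mul_ne_zero (ha j₀) (zpow_ne_zero _ ht)) ?_))
      (O.mul_mem _ _ (F_int_mem O hO _).1 (hD i t htO))
    rw [hv.1 _ _ (ha j₀) (zpow_ne_zero _ ht), F_ord_zpow hv t ht, hvt]
    ring
  -- the other columns
  have hoth : ∀ i j, D i (a j) / a j - (v (a j) : K) / (v (a j₀) : K) * (D i (a j₀) / a j₀) ∈ O := by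
    intro i j
    have h1 : D i (a j) / a j - (v (a j) : K) / (v (a j₀) : K) * (D i (a j₀) / a j₀) =
        ((v (a j₀) : ℤ) : K)⁻¹ * (D i (a j ^ v (a j₀) * a j₀ ^ (-v (a j))) /
          (a j ^ v (a j₀) * a j₀ ^ (-v (a j)))) := by
      rw [F_dlog_mul _ _ _ (zpow_ne_zero _ (ha j)) (zpow_ne_zero _ (ha j₀)),
        F_dlog_zpow _ _ (ha j), F_dlog_zpow _ _ (ha j₀)]
      push_cast
      field_simp
      ring
    rw [h1]
    refine O.mul_mem _ _ (F_int_mem O hO _).2 (hdl i _ (mul_ne_zero (zpow_ne_zero _ (ha j))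
      (zpow_ne_zero _ (ha j₀))) ?_)
    rw [hv.1 _ _ (zpow_ne_zero _ (ha j)) (zpow_ne_zero _ (ha j₀)), F_ord_zpow hv _ (ha j),
      F_ord_zpow hv _ (ha j₀)]
    ring
  rw [dlogForm_apply]
  set M : Matrix (Fin p) (Fin p) K := Matrix.of fun i j => D i (a j) / a j with hM
  set c : Fin p → K := fun j => if j = j₀ then 0 else -((v (a j) : K) / (v (a j₀) : K)) with hc
  set B : Matrix (Fin p) (Fin p) K := Matrix.of fun i j => M i j + c j * M i j₀ with hB
  have hdet : B.det = M.det := by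
    rw [← Matrix.det_transpose B, ← Matrix.det_transpose M]
    refine Matrix.det_eq_of_forall_row_eq_smul_add_const c j₀ (by simp [hc]) ?_
    intro j i
    simp [hB, Matrix.transpose_apply]
  have hmul : t * M.det = (B.updateCol j₀ (t • fun i => B i j₀)).det := by
    rw [Matrix.det_updateCol_smul, ← hdet]
    congr 1
    congr 1
    ext i j
    by_cases hj : j = j₀
    · subst hj
      simp
    · simp [hj]
  rw [hmul]
  apply F_det_mem
  intro i j
  by_cases hj : j = j₀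
  · subst hj
    simp only [Matrix.updateCol_self, Pi.smul_apply, smul_eq_mul]
    have h1 : B i j = M i j := by simp [hB, hc]
    rw [h1]
    exact hcol i
  · rw [Matrix.updateCol_ne hj]
    have h1 : B i j = D i (a j) / a j - (v (a j) : K) / (v (a j₀) : K) *
        (D i (a j₀) / a j₀) := by
      simp only [hB, hc, hM, Matrix.of_apply, if_neg hj]
      ring
    rw [h1]
    exact hoth i j

end Pool.Agent.Campana
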