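import Pool.Agent.Lib_MP_1209e6_ag.Defs
import Pool.Agent.Lib_MP_1209e6_ag.Der

/-! Piece S: purely transcendental extensions of `ℂ` are special. -/

set_option autoImplicit false

open Polynomial

namespace Pool.Agent.Campana

namespace RatPlace

lemma dvr_of_height_one {R K : Type} [CommRing R] [IsDedekindDomain R] [Field K]
    [Algebra R K] [IsFractionRing R K] (v : IsDedekindDomain.HeightOneSpectrum R) :
    IsDiscreteValuationRing (v.valuationSubringAtPrime K) := by
  have hl : IsLocalization v.asIdeal.primeCompl (v.valuationSubringAtPrime K) := inferInstance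
  have _ : IsLocalization.AtPrime (v.valuationSubringAtPrime K) v.asIdeal := hl
  exact IsLocalization.AtPrime.isDiscreteValuationRing_of_dedekind_domain R v.ne_bot
    (v.valuationSubringAtPrime K)

/-- the local ring at an irreducible polynomial is a discrete valuation ring of `K = F(y)` -/
lemma exists_place {F K : Type} [Field F] [Field K] [Algebra F K] (y : K)
    (hy : Transcendental F y)
    (hgen : ∀ z : K, ∃ A B : F[X], z = aeval y A / aeval y B) (P : F[X]) (hP : Irreducible P) :
    ∃ O : ValuationSubring K, IsDiscreteValuationRing O ∧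
      ∀ z, z ∈ O ↔ ∃ A B : F[X], ¬ P ∣ B ∧ z = aeval y A / aeval y B := by
  have hinj : ∀ A : F[X], aeval y A = 0 → A = 0 := fun A h =>
    (transcendental_iff.1 hy) A h
  let _ : Algebra F[X] K := (aeval y : F[X] →ₐ[F] K).toAlgebra
  have _ : FaithfulSMul F[X] K := (faithfulSMul_iff_algebraMap_injective _ _).2 <|
    (injective_iff_map_eq_zero _).2 hinj
  have _ : IsFractionRing F[X] K := IsFractionRing.of_field F[X] K hgen
  let v : IsDedekindDomain.HeightOneSpectrum F[X] :=
    { asIdeal := Ideal.span {P}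
      isPrime := (Ideal.span_singleton_prime hP.ne_zero).2 hP.prime
      ne_bot := by
        rw [Ne, Ideal.span_singleton_eq_bot]
        exact hP.ne_zero }
  refine ⟨v.valuationSubringAtPrime K, ?_, ?_⟩
  · exact dvr_of_height_one v
  · intro z
    constructor
    · rintro ⟨a, s, hs, h⟩
      refine ⟨a, s, ?_, ?_⟩
      · intro hd
        exact hs (Ideal.mem_span_singleton.2 hd)
      · rw [h, div_eq_mul_inv]
        rfl
    · rintro ⟨a, s, hs, h⟩
      refine ⟨a, s, ?_, ?_⟩
      · intro hd
        exact hs (Ideal.mem_span_singleton.1 hd)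
      · rw [h, div_eq_mul_inv]
        rfl

variable {K : Type} [Field K] [Algebra ℂ K]

lemma sum_smul_apply {k : ℕ} (v : Fin k → K) (d : Fin k → Derivation ℂ K K) (z : K) :
    (∑ i, v i • d i) z = ∑ i, v i * d i z := by
  have h := congrArg (fun φ : K → K => φ z)
    (map_sum (Derivation.coeFnAddMonoidHom (R := ℂ) (A := K) (M := K)) (fun i => v i • d i)
      Finset.univ)
  simp only [Finset.sum_apply] at h
  exact h

/-- a derivation which maps generators into a field preserves it -/
lemma der_adjoin (D : Derivation ℂ K K) (S : Set K)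
    (hD : ∀ z ∈ S, D z ∈ IntermediateField.adjoin ℂ S) (z : K)
    (hz : z ∈ IntermediateField.adjoin ℂ S) : D z ∈ IntermediateField.adjoin ℂ S := by
  induction hz using IntermediateField.adjoin_induction with
  | mem x hx => exact hD x hx
  | algebraMap x =>
    rw [Derivation.map_algebraMap]
    exact zero_mem _
  | add x y hx hy h1 h2 =>
    rw [map_add]
    exact add_mem h1 h2
  | inv x hx h =>
    rw [Derivation.leibniz_inv, smul_eq_mul]
    exact mul_mem (neg_mem (pow_mem (inv_mem hx) _)) h
  | mul x y hx hy h1 h2 =>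
    rw [Derivation.leibniz, smul_eq_mul, smul_eq_mul]
    exact add_mem (mul_mem hx h2) (mul_mem hy h1)

lemma der_adjoin_zero (D : Derivation ℂ K K) (S : Set K)
    (hD : ∀ z ∈ S, D z = 0) (z : K)
    (hz : z ∈ IntermediateField.adjoin ℂ S) : D z = 0 := by
  induction hz using IntermediateField.adjoin_induction with
  | mem x hx => exact hD x hx
  | algebraMap x => rw [Derivation.map_algebraMap]
  | add x y hx hy h1 h2 => rw [map_add, h1, h2, add_zero]
  | inv x hx h => rw [Derivation.leibniz_inv, h, smul_zero]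
  | mul x y hx hy h1 h2 => rw [Derivation.leibniz, h1, h2, smul_zero, smul_zero, add_zero]

/-- a derivation which preserves `F` and maps `y` to `F` preserves the polynomials in `y` -/
lemma der_poly (F : IntermediateField ℂ K) (D : Derivation ℂ K K) (y : K)
    (hF : ∀ z ∈ F, D z ∈ F) (hy : D y ∈ F) (A : F[X]) : ∃ A' : F[X], D (aeval y A) = aeval y A' := by
  induction A using Polynomial.induction_on with
  | C a =>
    refine ⟨C ⟨D a, hF a a.2⟩, ?_⟩
    rw [aeval_C, aeval_C]
    rfl
  | add p q hp hq =>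
    obtain ⟨p', hp'⟩ := hp
    obtain ⟨q', hq'⟩ := hq
    exact ⟨p' + q', by rw [map_add, map_add, hp', hq', map_add]⟩
  | monomial n a h =>
    obtain ⟨p', hp'⟩ := h
    refine ⟨C a * X ^ n * C ⟨D y, hy⟩ + X * p', ?_⟩
    have h1 : (C a * X ^ (n + 1) : F[X]) = C a * X ^ n * X := by
      rw [pow_succ, mul_assoc]
    have h2 : aeval y (C (⟨D y, hy⟩ : F)) = D y := by
      rw [aeval_C]
      rfl
    rw [h1, map_mul (aeval y) (C a * X ^ n) X, Derivation.leibniz, hp', aeval_X, smul_eq_mul,
      smul_eq_mul, map_add, map_mul (aeval y) (C a * X ^ n), map_mul (aeval y) X, aeval_X, h2]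

/-- such a derivation preserves all the local rings -/
lemma der_place (F : IntermediateField ℂ K) (D : Derivation ℂ K K) (y : K)
    (hF : ∀ z ∈ F, D z ∈ F) (hy : D y ∈ F) (P : F[X]) (hP : Irreducible P)
    (O : ValuationSubring K)
    (hO : ∀ z, z ∈ O ↔ ∃ A B : F[X], ¬ P ∣ B ∧ z = aeval y A / aeval y B) (z : K) (hz : z ∈ O) :
    D z ∈ O := by
  obtain ⟨A, B, hB, rfl⟩ := (hO z).1 hz
  obtain ⟨A', hA'⟩ := der_poly F D y hF hy A
  obtain ⟨B', hB'⟩ := der_poly F D y hF hy B
  refine (hO _).2 ⟨B * A' - A * B', B ^ 2, ?_, ?_⟩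
  · intro h
    exact hB (hP.prime.dvd_of_dvd_pow h)
  · rw [Derivation.leibniz_div, hA', hB']
    simp only [smul_eq_mul, map_sub, map_mul, map_pow]
    rw [inv_pow, div_eq_mul_inv, mul_comm]

/-- an element in all the local rings is a polynomial -/
lemma poly_of_places {F K : Type} [Field F] [Field K] [Algebra F K] (y : K)
    (hy : Transcendental F y)
    (hgen : ∀ z : K, ∃ A B : F[X], z = aeval y A / aeval y B) (h : K)
    (hh : ∀ P : F[X], Irreducible P → ∃ A B : F[X], ¬ P ∣ B ∧ h = aeval y A / aeval y B) :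
    ∃ H : F[X], h = aeval y H := by
  have hinj : ∀ A : F[X], aeval y A = 0 → A = 0 := fun A h =>
    (transcendental_iff.1 hy) A h
  have hinj' : ∀ A B : F[X], aeval y A = aeval y B → A = B := fun A B h =>
    sub_eq_zero.1 (hinj _ (by rw [map_sub, h, sub_self]))
  obtain ⟨A, B, hAB⟩ := hgen h
  by_cases hB0 : B = 0
  · refine ⟨0, ?_⟩
    rw [hAB, hB0, map_zero, div_zero]
  classical
  obtain ⟨A1, B1, hu, hA1, hB1⟩ : ∃ A1 B1 : F[X], IsCoprime A1 B1 ∧
      A = gcd A B * A1 ∧ B = gcd A B * B1 := by
    obtain ⟨A1, B1, hA1, hB1, h1⟩ := extract_gcd A B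
    exact ⟨A1, B1, (gcd_isUnit_iff A1 B1).1 h1, hA1, hB1⟩
  have hB1' : B1 ≠ 0 := by
    rintro rfl
    exact hB0 (by rw [hB1, mul_zero])
  have hg' : aeval y (gcd A B) ≠ 0 := by
    intro h0
    have := hinj _ h0
    exact hB0 ((gcd_eq_zero_iff _ _).1 this).2
  have h1 : h = aeval y A1 / aeval y B1 := by
    have e1 : aeval y A = aeval y (gcd A B) * aeval y A1 := by
      rw [← map_mul, ← hA1]
    have e2 : aeval y B = aeval y (gcd A B) * aeval y B1 := by
      rw [← map_mul, ← hB1]
    rw [hAB, e1, e2, mul_div_mul_left _ _ hg']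
  have hBu : IsUnit B1 := by
    by_contra hnu
    obtain ⟨P, hP, hPB⟩ := WfDvdMonoid.exists_irreducible_factor hnu hB1'
    obtain ⟨A2, B2, hB2, h2⟩ := hh P hP
    have hB2' : B2 ≠ 0 := by
      rintro rfl
      exact hB2 (dvd_zero _)
    have e1 : aeval y B1 ≠ 0 := fun h0 => hB1' (hinj _ h0)
    have e2 : aeval y B2 ≠ 0 := fun h0 => hB2' (hinj _ h0)
    have e3 : aeval y (A1 * B2) = aeval y (A2 * B1) := by
      rw [map_mul, map_mul, ← div_eq_div_iff e1 e2, ← h1, ← h2]
    have e4 : P ∣ A1 * B2 := by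
      rw [hinj' _ _ e3]
      exact Dvd.dvd.mul_left hPB _
    rcases hP.prime.dvd_or_dvd e4 with h5 | h5
    · exact hP.not_isUnit (hu.isUnit_of_dvd' h5 hPB)
    · exact hB2 h5
  obtain ⟨u, hu'⟩ := hBu
  refine ⟨A1 * (u⁻¹ : F[X]ˣ), ?_⟩
  have e1 : aeval y B1 ≠ 0 := fun h0 => hB1' (hinj _ h0)
  rw [h1, div_eq_iff e1, ← map_mul, mul_assoc, ← hu', Units.inv_mul, mul_one]

/-- a nonzero polynomial times a positive power is not regular at infinity -/
lemma not_infty {F K : Type} [Field F] [Field K] [Algebra F K] (y : K) (hy : Transcendental F y)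
    (H : F[X]) (hH : H ≠ 0) (m : ℕ) (hm : 1 ≤ m) (A B : F[X]) (hB : ¬ X ∣ B)
    (h : y ^ m * aeval y H = aeval y⁻¹ A / aeval y⁻¹ B) : False := by
  have hy0 : y ≠ 0 := by
    rintro rfl
    exact hy isAlgebraic_zero
  have hty : Transcendental F y⁻¹ := by
    intro ha
    exact hy (by simpa using ha.inv)
  have hinj : ∀ A : F[X], aeval y⁻¹ A = 0 → A = 0 := fun A h =>
    (transcendental_iff.1 hty) A h
  have hB0 : B ≠ 0 := by
    rintro rfl
    exact hB (dvd_zero _)
  have e1 : aeval y⁻¹ B ≠ 0 := fun h0 => hB0 (hinj _ h0)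
  let _ : Invertible y := invertibleOfNonzero hy0
  have h1 : aeval y⁻¹ H.reverse * y ^ H.natDegree = aeval y H := by
    have := eval₂_reverse_mul_pow (algebraMap F K) y H
    rw [invOf_eq_inv] at this
    exact this
  have h2 : aeval y⁻¹ (H.reverse * B) = aeval y⁻¹ (X ^ (m + H.natDegree) * A) := by
    rw [eq_div_iff e1, ← h1] at h
    have e2 : y⁻¹ ^ (m + H.natDegree) * (y ^ m * y ^ H.natDegree) = 1 := by
      rw [← pow_add, ← mul_pow, inv_mul_cancel₀ hy0, one_pow]
    calc aeval y⁻¹ (H.reverse * B) = (y⁻¹ ^ (m + H.natDegree) * (y ^ m * y ^ H.natDegree)) *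
          (aeval y⁻¹ H.reverse * aeval y⁻¹ B) := by rw [e2, one_mul, map_mul]
      _ = _ := by
        rw [map_mul, ← h, map_pow, aeval_X]
        ring
  have h3 : H.reverse * B = X ^ (m + H.natDegree) * A :=
    sub_eq_zero.1 (hinj _ (by rw [map_sub, h2, sub_self]))
  have h4 := congrArg (fun q => Polynomial.coeff q 0) h3
  simp only [mul_coeff_zero, coeff_zero_reverse] at h4
  rw [coeff_X_pow, if_neg (by omega), zero_mul] at h4
  rcases mul_eq_zero.1 h4 with h5 | h5
  · exact hH (leadingCoeff_eq_zero.1 h5)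
  · exact hB (X_dvd_iff.2 h5)

end RatPlace

open RatPlace in
/-- PIECE S (Rational.lean, uses D1).  Purely transcendental extensions are special. -/
theorem special_of_rational {K : Type} [Field K] [Algebra ℂ K] {k : ℕ} (s : Fin k → K)
    (hs : AlgebraicIndependent ℂ s) (hgen : IntermediateField.adjoin ℂ (Set.range s) = ⊤) :
    SpecialField K := by
  classical
  intro p hp ω hω m hm f₀ hf₀ f hf _
  -- partial derivatives
  have hd : ∀ i : Fin k, ∃ D : Derivation ℂ K K, ∀ l, D (s l) = (Pi.single i 1 : Fin k → K) l :=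
    fun i => exists_derivation s hs _
  choose d hd using hd
  let e : Derivation ℂ K K ≃ₗ[K] (Fin k → K) :=
    { toFun := fun D i => D (s i)
      map_add' := fun D D' => rfl
      map_smul' := fun c D => rfl
      invFun := fun v => ∑ i, v i • d i
      left_inv := by
        intro D
        have h1 : ∀ z : K, ((∑ i, (D (s i)) • d i) - D) z = 0 := by
          intro z
          refine der_adjoin_zero _ (Set.range s) ?_ z (by rw [hgen]; trivial)
          rintro _ ⟨l, rfl⟩
          rw [Derivation.sub_apply, sum_smul_apply]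
          simp [hd, Pi.single_apply]
        ext z
        exact sub_eq_zero.1 (h1 z)
      right_inv := by
        intro v
        funext l
        show (∑ i, v i • d i) (s l) = v l
        rw [sum_smul_apply]
        simp [hd, Pi.single_apply] }
  let b := Module.Basis.ofEquivFun e
  have hb : ∀ i, b i = d i := by
    intro i
    rw [Module.Basis.coe_ofEquivFun]
    show ∑ l, (Pi.single i 1 : Fin k → K) l • d l = d i
    simp [Pi.single_apply]
  obtain ⟨J, hJi, hJ⟩ : ∃ J : Fin p → Fin k, Function.Injective J ∧ ω (fun i => d (J i)) ≠ 0 := by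
    by_contra hcon
    push Not at hcon
    refine hω (Module.Basis.ext_alternating b fun v hv => ?_)
    simp only [hb]
    rw [hcon v hv]
    rfl
  set i₀ : Fin p := ⟨0, hp⟩
  set j : Fin k := J i₀ with hj
  set x : K := s j with hx
  let F : IntermediateField ℂ K := IntermediateField.adjoin ℂ (s '' {j}ᶜ)
  -- the derivations preserve `F`
  have hdF : ∀ i, ∀ z ∈ F, d i z ∈ F := by
    intro i z hz
    refine der_adjoin (d i) _ ?_ z hz
    rintro _ ⟨l, _, rfl⟩
    rw [hd, Pi.single_apply]
    split_ifs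
    · exact one_mem _
    · exact zero_mem _
  have hdj : ∀ z ∈ F, d j z = 0 := by
    intro z hz
    refine der_adjoin_zero (d j) _ ?_ z hz
    rintro _ ⟨l, hl, rfl⟩
    rw [hd, Pi.single_apply, if_neg (show ¬ l = j from hl)]
  have hdx : ∀ i, d i x ∈ F := by
    intro i
    rw [hx, hd, Pi.single_apply]
    split_ifs
    · exact one_mem _
    · exact zero_mem _
  have hxt : Transcendental F x := by
    intro ha
    have h1 := derivation_eq_zero (d j) F hdj x ha
    rw [hx, hd, Pi.single_eq_same] at h1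
    exact one_ne_zero h1
  have hx0 : x ≠ 0 := by
    intro h0
    rw [h0] at hxt
    exact hxt isAlgebraic_zero
  have hxt' : Transcendental F x⁻¹ := by
    intro ha
    exact hxt (by simpa using ha.inv)
  -- generation
  have hgen0 : ∀ y : K, x ∈ IntermediateField.adjoin F {y} →
      ∀ z : K, z ∈ IntermediateField.adjoin F {y} := by
    intro y hy z
    have h1 : z ∈ IntermediateField.adjoin ℂ (Set.range s) := by rw [hgen]; trivial
    have h2 : IntermediateField.adjoin ℂ (Set.range s) ≤
        (IntermediateField.adjoin F {y}).restrictScalars ℂ := by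
      rw [IntermediateField.adjoin_le_iff]
      rintro _ ⟨l, rfl⟩
      by_cases hl : l = j
      · subst hl
        exact hy
      · have h3 : s l ∈ F := IntermediateField.subset_adjoin _ _ ⟨l, hl, rfl⟩
        exact (IntermediateField.adjoin F {y}).algebraMap_mem (⟨s l, h3⟩ : F)
    exact h2 h1
  have hgx : ∀ z : K, ∃ A B : F[X], z = aeval x A / aeval x B := fun z =>
    (IntermediateField.mem_adjoin_simple_iff F z).1
      (hgen0 x (IntermediateField.mem_adjoin_simple_self F x) z)
  have hgx' : ∀ z : K, ∃ A B : F[X], z = aeval x⁻¹ A / aeval x⁻¹ B := fun z =>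
    (IntermediateField.mem_adjoin_simple_iff F z).1
      (hgen0 x⁻¹ (by
        have := inv_mem (IntermediateField.mem_adjoin_simple_self F x⁻¹)
        rwa [inv_inv] at this) z)
  -- constants belong to the local rings
  have hconst : ∀ (y : K) (P : F[X]) (_ : Irreducible P) (O : ValuationSubring K)
      (_ : ∀ z, z ∈ O ↔ ∃ A B : F[X], ¬ P ∣ B ∧ z = aeval y A / aeval y B) (c : ℂ),
      algebraMap ℂ K c ∈ O := by
    intro y P hP O hO c
    refine (hO _).2 ⟨C (algebraMap ℂ F c), 1, ?_, ?_⟩
    · intro h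
      exact hP.not_isUnit (isUnit_of_dvd_one h)
    · rw [map_one, div_one, aeval_C]
      rfl
  set h : K := f₀ * ω (fun i => d (J i)) ^ m with hh
  have hh0 : h ≠ 0 := mul_ne_zero hf₀ (pow_ne_zero _ hJ)
  obtain ⟨H, hH⟩ : ∃ H : F[X], h = aeval x H := by
    refine poly_of_places x hxt hgx h fun P hP => ?_
    obtain ⟨O, hdvr, hO⟩ := exists_place x hxt hgx P hP
    obtain ⟨⟨u, hu0, hu1, hu2⟩, -⟩ := hf O ⟨hconst x P hP O hO, hdvr⟩
    refine (hO h).1 ?_
    have h1 : u⁻¹ * ω (fun i => d (J i)) ∈ O := hu1 _ fun i a ha =>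
      der_place F (d (J i)) x (hdF _) (hdx _) P hP O hO a ha
    have h2 : h = f₀ * u ^ m * (u⁻¹ * ω (fun i => d (J i))) ^ m := by
      rw [hh, mul_pow, inv_pow]
      field_simp
    rw [h2]
    exact mul_mem hu2 (pow_mem h1 m)
  have hH0 : H ≠ 0 := by
    rintro rfl
    exact hh0 (by rw [hH, map_zero])
  -- the place at infinity
  obtain ⟨O, hdvr, hO⟩ := exists_place x⁻¹ hxt' hgx' X irreducible_X
  obtain ⟨⟨u, hu0, hu1, hu2⟩, -⟩ := hf O ⟨hconst x⁻¹ X irreducible_X O hO, hdvr⟩
  have hinv : ∀ i, d i x⁻¹ = - (x⁻¹) ^ 2 * d i x := by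
    intro i
    rw [Derivation.leibniz_inv, smul_eq_mul]
  have h1 : u⁻¹ * ω (Function.update (fun i => d (J i)) i₀ (x ^ 2 • d j)) ∈ O := by
    refine hu1 _ fun i a ha => ?_
    by_cases hi : i = i₀
    · subst hi
      rw [Function.update_self]
      refine der_place F (x ^ 2 • d j) x⁻¹ ?_ ?_ X irreducible_X O hO a ha
      · intro z hz
        rw [Derivation.smul_apply, hdj z hz, smul_zero]
        exact zero_mem _
      · rw [Derivation.smul_apply, hinv, hx, hd, Pi.single_eq_same, ← hx, smul_eq_mul, mul_one,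
          mul_neg, ← mul_pow, mul_inv_cancel₀ hx0, one_pow]
        exact neg_mem (one_mem _)
    · rw [Function.update_of_ne hi]
      refine der_place F (d (J i)) x⁻¹ (hdF _) ?_ X irreducible_X O hO a ha
      have hne : j ≠ J i := by
        intro he
        exact hi (hJi he.symm)
      rw [hinv, hx, hd, Pi.single_eq_of_ne hne, mul_zero]
      exact zero_mem _
  have h2 : ω (Function.update (fun i => d (J i)) i₀ (x ^ 2 • d j)) =
      x ^ 2 * ω (fun i => d (J i)) := by
    rw [AlternatingMap.map_update_smul, smul_eq_mul]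
    congr 2
    exact Function.update_eq_self i₀ (fun i => d (J i))
  rw [h2] at h1
  have h3 : x ^ (2 * m) * h ∈ O := by
    have h4 : x ^ (2 * m) * h = f₀ * u ^ m * (u⁻¹ * (x ^ 2 * ω (fun i => d (J i)))) ^ m := by
      rw [hh, mul_pow, mul_pow, inv_pow, pow_mul]
      field_simp
    rw [h4]
    exact mul_mem hu2 (pow_mem h1 m)
  obtain ⟨A, B, hB, h4⟩ := (hO _).1 h3
  rw [hH] at h4
  exact not_infty x hxt H hH0 (2 * m) (by omega) A B hB h4

end Pool.Agent.Campana
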