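import Pool.Agent.Lib_MP_1209e6_ag.Defs
import Pool.Agent.Lib_MP_1209e6_ag.Der
import Pool.Agent.Lib_MP_1209e6_ag.Place
import Pool.Agent.Lib_MP_1209e6_ag.Control

/-! Piece R2: the sections on the Fermat cover. -/

set_option autoImplicit false

namespace Pool.Agent.Campana

/-- Basic rules for the order function. -/
lemma R2_ord_one {K : Type} [Field K] {O : ValuationSubring K} {v : K → ℤ} (hv : IsOrd O v) :
    v 1 = 0 := by
  have h := hv.1 1 1 one_ne_zero one_ne_zero
  rw [mul_one] at h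
  omega

lemma R2_ord_inv {K : Type} [Field K] {O : ValuationSubring K} {v : K → ℤ} (hv : IsOrd O v)
    (x : K) (hx : x ≠ 0) : v x⁻¹ = - v x := by
  have h := hv.1 x x⁻¹ hx (inv_ne_zero hx)
  rw [mul_inv_cancel₀ hx, R2_ord_one hv] at h
  omega

lemma R2_ord_pow {K : Type} [Field K] {O : ValuationSubring K} {v : K → ℤ} (hv : IsOrd O v)
    (x : K) (hx : x ≠ 0) (n : ℕ) : v (x ^ n) = n * v x := by
  induction n with
  | zero => simp [R2_ord_one hv]
  | succ n ih =>
    rw [pow_succ, hv.1 _ _ (pow_ne_zero n hx) hx, ih]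
    push_cast
    ring

lemma R2_ord_prod {K ι : Type} [Field K] {O : ValuationSubring K} {v : K → ℤ} (hv : IsOrd O v)
    (s : Finset ι) (x : ι → K) (hx : ∀ i ∈ s, x i ≠ 0) : v (∏ i ∈ s, x i) = ∑ i ∈ s, v (x i) := by
  classical
  induction s using Finset.induction_on with
  | empty => simp [R2_ord_one hv]
  | insert i s hi ih =>
    rw [Finset.prod_insert hi, Finset.sum_insert hi, hv.1 _ _ (hx i (Finset.mem_insert_self i s))
      (Finset.prod_ne_zero_iff.mpr fun j hj => hx j (Finset.mem_insert_of_mem hj)),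
      ih fun j hj => hx j (Finset.mem_insert_of_mem hj)]

/-- The forms `g_* ω` for `g = (1, c_1, …, c_p)` are logarithmic forms. -/
lemma exists_swap {K : Type} [Field K] [Algebra ℂ K] {p : ℕ} (a : Fin (p + 1) → K) (c : Fin p → K)
    (hrel : ∀ D : Derivation ℂ K K, D (a 0) / a 0 = ∑ j, c j * (D (a j.succ) / a j.succ))
    (i : Fin (p + 1)) :
    ∃ σ : Fin p → Fin (p + 1), ∀ D : Fin p → Derivation ℂ K K,
      (Fin.cons 1 c : Fin (p + 1) → K) i * dlogForm (fun j => a j.succ) D =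
        dlogForm (fun j => a (σ j)) D := by
  refine Fin.cases ?_ (fun i => ?_) i
  · refine ⟨fun j => j.succ, fun D => ?_⟩
    simp
  · refine ⟨fun j => if j = i then 0 else j.succ, fun D => ?_⟩
    rw [Fin.cons_succ, dlogForm_apply, dlogForm_apply]
    have h := Matrix.det_updateCol_sum (Matrix.of fun k j => D k (a j.succ) / a j.succ) i c
    rw [← smul_eq_mul, ← h]
    congr 1
    ext k j
    by_cases hj : j = i
    · subst hj
      simp only [Matrix.updateCol_self, Matrix.of_apply, if_true, smul_eq_mul]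
      rw [hrel]
    · simp [hj]

/-- PIECE R2 (Regular.lean, uses D1, F, R1). -/
theorem regular_sections {E : Type} [Field E] [Algebra ℂ E] {p : ℕ} (hp : 1 ≤ p)
    (a : Fin (p + 1) → E) (ha0 : ∀ j, a j ≠ 0) (c : Fin p → E)
    (hind : AlgebraicIndependent ℂ (fun j : Fin p => a j.succ))
    (hrel : ∀ (K : Type) [Field K] [Algebra ℂ K] (ψ : E →ₐ[ℂ] K) (D : Derivation ℂ K K),
      D (ψ (a 0)) / ψ (a 0) = ∑ j, ψ (c j) * (D (ψ (a j.succ)) / ψ (a j.succ)))
    (hc : AlgebraicIndependent ℂ c)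
    (halg : ∀ j, IsAlgebraic (IntermediateField.adjoin ℂ (Set.range c)) (a j)) :
    ∃ m : ℕ, ∀ d, m ≤ d → ∀ (K : Type) [Field K] [Algebra ℂ K] (ψ : E →ₐ[ℂ] K),
      (∀ j, ∃ b : K, b ^ d = ψ (a j)) → ¬ SpecialField K := by
  choose m φ hφ hm using fun j => exists_control c (a j) (ha0 j) (halg j)
  have hc0 : ∀ i, c i ≠ 0 := fun i => hc.ne_zero i
  refine ⟨(∑ j, m j) + 1, fun d hd K _ _ ψ hb hsp => ?_⟩
  have hψ0 : ∀ x : E, x ≠ 0 → ψ x ≠ 0 := fun x hx => (map_ne_zero ψ).mpr hx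
  have hΦ : (∏ j, φ j) ≠ 0 := Finset.prod_ne_zero_iff.mpr fun j _ => hφ j
  set g : Fin (p + 1) → K := Fin.cons 1 (fun i => ψ (c i)) with hg
  have hg0 : ∀ i, g i ≠ 0 := by
    intro i
    refine Fin.cases ?_ (fun i => ?_) i
    · simp [hg]
    · simpa [hg] using hc0 i
  -- the key estimate
  have key : ∀ O : ValuationSubring K, IsPlace O → ∀ i,
      RegularAt O (dlogForm fun j : Fin p => ψ (a j.succ)) ((∑ j, m j) + 1)
        (ψ (∏ j, φ j) * g i) := by
    intro O hO i
    obtain ⟨v, hv⟩ := place_order O hO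
    obtain ⟨t, ht0, ht1⟩ := hv.2.2
    obtain ⟨s, -, hs⟩ := Finset.exists_min_image Finset.univ (fun i => v (g i))
      ⟨0, Finset.mem_univ 0⟩
    have hmin : ∀ i, v (g s) ≤ v (g i) := fun i => hs i (Finset.mem_univ i)
    have hμ0 : v (g s) ≤ 0 := by
      have h := hmin 0
      have h1 : v (g 0) = 0 := by simp [hg, R2_ord_one hv]
      omega
    have hφv : (∑ j, (m j : ℤ)) * v (g s) + ∑ j, |v (ψ (a j))| ≤ v (ψ (∏ j, φ j)) := by
      rw [map_prod, R2_ord_prod hv _ _ (fun j _ => hψ0 _ (hφ j)), Finset.sum_mul,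
        ← Finset.sum_add_distrib]
      apply Finset.sum_le_sum
      intro j _
      apply hm j K ψ O v hO.1 hv _ hμ0
      intro k _
      have h := hmin k.succ
      simpa [hg] using h
    obtain ⟨σ, hσ⟩ := exists_swap (fun j => ψ (a j)) (fun j => ψ (c j))
      (fun D => hrel K ψ D) s
    have hgs : ∀ D, g s * dlogForm (fun j : Fin p => ψ (a j.succ)) D =
      dlogForm (fun j => ψ (a (σ j))) D := hσ
    by_cases hA : ∀ j, v (ψ (a j)) = 0
    · refine ⟨(g s)⁻¹, inv_ne_zero (hg0 s), fun D hD => ?_, ?_⟩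
      · rw [inv_inv, hgs]
        apply dlogForm_unit O _ _ D hD
        intro j
        constructor
        · rw [hv.2.1 _ (hψ0 _ (ha0 _)), hA]
        · rw [hv.2.1 _ (inv_ne_zero (hψ0 _ (ha0 _))), R2_ord_inv hv _ (hψ0 _ (ha0 _)), hA]
          simp
      · have h1 : ψ (∏ j, φ j) * g i ≠ 0 := mul_ne_zero (hψ0 _ hΦ) (hg0 i)
        have h2 : ((g s)⁻¹) ^ ((∑ j, m j) + 1) ≠ 0 := pow_ne_zero _ (inv_ne_zero (hg0 s))
        rw [hv.2.1 _ (mul_ne_zero h1 h2), hv.1 _ _ h1 h2, hv.1 _ _ (hψ0 _ hΦ) (hg0 i),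
          R2_ord_pow hv _ (inv_ne_zero (hg0 s)), R2_ord_inv hv _ (hg0 s)]
        have h3 : 0 ≤ ∑ j, |v (ψ (a j))| := Finset.sum_nonneg fun j _ => abs_nonneg _
        have h4 := hmin i
        push_cast
        nlinarith
    · push Not at hA
      obtain ⟨j₀, hj₀⟩ := hA
      have hd' : (d : ℤ) ≤ ∑ j, |v (ψ (a j))| := by
        obtain ⟨b, hb'⟩ := hb j₀
        have hb0 : b ≠ 0 := by
          rintro rfl
          rcases Nat.eq_zero_or_pos d with h | h
          · omega
          · rw [zero_pow (by omega)] at hb'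
            exact hψ0 _ (ha0 j₀) hb'.symm
        rw [← hb', R2_ord_pow hv b hb0] at hj₀
        have h1 : |v (ψ (a j₀))| ≤ ∑ j, |v (ψ (a j))| :=
          Finset.single_le_sum (f := fun j => |v (ψ (a j))|) (fun j _ => abs_nonneg _)
            (Finset.mem_univ j₀)
        refine le_trans ?_ h1
        rw [← hb', R2_ord_pow hv b hb0, abs_mul, Nat.abs_cast]
        have h2 : v b ≠ 0 := by
          intro h
          apply hj₀
          rw [h, mul_zero]
        have h3 : 1 ≤ |v b| := Int.one_le_abs h2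
        nlinarith
      have hgt : t * g s ≠ 0 := mul_ne_zero ht0 (hg0 s)
      refine ⟨(t * g s)⁻¹, inv_ne_zero hgt, fun D hD => ?_, ?_⟩
      · rw [inv_inv, mul_assoc, hgs]
        exact dlogForm_pole O hO.1 v hv t ht0 ht1 _ (fun j => hψ0 _ (ha0 _)) D hD
      · have h1 : ψ (∏ j, φ j) * g i ≠ 0 := mul_ne_zero (hψ0 _ hΦ) (hg0 i)
        have h2 : ((t * g s)⁻¹) ^ ((∑ j, m j) + 1) ≠ 0 := pow_ne_zero _ (inv_ne_zero hgt)
        rw [hv.2.1 _ (mul_ne_zero h1 h2), hv.1 _ _ h1 h2, hv.1 _ _ (hψ0 _ hΦ) (hg0 i),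
          R2_ord_pow hv _ (inv_ne_zero hgt), R2_ord_inv hv _ hgt, hv.1 _ _ ht0 (hg0 s), ht1]
        have h4 := hmin i
        have h5 : ((∑ j, m j : ℕ) : ℤ) + 1 ≤ d := by exact_mod_cast hd
        push_cast at h5 ⊢
        nlinarith
  -- the form is not zero
  have hω : (dlogForm fun j : Fin p => ψ (a j.succ)) ≠ 0 := by
    intro h0
    have hind' : AlgebraicIndependent ℂ (fun j : Fin p => ψ (a j.succ)) :=
      hind.map' (f := ψ) ψ.injective
    choose D hD using fun i : Fin p => exists_derivation (fun j : Fin p => ψ (a j.succ)) hind'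
      (fun j => if i = j then ψ (a j.succ) else 0)
    have h1 : (dlogForm fun j : Fin p => ψ (a j.succ)) D = 1 := by
      rw [dlogForm_apply]
      rw [← Matrix.det_one (n := Fin p) (R := K)]
      congr 1
      ext i j
      rw [Matrix.of_apply, hD i j, Matrix.one_apply]
      split_ifs
      · exact div_self (hψ0 _ (ha0 _))
      · exact zero_div _
    rw [h0] at h1
    simp at h1
  refine hsp p hp _ hω ((∑ j, m j) + 1) (by omega) (ψ (∏ j, φ j)) (hψ0 _ hΦ)
    (fun i => ψ (∏ j, φ j) * ψ (c i)) (fun O hO => ⟨?_, fun i => ?_⟩) ?_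
  · have h := key O hO 0
    simpa [hg] using h
  · have h := key O hO i.succ
    simpa [hg] using h
  · have h1 : (fun i => ψ (∏ j, φ j) * ψ (c i) / ψ (∏ j, φ j)) = fun i => ψ (c i) := by
      funext i
      rw [mul_comm, mul_div_assoc, div_self (hψ0 _ hΦ), mul_one]
    rw [h1]
    exact hc.map' (f := ψ) ψ.injective

end Pool.Agent.Campana
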