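import Pool.Agent.Lib_MP_b9fedf_ag.Toric

/-!
# Brody-special Fermat covers are toric

`X ⊆ ℙⁿ` is cut out by homogeneous polynomials, each of which has at most `N` terms whose exponent
vectors are congruent modulo some `d > N (N - 2)` (both may depend on the polynomial), for example
the Fermat cover `{[x] : [x_i^d] ∈ Y}` of an arbitrary projective variety `Y`. Then `X` is
Brody-special (it contains a Zariski dense entire curve) if and only if `X` is the closure of an
orbit of a subtorus of the diagonal torus. In particular `X` is then rational, hence special.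
-/

set_option autoImplicit false

open Pool.Agent.GGL

namespace Pool.Agent.Results.MP_1209e6_ag.ToricCriterion

/-- The condition on the equations. -/
def FewTerms {σ : Type} (p : MvPolynomial σ ℂ) : Prop :=
  (∃ D : ℕ, p.IsHomogeneous D) ∧
  ∃ d : ℕ, p.support.card * (p.support.card - 2) < d ∧
    ∀ a ∈ p.support, ∀ b ∈ p.support, ∀ i, (d : ℤ) ∣ (a i : ℤ) - b i

/-- the points of `X = V(S)`, as non-zero vectors of `ℂⁿ⁺¹` -/
def points {n : ℕ} (S : Set (MvPolynomial (Fin (n + 1)) ℂ)) : Set (Fin (n + 1) → ℂ) :=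
  {x | x ≠ 0 ∧ ∀ p ∈ S, MvPolynomial.eval x p = 0}

/-- The set `A` of vectors, contained in the cone over `X = V(S)`, represents a Zariski dense subset
of `X`. -/
def DenseIn {n : ℕ} (A : Set (Fin (n + 1) → ℂ)) (S : Set (MvPolynomial (Fin (n + 1)) ℂ)) : Prop :=
  A ⊆ points S ∧ ∀ (q : MvPolynomial (Fin (n + 1)) ℂ) (D : ℕ), q.IsHomogeneous D →
    (∀ x ∈ A, MvPolynomial.eval x q = 0) → ∀ x ∈ points S, MvPolynomial.eval x q = 0

/-- `X = V(S)` is Brody-special. -/
def BrodySpecial {n : ℕ} (S : Set (MvPolynomial (Fin (n + 1)) ℂ)) : Prop :=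
  ∃ f : ℂ → (Fin (n + 1) → ℂ), Differentiable ℂ f ∧ DenseIn (Set.range f) S

/-- `X = V(S)` is the closure of an orbit of a subtorus of the diagonal torus. -/
def Toric {n : ℕ} (S : Set (MvPolynomial (Fin (n + 1)) ℂ)) : Prop :=
  ∃ (Λ : AddSubgroup (Fin (n + 1) → ℤ)) (x : Fin (n + 1) → ℂ), Saturated Λ ∧
    DenseIn {y | ∃ t ∈ torus Λ, y = fun i => t i * x i} S

theorem result (n : ℕ) (S : Set (MvPolynomial (Fin (n + 1)) ℂ)) (hS : ∀ p ∈ S, FewTerms p) :
    BrodySpecial S ↔ Toric S := by
  classical
  constructor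
  · rintro ⟨f, hf, hfX, hdense⟩
    have hf0 : ∀ z, f z ≠ 0 := fun z => (hfX ⟨z, rfl⟩).1
    have hfp : ∀ z, ∀ p ∈ S, MvPolynomial.eval (f z) p = 0 := fun z => (hfX ⟨z, rfl⟩).2
    set I : Finset (Fin (n + 1)) := Finset.univ.filter (fun i => ∃ z, f z i ≠ 0) with hIdef
    have hI : ∀ i, i ∈ I ↔ ∃ z, f z i ≠ 0 := by
      intro i; rw [hIdef, Finset.mem_filter]; simp
    have hI' : ∀ i ∈ I, ∃ z, f z i ≠ 0 := fun i hi => (hI i).mp hi
    obtain ⟨z0, hz0⟩ := (good_isConnected hf I hI').nonempty
    refine ⟨relLat f I, f z0, relLat_saturated hf I hI', ?_, ?_⟩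
    · rintro y ⟨t, ht, rfl⟩
      refine ⟨?_, fun p hp => ?_⟩
      · intro h
        apply hf0 z0
        ext i
        have := congrFun h i
        simp only [Pi.zero_apply, mul_eq_zero] at this
        exact this.resolve_left (ht.1 i)
      · obtain ⟨_, d, hN, hd⟩ := hS p hp
        exact torus_orbit hf I hI p d hN hd (fun z => hfp z p hp) t ht z0
    · intro q D hq hqA
      apply hdense q D hq
      rintro _ ⟨z, rfl⟩
      have hdiff : Differentiable ℂ (fun z => MvPolynomial.eval (f z) q) := by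
        simp_rw [MvPolynomial.eval_eq']
        exact Differentiable.fun_sum fun a _ => (mono_diff hf a).const_mul _
      have h1 : Set.EqOn (fun z => MvPolynomial.eval (f z) q) (fun _ => 0) (good f I) := by
        intro w hw
        exact hqA _ (exists_torus I hI hz0 hw)
      have h2 := Continuous.ext_on (good_dense hf I hI') hdiff.continuous continuous_const h1
      exact congrFun h2 z
  · rintro ⟨Λ, x, hΛ, hX, hdense⟩
    obtain ⟨α, hα⟩ := exists_functional Λ hΛ
    have htor : ∀ z : ℂ, (fun i => Complex.exp (α i * z)) ∈ torus Λ := by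
      intro z
      refine ⟨fun i => Complex.exp_ne_zero _, fun v hv => ?_⟩
      have h1 : ∏ i, Complex.exp (α i * z) ^ v i = Complex.exp ((∑ i, (v i : ℂ) * α i) * z) := by
        rw [Finset.sum_mul, Complex.exp_sum]
        apply Finset.prod_congr rfl
        intro i _
        rw [← Complex.exp_int_mul]
        congr 1
        ring
      rw [h1, (hα v).mpr hv, zero_mul, Complex.exp_zero]
    refine ⟨fun z i => Complex.exp (α i * z) * x i, ?_, ?_, ?_⟩
    · rw [differentiable_pi]
      intro i
      fun_prop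
    · rintro _ ⟨z, rfl⟩
      exact hX ⟨_, htor z, rfl⟩
    · intro q D hq hqf
      apply hdense q D hq
      rintro _ ⟨t, ht, rfl⟩
      exact orbit_dense Λ α hα x q (fun z => hqf _ ⟨z, rfl⟩) t ht

end Pool.Agent.Results.MP_1209e6_ag.ToricCriterion
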